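import Pool.Agent.Run7.h651.HD.B

/-! Project HD (helper442), piece LAD (helper651): the limit of the ladder on the torus. -/

set_option autoImplicit false
set_option linter.unusedSectionVars false

open scoped BigOperators Matrix
open MeasureTheory Filter Topology

namespace Run7.h651.HD.LAD

open Pool.Agent.Run7.h47 hiding mm mf ze V1 V2 ff teq kap eA eB eA_le eB_le kap_sub g2 g2_nonneg mm_im_nonneg ze_im
  ze_re ze_pos ze_im_ge V1_nonneg V2_nonneg num_lim lad inst K1 err_le kap_le tf_eq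
open Pool.Agent.W788.MFP.Four Pool.Agent.W788.BK
open Pool.Agent.W788.MFP.Form Pool.Agent.W788.MFP.Dos
open Run7.h108.GL (Law Γ mm mf ze V1 V2 ff mm_im_nonneg ze_im ze_re ze_pos ze_im_ge)
open Run7.h442.HD

/-- the discretization error -/
theorem er_bd {d L : ℕ} (hd : 1 ≤ d) (hL : (d : ℝ) ^ 8 ≤ L) {η : ℝ} (hη : (d : ℝ)⁻¹ ≤ η) :
    Real.sqrt d * er d L η ≤ 3072 / d := by
  have hd1 : (1 : ℝ) ≤ d := by exact_mod_cast hd
  have hd0 : (0 : ℝ) < d := by linarith
  have hL0 : (0 : ℝ) < L := lt_of_lt_of_le (by positivity) hL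
  have hη0 : 0 < η := lt_of_lt_of_le (by positivity) hη
  have hs : Real.sqrt d ≤ d := by
    rw [Real.sqrt_le_left hd0.le]
    nlinarith
  have hpi := Real.pi_pos
  have hpi4 := Real.pi_le_four
  have h1 : er d L η ≤ 12 * (16 * Real.pi * d / (d : ℝ) ^ 8) / ((d : ℝ)⁻¹ / 2) ^ 2 := by
    unfold er
    gcongr
  have h2 : 12 * (16 * Real.pi * d / (d : ℝ) ^ 8) / ((d : ℝ)⁻¹ / 2) ^ 2 = 768 * Real.pi / (d : ℝ) ^ 5 := by
    field_simp
    norm_num
  rw [h2] at h1
  have her := er_nonneg d L η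
  calc Real.sqrt d * er d L η ≤ d * (768 * Real.pi / (d : ℝ) ^ 5) := by gcongr
    _ = 768 * Real.pi / (d : ℝ) ^ 4 := by field_simp
    _ ≤ 3072 / (d : ℝ) ^ 4 := by
        gcongr
        linarith
    _ ≤ 3072 / d := by
        gcongr
        calc (d : ℝ) = d ^ 1 := (pow_one _).symm
          _ ≤ d ^ 4 := pow_le_pow_right₀ hd1 (by norm_num)

/-- the limit profile -/
theorem Pr_eq {G q : ℝ} (hG : 0 < G) (hq : 0 ≤ q) : 1 / (1 / G + q * (2 * G) / (4 * G ^ 3)) = Pr G q := by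
  unfold Pr
  have h1 : 0 < 1 + q / (2 * G) := by positivity
  have e1 : 1 / G + q * (2 * G) / (4 * G ^ 3) = (1 + q / (2 * G)) / G := by
    field_simp
    ring
  rw [e1, one_div_div]

/-- LAD -/
theorem main (hFR : S_FREE) (hAS : S_ASY) : S_LAD := by
  intro K A M ε hK hM hε
  have hK0 : 0 < K := by linarith
  obtain ⟨C, hC, dF, hF⟩ := hFR
  -- the constants
  set c0 : ℝ := Real.sqrt Real.pi / 2 * Real.exp (-(A ^ 2 / 4)) with hc0d
  have hpi : 0 < Real.sqrt Real.pi := Real.sqrt_pos.2 Real.pi_pos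
  have hc0 : 0 < c0 := by positivity
  set μ : ℝ := min (1 / 2) (ε / 6) with hμd
  have hμ0 : 0 < μ := by positivity
  have hμ1 : μ ≤ 1 / 2 := min_le_left _ _
  have hμ2 : μ ≤ ε / 6 := min_le_right _ _
  have hMK : 0 ≤ M * K := by positivity
  have hK10 : 0 ≤ K1 2 c0 (M * K) := by unfold K1; positivity
  set Kc : ℝ := K1 2 c0 (M * K) + (1 / c0 + (M * K) ^ 2 / (2 * c0 ^ 2) + 1) with hKcd
  have hKc0 : 0 < Kc := by positivity
  set w' : ℝ := min (min 1 (c0 / 6)) (min (c0 / (8 * (M * K + 1))) (μ / (2 * Kc))) with hw'd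
  have hw'0 : 0 < w' := by positivity
  have hw'1 : w' ≤ 1 := (min_le_left _ _).trans (min_le_left _ _)
  have hw'2 : w' ≤ c0 / 6 := (min_le_left _ _).trans (min_le_right _ _)
  have hw'3 : w' ≤ c0 / (8 * (M * K + 1)) := (min_le_right _ _).trans (min_le_left _ _)
  have hw'4 : w' ≤ μ / (2 * Kc) := (min_le_right _ _).trans (min_le_right _ _)
  have hwM : 4 * (M * K) * w' ≤ c0 / 2 := by
    rw [le_div_iff₀ (by positivity)] at hw'3
    nlinarith
  have hKw' : Kc * w' ≤ μ / 2 := by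
    rw [le_div_iff₀ (by positivity)] at hw'4
    linarith
  set y : ℝ := min (min 1 (w' / K ^ 2)) (min (μ * c0 / (4 * K ^ 3)) (μ / (2 * K ^ 3))) with hyd
  have hy0 : 0 < y := by positivity
  have hy1 : y ≤ 1 := (min_le_left _ _).trans (min_le_left _ _)
  have hy2 : y ≤ w' / K ^ 2 := (min_le_left _ _).trans (min_le_right _ _)
  have hy3 : y ≤ μ * c0 / (4 * K ^ 3) := (min_le_right _ _).trans (min_le_left _ _)
  have hy4 : y ≤ μ / (2 * K ^ 3) := (min_le_right _ _).trans (min_le_right _ _)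
  have hyK : y * K ^ 2 ≤ w' := by
    rw [le_div_iff₀ (by positivity)] at hy2
    exact hy2
  set w : ℝ := y ^ 2 / 2 with hwd
  have hw0 : 0 < w := by positivity
  have hwy : w ≤ y := by
    rw [hwd]
    nlinarith
  have hw1 : w ≤ 1 := hwy.trans hy1
  have hsw : Real.sqrt (2 * w) = y := by
    rw [hwd, show 2 * (y ^ 2 / 2) = y ^ 2 by ring, Real.sqrt_sq hy0.le]
  have hwK : w * K ^ 2 ≤ w' := by
    calc w * K ^ 2 ≤ y * K ^ 2 := by gcongr
      _ ≤ w' := hyK
  have hwK2 : w * K ^ 2 ≤ w' ^ 2 := by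
    have h1 : w * K ^ 2 ≤ (y * K) ^ 2 := by
      rw [hwd]
      nlinarith [mul_pos hy0 hK0, sq_nonneg (y * K)]
    have h2 : y * K ≤ y * K ^ 2 := by
      have : K ≤ K ^ 2 := by nlinarith
      gcongr
    exact h1.trans (pow_le_pow_left₀ (by positivity) (h2.trans hyK) 2)
  have hE1 : 2 * (K ^ 3 * Real.sqrt (2 * w)) ≤ μ := by
    rw [hsw]
    rw [le_div_iff₀ (by positivity)] at hy4
    linarith
  have hE2 : 2 * (K ^ 3 * Real.sqrt (2 * w)) / c0 ≤ μ / 2 := by
    rw [hsw, div_le_iff₀ hc0]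
    rw [le_div_iff₀ (by positivity)] at hy3
    linarith
  obtain ⟨dA, hA⟩ := hAS A (w' / 2) (by positivity)
  -- large `d`
  set Cz : ℝ := 1 + K ^ 2 * (C + 2) with hCzd
  have hCz0 : 0 < Cz := by positivity
  obtain ⟨d1, hd1⟩ : ∃ d1 : ℕ, ∀ d : ℕ, d1 ≤ d → 3072 / (d : ℝ) ≤ w' / 8 ∧
      C * (Cz / d) ^ (1 / 4 : ℝ) ≤ w' / 4 ∧ (1 + K ^ 2) / Real.sqrt d ≤ 1 / 4 ∧
      K ^ 2 * (3072 / (d : ℝ) + C / Real.sqrt d) ≤ 1 / 4 := by
    have t0 : Tendsto (fun d : ℕ => (d : ℝ)) atTop atTop := tendsto_natCast_atTop_atTop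
    have t1 : Tendsto (fun d : ℕ => 3072 / (d : ℝ)) atTop (𝓝 0) := t0.const_div_atTop 3072
    have t2 : Tendsto (fun d : ℕ => Real.sqrt (d : ℝ)) atTop atTop := Real.tendsto_sqrt_atTop.comp t0
    have t3 : Tendsto (fun d : ℕ => (1 + K ^ 2) / Real.sqrt (d : ℝ)) atTop (𝓝 0) := t2.const_div_atTop _
    have t4 : Tendsto (fun d : ℕ => C / Real.sqrt (d : ℝ)) atTop (𝓝 0) := t2.const_div_atTop _
    have t5 : Tendsto (fun d : ℕ => K ^ 2 * (3072 / (d : ℝ) + C / Real.sqrt d)) atTop (𝓝 (K ^ 2 * (0 + 0))) :=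
      (t1.add t4).const_mul _
    have t6 : Tendsto (fun d : ℕ => Cz / (d : ℝ)) atTop (𝓝 0) := t0.const_div_atTop _
    have t7 : Tendsto (fun d : ℕ => C * (Cz / (d : ℝ)) ^ (1 / 4 : ℝ)) atTop (𝓝 (C * (0 : ℝ) ^ (1 / 4 : ℝ))) := by
      refine Tendsto.const_mul C ?_
      exact (Real.continuousAt_rpow_const 0 (1 / 4) (Or.inr (by norm_num))).tendsto.comp t6
    rw [Real.zero_rpow (by norm_num), mul_zero] at t7
    rw [add_zero, mul_zero] at t5
    have e := ((t1.eventually_le_const (by positivity : (0 : ℝ) < w' / 8)).and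
      (t7.eventually_le_const (by positivity : (0 : ℝ) < w' / 4))).and
      ((t3.eventually_le_const (by norm_num : (0 : ℝ) < 1 / 4)).and
      (t5.eventually_le_const (by norm_num : (0 : ℝ) < 1 / 4)))
    obtain ⟨d1, hd1⟩ := eventually_atTop.1 e
    exact ⟨d1, fun d hd => ⟨(hd1 d hd).1.1, (hd1 d hd).1.2, (hd1 d hd).2.1, (hd1 d hd).2.2⟩⟩
  refine ⟨w, hw0, max (max dF dA) (max d1 1), ?_⟩
  intro _ d L _ hd hL σ E t hσ1 hσ2 hE htd htw hmm hV1 hV2 j hj
  have hdF : dF ≤ d := (le_max_left _ _).trans ((le_max_left _ _).trans hd)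
  have hdA : dA ≤ d := (le_max_right _ _).trans ((le_max_left _ _).trans hd)
  have hdd1 : d1 ≤ d := (le_max_left _ _).trans ((le_max_right _ _).trans hd)
  have hd1' : 1 ≤ d := (le_max_right _ _).trans ((le_max_right _ _).trans hd)
  obtain ⟨b1, b2, b3, b4⟩ := hd1 d hdd1
  have hdr : (1 : ℝ) ≤ d := by exact_mod_cast hd1'
  have hdr0 : (0 : ℝ) < d := by linarith
  set s := Real.sqrt d with hsd
  have hs1 : 1 ≤ s := by rw [hsd, Real.one_le_sqrt]; exact hdr
  have hs0 : 0 < s := by linarith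
  have hss : s * s = d := Real.mul_self_sqrt hdr0.le
  have ht : 0 < t := lt_of_lt_of_le (by positivity) htd
  have hσa : 0 < |σ| := (by positivity : 0 < 1 / K).trans_le hσ1
  have hσK : σ ^ 2 ≤ K ^ 2 := by
    rw [← sq_abs]
    exact pow_le_pow_left₀ (abs_nonneg σ) hσ2 2
  have hσp : 0 < σ ^ 2 := by rw [← sq_abs]; positivity
  have hσi : 1 / σ ^ 2 ≤ K ^ 2 := by
    rw [← sq_abs, div_le_iff₀ (by positivity)]
    have h1 : 1 ≤ K * |σ| := by
      rw [div_le_iff₀ hK0] at hσ1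
      linarith
    have h2 := pow_le_pow_left₀ (by norm_num) h1 2
    linarith
  have hts : t ≤ 1 / s := by
    rw [le_div_iff₀ hs0]
    exact htw.trans hw1
  -- the limit density
  set G := Ga d E with hGd
  have hE2 : E ^ 2 / (4 * d) ≤ A ^ 2 / 4 := by
    rw [div_le_div_iff₀ (by positivity) (by norm_num)]
    have h1 : E ^ 2 ≤ A ^ 2 * d := by
      calc E ^ 2 = |E| ^ 2 := (sq_abs E).symm
        _ ≤ (A * s) ^ 2 := pow_le_pow_left₀ (abs_nonneg E) hE 2
        _ = A ^ 2 * (s * s) := by ring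
        _ = A ^ 2 * d := by rw [hss]
    linarith
  have hG : c0 ≤ G := by
    rw [hGd, hc0d]
    unfold Ga
    gcongr
  have hG1 : G ≤ 1 := by
    rw [hGd]
    unfold Ga
    have h1 : Real.exp (-(E ^ 2 / (4 * d))) ≤ 1 := by
      rw [Real.exp_le_one_iff]
      have : 0 ≤ E ^ 2 / (4 * (d : ℝ)) := by positivity
      linarith
    have h2 : Real.sqrt Real.pi ≤ 2 := by
      rw [Real.sqrt_le_left (by norm_num)]
      linarith [Real.pi_le_four]
    have h3 : Real.sqrt Real.pi / 2 ≤ 1 := by linarith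
    calc Real.sqrt Real.pi / 2 * Real.exp (-(E ^ 2 / (4 * d))) ≤ 1 * 1 := by gcongr
      _ = 1 := one_mul 1
  have hG0 : 0 < G := hc0.trans_le hG
  -- the renormalized energy
  have hζ0 := ze_pos (d := d) (L := L) (σ := σ) (E := E) ht
  have hζt := ze_im_ge (d := d) (L := L) (σ := σ) (E := E) ht
  set ζ := ze d L σ E t with hζd
  have hXX : |(mm d L σ E t).im - (mf d L σ E t).im| ≤ w * t := by
    rw [← Complex.sub_im]
    exact (Complex.abs_im_le_norm _).trans hmm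
  have herη : ∀ η : ℝ, (d : ℝ)⁻¹ ≤ η → s * er d L η ≤ w' / 8 := fun η hη => (er_bd hd1' hL hη).trans b1
  have hη1 : ζ.im ≤ 1 := by
    by_contra hcon
    push Not at hcon
    have h1 := im_mono (d := d) (L := L) (x := ζ.re) (η := 1) (η' := ζ.im) one_pos hcon.le
    have him1 : ((ζ.re : ℂ) + ((1 : ℝ) : ℂ) * Complex.I).im = 1 := by simp
    have h2 := (hF d L hdF ((ζ.re : ℂ) + ((1 : ℝ) : ℂ) * Complex.I) (by rw [him1]; norm_num)
      (by rw [him1])).1
    rw [him1] at h2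
    rw [Complex.re_add_im, div_one] at h1
    have h3 := (le_abs_self _).trans ((Complex.abs_im_le_norm (GG ((ζ.re : ℂ) + ((1 : ℝ) : ℂ) * Complex.I)
      (0 : T d L) 0)))
    have h4 : (mf d L σ E t).im ≤ ζ.im * (er d L 1 + C / s) := by
      have h5 : (mf d L σ E t).im / ζ.im ≤ er d L 1 + C / s := h1.trans (h3.trans h2)
      rw [div_le_iff₀ hζ0] at h5
      linarith
    have h5 : er d L 1 ≤ 3072 / d := by
      have h6 := er_bd hd1' hL (η := 1) (inv_le_one_of_one_le₀ hdr)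
      have h7 := er_nonneg d L 1
      have h8 : er d L 1 ≤ Real.sqrt d * er d L 1 := le_mul_of_one_le_left h7 hs1
      exact h8.trans h6
    have h6 : ζ.im = t + σ ^ 2 * (mm d L σ E t).im := ze_im σ E t
    have h7 : (mm d L σ E t).im ≤ (mf d L σ E t).im + w * t := by
      have := (abs_le.1 hXX).2
      linarith
    have h8 : 0 ≤ (mm d L σ E t).im := mm_im_nonneg ht
    have h9 : σ ^ 2 * (mm d L σ E t).im ≤ K ^ 2 * ((mf d L σ E t).im + w * t) :=
      mul_le_mul hσK h7 h8 (by positivity)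
    have h10 : K ^ 2 * (mf d L σ E t).im ≤ ζ.im * (1 / 4) := by
      calc K ^ 2 * (mf d L σ E t).im ≤ K ^ 2 * (ζ.im * (er d L 1 + C / s)) := by gcongr
        _ ≤ K ^ 2 * (ζ.im * (3072 / d + C / s)) := by gcongr
        _ = ζ.im * (K ^ 2 * (3072 / d + C / s)) := by ring
        _ ≤ ζ.im * (1 / 4) := by gcongr
    have h11 : K ^ 2 * (w * t) ≤ K ^ 2 * t := by
      have : w * t ≤ 1 * t := by gcongr
      rw [one_mul] at this
      gcongr
    have h12 : t * (1 + K ^ 2) ≤ 1 / 4 := by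
      calc t * (1 + K ^ 2) ≤ 1 / s * (1 + K ^ 2) := by gcongr
        _ = (1 + K ^ 2) / s := by ring
        _ ≤ 1 / 4 := b3
    nlinarith
  obtain ⟨f1, f2⟩ := hF d L hdF ζ hζ0 hη1
  obtain ⟨f3, f4⟩ := f2 E
  have hζd' : (d : ℝ)⁻¹ ≤ ζ.im := htd.trans hζt
  have hner := herη ζ.im hζd'
  have her0 := er_nonneg d L ζ.im
  have hζE : ‖ζ - E‖ ≤ Cz / s := by
    have h1 : ζ - E = (t : ℂ) * Complex.I + (σ : ℂ) ^ 2 * mm d L σ E t := by
      rw [hζd]
      unfold ze
      ring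
    have h2 : ‖mm d L σ E t‖ ≤ (C + 2) / s := by
      have h3 := norm_add_le (mm d L σ E t - mf d L σ E t) (mf d L σ E t)
      rw [sub_add_cancel] at h3
      have h4 : er d L ζ.im ≤ 1 / s := by
        rw [le_div_iff₀ hs0]
        linarith
      have h5 : w * t ≤ 1 / s := by
        calc w * t ≤ 1 * t := by gcongr
          _ ≤ 1 / s := by rw [one_mul]; exact hts
      have h6 : ‖mf d L σ E t‖ ≤ er d L ζ.im + C / s := f1
      have h7 : (C + 2) / s = 1 / s + (1 / s + C / s) := by ring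
      rw [h7]
      linarith
    rw [h1]
    refine (norm_add_le _ _).trans ?_
    rw [norm_mul, norm_mul, norm_pow, Complex.norm_I, mul_one, Complex.norm_real, Complex.norm_real,
      Real.norm_of_nonneg ht.le, Real.norm_eq_abs, sq_abs]
    calc t + σ ^ 2 * ‖mm d L σ E t‖ ≤ 1 / s + K ^ 2 * ((C + 2) / s) := by gcongr
      _ = Cz / s := by rw [hCzd]; ring
  set err : ℝ := er d L ζ.im + C / s * (‖ζ - E‖ / s) ^ (1 / 4 : ℝ) with herrd
  have herr0 : 0 ≤ err := by positivity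
  have herr : s * err ≤ w' / 2 := by
    have h1 : ‖ζ - E‖ / s ≤ Cz / d := by
      rw [← hss, ← div_div]
      gcongr
    have h2 : (‖ζ - E‖ / s) ^ (1 / 4 : ℝ) ≤ (Cz / d) ^ (1 / 4 : ℝ) :=
      Real.rpow_le_rpow (by positivity) h1 (by norm_num)
    have h3 : s * (C / s * (‖ζ - E‖ / s) ^ (1 / 4 : ℝ)) = C * (‖ζ - E‖ / s) ^ (1 / 4 : ℝ) := by
      field_simp
    have h4 : C * (‖ζ - E‖ / s) ^ (1 / 4 : ℝ) ≤ C * (Cz / d) ^ (1 / 4 : ℝ) := by gcongr
    rw [herrd, mul_add, h3]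
    linarith
  obtain ⟨a1, a2⟩ := hA d hdA E hE
  have hX : |s * (mf d L σ E t).im - G| ≤ w' := by
    have h1 : s * (mf d L σ E t).im - G = s * ((mf d L σ E t).im - (mJ d E).re) + (s * (mJ d E).re - G) := by
      ring
    rw [h1]
    refine (abs_add_le _ _).trans ?_
    rw [abs_mul, abs_of_pos hs0]
    have h2 : s * |(mf d L σ E t).im - (mJ d E).re| ≤ s * err := by
      gcongr
      exact f3
    linarith
  have hS : |s * (mS d E).re - 2 * G| ≤ w' := by linarith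
  have hr : s * t / σ ^ 2 ≤ w' ^ 2 := by
    calc s * t / σ ^ 2 = (t * s) * (1 / σ ^ 2) := by ring
      _ ≤ w * K ^ 2 := by gcongr
      _ ≤ w' ^ 2 := hwK2
  have hj' : s * sz L j ≤ M * Real.sqrt (s * t) := by
    have h1 : s * Real.sqrt (t / s) = Real.sqrt (s * t) := by
      have h2 : s * t = s ^ 2 * (t / s) := by field_simp
      rw [h2, Real.sqrt_mul (by positivity), Real.sqrt_sq hs0.le]
    calc s * sz L j ≤ s * (M * Real.sqrt (t / s)) := by gcongr
      _ = M * (s * Real.sqrt (t / s)) := by ring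
      _ = _ := by rw [h1]
  have hin := inst (d := d) (L := L) (σ := σ) (E := E) (t := t) (w := w) (s := s) (K := K) (M := M) (c0 := c0)
    (w' := w') (μ := μ) (G := G) (err := err) (r := s * t / σ ^ 2) ht hK hσ2 hσ1 hw0.le hs1 rfl hc0 hM hw'0 hw'1
    (by linarith) hwM hwK hr hG hG1 hη1 hmm hV1 hV2 hX hS herr0 herr f4 hμ1 (by
      have h1 : K1 2 c0 (M * K) * w' ≤ Kc * w' := by
        rw [hKcd]
        have : 0 ≤ (1 / c0 + (M * K) ^ 2 / (2 * c0 ^ 2) + 1) * w' := by positivity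
        linarith
      linarith) (by
      have h1 : (1 / c0 + (M * K) ^ 2 / (2 * c0 ^ 2) + 1) * w' ≤ Kc * w' := by
        rw [hKcd]
        have : 0 ≤ K1 2 c0 (M * K) * w' := by positivity
        linarith
      linarith) hE1 j hj'
  rw [Pr_eq hG0 (by positivity)] at hin
  refine hin.trans ?_
  linarith

end Run7.h651.HD.LAD
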