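import Pool.Agent.Run7.h651.Rand

/-!
Existence of graphs of bounded degree without short cycles and with an edge between any two
large disjoint sets.
-/

namespace Run7.h651

open SimpleGraph Classical Finset

/-- average degree -/
@[irreducible] def DD : ℕ := 34992

lemma DD_eq : DD = 34992 := by unfold DD; rfl

lemma DD_pos : 0 < DD := by rw [DD_eq]; norm_num

/-- the number of ordered pairs of adjacent vertices -/
noncomputable def X1 {n K : ℕ} (ω : Sym2 (Fin n) → Fin (K + 1)) : ℕ :=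
  ((univ : Finset (Fin n × Fin n)).filter (fun p => (RG ω).Adj p.1 p.2)).card

/-- the number of short closed tuples -/
noncomputable def X2 {n K : ℕ} (g : ℕ) (ω : Sym2 (Fin n) → Fin (K + 1)) : ℕ :=
  ∑ j ∈ range g, ((univ : Finset (Fin (j + 3) → Fin n)).filter (fun f => CT (RG ω) j f)).card

/-- the number of holes -/
noncomputable def X3 {n K : ℕ} (m : ℕ) (ω : Sym2 (Fin n) → Fin (K + 1)) : ℕ :=
  (((univ : Finset (Finset (Fin n) × Finset (Fin n))).filter
    (fun p => p.1.card = m ∧ p.2.card = m)).filter (fun p => Hole (RG ω) p.1 p.2)).card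

/-- bound for the short cycles -/
def QQ (g : ℕ) : ℕ := ∑ j ∈ range g, DD ^ (j + 3)

lemma double_count {A B : Type*} (s : Finset A) (t : Finset B) (P : A → B → Prop) :
    ∑ a ∈ s, (t.filter (fun b => P a b)).card = ∑ b ∈ t, (s.filter (fun a => P a b)).card := by
  simp_rw [Finset.card_filter]
  exact Finset.sum_comm


lemma sum_X1 (K n : ℕ) (hn : n = DD * (K + 1)) :
    ∑ ω : Sym2 (Fin n) → Fin (K + 1), X1 ω ≤
    n * DD * Fintype.card (Sym2 (Fin n) → Fin (K + 1)) := by
  set N := Fintype.card (Sym2 (Fin n) → Fin (K + 1)) with hN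
  have h1 : (∑ ω : Sym2 (Fin n) → Fin (K + 1), X1 ω) * (K + 1) ≤ (n * DD * N) * (K + 1) := by
    unfold X1
    rw [double_count, Finset.sum_mul]
    calc ∑ p : Fin n × Fin n, ((univ : Finset (Sym2 (Fin n) → Fin (K + 1))).filter
          (fun ω => (RG ω).Adj p.1 p.2)).card * (K + 1)
        ≤ ∑ _p : Fin n × Fin n, N := by
          apply Finset.sum_le_sum
          rintro ⟨u, v⟩ _
          by_cases huv : u = v
          · subst huv
            simp
          · exact count_edge huv
      _ = n * n * N := by simp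
      _ = (n * DD * N) * (K + 1) := by
          have : n * n = n * (DD * (K + 1)) := by rw [← hn]
          rw [this]
          ring
  exact Nat.le_of_mul_le_mul_right h1 (by omega)

lemma sum_X2 (g K n : ℕ) (hn : n = DD * (K + 1)) :
    ∑ ω : Sym2 (Fin n) → Fin (K + 1), X2 g ω ≤
    QQ g * Fintype.card (Sym2 (Fin n) → Fin (K + 1)) := by
  set N := Fintype.card (Sym2 (Fin n) → Fin (K + 1)) with hN
  unfold X2 QQ
  rw [Finset.sum_comm, Finset.sum_mul]
  apply Finset.sum_le_sum
  intro j _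
  have h1 : (∑ ω : Sym2 (Fin n) → Fin (K + 1),
      ((univ : Finset (Fin (j + 3) → Fin n)).filter (fun f => CT (RG ω) j f)).card) *
        (K + 1) ^ (j + 3) ≤ (DD ^ (j + 3) * N) * (K + 1) ^ (j + 3) := by
    rw [double_count, Finset.sum_mul]
    calc ∑ f : Fin (j + 3) → Fin n, ((univ : Finset (Sym2 (Fin n) → Fin (K + 1))).filter
          (fun ω => CT (RG ω) j f)).card * (K + 1) ^ (j + 3)
        ≤ ∑ _f : Fin (j + 3) → Fin n, N := by
          apply Finset.sum_le_sum
          intro f _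
          exact count_ct j f
      _ = n ^ (j + 3) * N := by simp
      _ = (DD ^ (j + 3) * N) * (K + 1) ^ (j + 3) := by
          have : n ^ (j + 3) = DD ^ (j + 3) * (K + 1) ^ (j + 3) := by rw [hn, mul_pow]
          rw [this]
          ring
  exact Nat.le_of_mul_le_mul_right h1 (pow_pos (Nat.succ_pos K) _)

lemma sum_X3 (K n m : ℕ) (hn : n = DD * (K + 1)) (hm : m = 324 * (K + 1)) : 2 ^ n *
    ∑ ω : Sym2 (Fin n) → Fin (K + 1), X3 m ω ≤
    Fintype.card (Sym2 (Fin n) → Fin (K + 1)) := by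
  set N := Fintype.card (Sym2 (Fin n) → Fin (K + 1)) with hN
  set S3 := ∑ ω : Sym2 (Fin n) → Fin (K + 1), X3 m ω with hSig
  have h1 : S3 * (K + 1) ^ (m * m) ≤ 4 ^ n * (K ^ (m * m) * N) := by
    rw [hSig]
    unfold X3
    rw [double_count, Finset.sum_mul]
    calc ∑ p ∈ (univ : Finset (Finset (Fin n) × Finset (Fin n))).filter
          (fun p => p.1.card = m ∧ p.2.card = m),
          ((univ : Finset (Sym2 (Fin n) → Fin (K + 1))).filter
          (fun ω => Hole (RG ω) p.1 p.2)).card * (K + 1) ^ (m * m)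
        ≤ ∑ _p ∈ (univ : Finset (Finset (Fin n) × Finset (Fin n))).filter
          (fun p => p.1.card = m ∧ p.2.card = m), K ^ (m * m) * N := by
          apply Finset.sum_le_sum
          rintro ⟨S, T⟩ hp
          simp only [mem_filter, mem_univ, true_and] at hp
          exact count_hole hp.1 hp.2
      _ ≤ ∑ _p : Finset (Fin n) × Finset (Fin n), K ^ (m * m) * N :=
          Finset.sum_le_sum_of_subset (Finset.filter_subset _ _)
      _ = 4 ^ n * (K ^ (m * m) * N) := by
          rw [Finset.sum_const, Finset.card_univ, Fintype.card_prod, Fintype.card_finset,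
            Fintype.card_fin, smul_eq_mul, ← mul_pow]
          norm_num
  have hmm : m * m = (K + 1) * (3 * n) := by
    rw [hm, hn, DD_eq]
    ring
  have h2 := two_pow_le K (3 * n)
  rw [← hmm] at h2
  have h3 : (2 ^ n * S3) * (2 ^ (2 * n) * (K + 1) ^ (m * m)) ≤
      N * (2 ^ (2 * n) * (K + 1) ^ (m * m)) := by
    calc (2 ^ n * S3) * (2 ^ (2 * n) * (K + 1) ^ (m * m))
        = 2 ^ (3 * n) * (S3 * (K + 1) ^ (m * m)) := by
          rw [show 3 * n = n + 2 * n by ring, pow_add]; ring
      _ ≤ 2 ^ (3 * n) * (4 ^ n * (K ^ (m * m) * N)) := Nat.mul_le_mul_left _ h1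
      _ = (2 ^ (3 * n) * K ^ (m * m)) * (4 ^ n * N) := by ring
      _ ≤ (K + 1) ^ (m * m) * (4 ^ n * N) := Nat.mul_le_mul_right _ h2
      _ = N * (2 ^ (2 * n) * (K + 1) ^ (m * m)) := by
          have : (2 : ℕ) ^ (2 * n) = 4 ^ n := by
            rw [pow_mul]; norm_num
          rw [this]
          ring
  exact Nat.le_of_mul_le_mul_right h3
    (Nat.mul_pos (pow_pos (by norm_num) _) (pow_pos (Nat.succ_pos K) _))

lemma exists_omega (g K n m : ℕ) (hg : 1 ≤ g) (hn : n = DD * (K + 1)) (hm : m = 324 * (K + 1)) :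
    ∃ ω : Sym2 (Fin n) → Fin (K + 1),
    X1 ω < 4 * n * DD ∧ X2 g ω < 4 * QQ g ∧ X3 m ω = 0 := by
  set N := Fintype.card (Sym2 (Fin n) → Fin (K + 1)) with hN
  have hN0 : 0 < N := Fintype.card_pos
  have hD : 0 < DD := DD_pos
  have hn0 : 2 ≤ n := by
    rw [hn, DD_eq]; omega
  have hQ : 0 < QQ g := by
    unfold QQ
    apply Finset.sum_pos
    · intro j _; exact pow_pos DD_pos _
    · exact ⟨0, by simp; omega⟩
  have h1 := sum_X1 K n hn
  have h2 := sum_X2 g K n hn
  have h3 := sum_X3 K n m hn hm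
  rw [← hN] at h1 h2 h3
  have h4 : ∑ ω : Sym2 (Fin n) → Fin (K + 1),
      ((X1 ω : ℚ) / (4 * n * DD) + (X2 g ω : ℚ) / (4 * QQ g) + (X3 m ω : ℚ)) <
      ∑ _ω : Sym2 (Fin n) → Fin (K + 1), (1 : ℚ) := by
    rw [Finset.sum_add_distrib, Finset.sum_add_distrib, ← Finset.sum_div, ← Finset.sum_div]
    have e1 : (∑ ω : Sym2 (Fin n) → Fin (K + 1), (X1 ω : ℚ)) ≤ n * DD * N := by
      exact_mod_cast h1
    have e2 : (∑ ω : Sym2 (Fin n) → Fin (K + 1), (X2 g ω : ℚ)) ≤ QQ g * N := by
      exact_mod_cast h2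
    have e3 : 4 * (∑ ω : Sym2 (Fin n) → Fin (K + 1), (X3 m ω : ℚ)) ≤ N := by
      have : 4 * (∑ ω : Sym2 (Fin n) → Fin (K + 1), X3 m ω) ≤ N := by
        refine le_trans (Nat.mul_le_mul_right _ ?_) h3
        calc 4 = 2 ^ 2 := by norm_num
          _ ≤ 2 ^ n := Nat.pow_le_pow_right (by norm_num) hn0
      exact_mod_cast this
    have hn' : (0 : ℚ) < n := by exact_mod_cast (by omega : 0 < n)
    have hD' : (0 : ℚ) < DD := by exact_mod_cast hD
    have hQ' : (0 : ℚ) < QQ g := by exact_mod_cast hQ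
    have hN' : (0 : ℚ) < N := by exact_mod_cast hN0
    have f1 : (∑ ω : Sym2 (Fin n) → Fin (K + 1), (X1 ω : ℚ)) / (4 * n * DD) ≤ N / 4 := by
      rw [div_le_iff₀ (by positivity)]
      linarith [e1, show (N : ℚ) / 4 * (4 * n * DD) = n * DD * N by ring]
    have f2 : (∑ ω : Sym2 (Fin n) → Fin (K + 1), (X2 g ω : ℚ)) / (4 * QQ g) ≤ N / 4 := by
      rw [div_le_iff₀ (by positivity)]
      linarith [e2, show (N : ℚ) / 4 * (4 * QQ g) = QQ g * N by ring]
    have f3 : ∑ _ω : Sym2 (Fin n) → Fin (K + 1), (1 : ℚ) = N := by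
      rw [Finset.sum_const, Finset.card_univ, nsmul_eq_mul, mul_one]
    rw [f3]
    linarith
  obtain ⟨ω, _, hω⟩ := Finset.exists_lt_of_sum_lt h4
  have p1 : (0 : ℚ) ≤ (X1 ω : ℚ) / (4 * n * DD) := by positivity
  have p2 : (0 : ℚ) ≤ (X2 g ω : ℚ) / (4 * QQ g) := by positivity
  have p3 : (0 : ℚ) ≤ (X3 m ω : ℚ) := by positivity
  refine ⟨ω, ?_, ?_, ?_⟩
  · have : (X1 ω : ℚ) / (4 * n * DD) < 1 := by linarith
    rw [div_lt_one (by positivity)] at this
    exact_mod_cast this
  · have : (X2 g ω : ℚ) / (4 * QQ g) < 1 := by linarith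
    rw [div_lt_one (by positivity)] at this
    exact_mod_cast this
  · have : (X3 m ω : ℚ) < 1 := by linarith
    have : X3 m ω < 1 := by exact_mod_cast this
    omega

theorem exists_base (g B : ℕ) (hg : 1 ≤ g) : ∃ (n m : ℕ) (Γ : SimpleGraph (Fin n))
    (W : Finset (Fin n)), B ≤ m ∧ 27 * m ≤ W.card ∧ GG Γ g ∧
    (∀ v, (nb Γ v).card ≤ 8 * DD) ∧
    ∀ S T : Finset (Fin n), S ⊆ W → T ⊆ W → Disjoint S T → m ≤ S.card → m ≤ T.card →
      ∃ s ∈ S, ∃ t ∈ T, Γ.Adj s t := by
  obtain ⟨K, hK⟩ : ∃ K, K = 16 * QQ g + B := ⟨_, rfl⟩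
  obtain ⟨n, hn⟩ : ∃ n, n = DD * (K + 1) := ⟨_, rfl⟩
  obtain ⟨m, hm⟩ : ∃ m, m = 324 * (K + 1) := ⟨_, rfl⟩
  obtain ⟨ω, h1, h2, h3⟩ := exists_omega g K n m hg hn hm
  have hD : 0 < DD := DD_pos
  set Bad1 : Finset (Fin n) := univ.filter (fun v => 8 * DD < (nb (RG ω) v).card) with hB1
  set Bad2 : Finset (Fin n) := (range g).biUnion (fun j =>
    ((univ : Finset (Fin (j + 3) → Fin n)).filter (fun f => CT (RG ω) j f)).image
      (fun f => f 0)) with hB2
  have hX1 : X1 ω = ∑ v, (nb (RG ω) v).card := by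
    unfold X1
    rw [Finset.card_filter, Fintype.sum_prod_type]
    refine Finset.sum_congr rfl fun v _ => ?_
    unfold nb
    rw [Finset.card_filter]
  have hc1 : 2 * Bad1.card ≤ n := by
    have e1 : Bad1.card * (8 * DD) ≤ ∑ v, (nb (RG ω) v).card := by
      calc Bad1.card * (8 * DD) = ∑ _v ∈ Bad1, 8 * DD := by simp
        _ ≤ ∑ v ∈ Bad1, (nb (RG ω) v).card := by
            apply Finset.sum_le_sum
            intro v hv
            rw [hB1, mem_filter] at hv
            exact hv.2.le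
        _ ≤ _ := Finset.sum_le_sum_of_subset (subset_univ _)
    rw [← hX1] at e1
    have e2 : Bad1.card * (8 * DD) < 4 * n * DD := lt_of_le_of_lt e1 h1
    have e3 : (2 * Bad1.card) * (4 * DD) < n * (4 * DD) := by
      calc (2 * Bad1.card) * (4 * DD) = Bad1.card * (8 * DD) := by ring
        _ < 4 * n * DD := e2
        _ = n * (4 * DD) := by ring
    exact (Nat.lt_of_mul_lt_mul_right e3).le
  have hc2 : 4 * Bad2.card ≤ n := by
    have e1 : Bad2.card ≤ X2 g ω := by
      rw [hB2]
      refine Finset.card_biUnion_le.trans ?_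
      unfold X2
      exact Finset.sum_le_sum (fun j _ => Finset.card_image_le)
    have e2 : 16 * QQ g ≤ n := by
      rw [hn, hK, DD_eq]
      omega
    omega
  set W : Finset (Fin n) := univ \ (Bad1 ∪ Bad2) with hW
  have hWc : 27 * m ≤ W.card := by
    have e1 : W.card = n - (Bad1 ∪ Bad2).card := by
      rw [hW, Finset.card_sdiff_of_subset (subset_univ _), Finset.card_univ, Fintype.card_fin]
    have e2 := Finset.card_union_le Bad1 Bad2
    have e3 : 4 * (27 * m) = n := by
      rw [hm, hn, DD_eq]; ring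
    omega
  have hnotW : ∀ v, v ∈ W ↔ v ∉ Bad1 ∧ v ∉ Bad2 := by
    intro v
    rw [hW, mem_sdiff, mem_union]
    simp
  refine ⟨n, m, { Adj := fun u v => (RG ω).Adj u v ∧ u ∈ W ∧ v ∈ W,
                  symm := ⟨fun u v h => ⟨h.1.symm, h.2.2, h.2.1⟩⟩,
                  loopless := ⟨fun u h => h.1.ne rfl⟩ }, W, by omega, hWc, ?_, ?_, ?_⟩
  · apply gg_of_no_closed
    intro l hnd hcl hl3
    by_contra hcon
    push Not at hcon
    obtain ⟨j, hj⟩ : ∃ j, l.length = j + 3 := ⟨l.length - 3, by omega⟩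
    have hadj : ∀ i : Fin (j + 3), ∃ h1 : i.val < l.length, ∃ h2 : (i + 1).val < l.length,
        (RG ω).Adj l[i.val] l[(i + 1).val] ∧ l[i.val] ∈ W := by
      intro i
      refine ⟨by omega, by rw [hj]; exact (i + 1).isLt, ?_⟩
      by_cases hi : i.val + 1 < j + 3
      · have hv : (i + 1).val = i.val + 1 := by
          rw [Fin.val_add_one_of_lt']
          omega
        have := (List.isChain_iff_getElem.1 hcl.1) i.val (by omega)
        simp only [hv]
        exact ⟨this.1, this.2.1⟩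
      · have hi' : i = Fin.last (j + 2) := by
          apply Fin.ext
          simp
          omega
        have hv : (i + 1).val = 0 := by rw [hi']; simp
        have hiv : i.val = l.length - 1 := by rw [hi']; simp [hj]
        have := hcl.2 (l[i.val]'(by omega)) (by
          rw [List.getLast?_eq_getElem?, ← hiv]
          simp) (l[0]'(by omega)) (by
          rw [List.head?_eq_getElem?]
          simp [hj])
        simp only [hv]
        exact ⟨this.1, this.2.1⟩
    have hbad : l[0]'(by omega) ∈ Bad2 := by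
      rw [hB2, mem_biUnion]
      refine ⟨j, by simp; omega, ?_⟩
      rw [mem_image]
      refine ⟨fun i => l[i.val]'(by omega), ?_, rfl⟩
      simp only [mem_filter, mem_univ, true_and]
      refine ⟨?_, ?_⟩
      · intro i i' hii
        simp only at hii
        apply Fin.ext
        exact (List.Nodup.getElem_inj_iff hnd).1 hii
      · intro i
        exact (hadj i).2.2.1
    obtain ⟨_, _, _, hw⟩ := hadj 0
    exact ((hnotW _).1 hw).2 hbad
  · intro v
    by_cases hv : v ∈ W
    · have h5 : v ∉ Bad1 := ((hnotW v).1 hv).1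
      rw [hB1, mem_filter] at h5
      simp only [mem_univ, true_and, not_lt] at h5
      refine le_trans (Finset.card_le_card ?_) h5
      intro w hw
      simp only [mem_nb] at hw ⊢
      exact hw.1
    · have : nb ({ Adj := fun u v => (RG ω).Adj u v ∧ u ∈ W ∧ v ∈ W,
                   symm := ⟨fun u v h => ⟨h.1.symm, h.2.2, h.2.1⟩⟩,
                   loopless := ⟨fun u h => h.1.ne rfl⟩ } : SimpleGraph (Fin n)) v = ∅ := by
        ext w
        simp only [mem_nb, notMem_empty, iff_false]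
        intro hw
        exact hv hw.2.1
      rw [this]
      simp
  · intro S T hS hT hd hSm hTm
    obtain ⟨S', hS', hS'c⟩ := Finset.exists_subset_card_eq hSm
    obtain ⟨T', hT', hT'c⟩ := Finset.exists_subset_card_eq hTm
    unfold X3 at h3
    rw [Finset.card_eq_zero] at h3
    have h5 : ¬ Hole (RG ω) S' T' := by
      intro hh
      have : (S', T') ∈ (∅ : Finset (Finset (Fin n) × Finset (Fin n))) := by
        rw [← h3]
        simp only [mem_filter, mem_univ, true_and]
        exact ⟨⟨hS'c, hT'c⟩, hh⟩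
      simp at this
    unfold Hole at h5
    push Not at h5
    obtain ⟨s, hs, t, ht, hst⟩ := h5 (Disjoint.mono hS' hT' hd)
    exact ⟨s, hS' hs, t, hT' ht, hst, hS (hS' hs), hT (hT' ht)⟩

end Run7.h651
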