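import Pool.Agent.Run7.h651.Clean
import Pool.Agent.Run7.h651.Base

/-!
**Hamilton-connected graphs without short cycles**, with three vertices far from each other.
-/

namespace Run7.h651

open SimpleGraph Classical Finset

/-- Hamiltonian path from `a` to `b`, as a list -/
def HL {A : Type*} (G : SimpleGraph A) (a b : A) (l : List A) : Prop :=
  l.Nodup ∧ (∀ v, v ∈ l) ∧ l.IsChain G.Adj ∧ l.head? = some a ∧ l.getLast? = some b

/-- Hamilton-connected, no cycle shorter than `g`, three vertices far from each other -/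
structure IsBlob {A : Type*} (G : SimpleGraph A) (g : ℕ) (q : Fin 3 → A) : Prop where
  gg : GG G g
  hc : ∀ a b, a ≠ b → ∃ l, HL G a b l
  far : ∀ i j, i ≠ j → Far G g (q i) (q j)

/-- enough room -/
noncomputable def BB (g : ℕ) : ℕ := 4 * (8 * DD + 10) ^ g + g + 5

lemma pow_le_BB {g x : ℕ} (hx : x ≤ 8 * DD + 10) : 4 * x ^ g + g + 5 ≤ BB g := by
  unfold BB
  have := Nat.pow_le_pow_left hx g
  omega

theorem exists_tri (g N : ℕ) (hg : 2 ≤ g) : ∃ (n m : ℕ) (H : SimpleGraph (Fin n))
    (U : Fin 3 → Finset (Fin n)) (c : Fin 3 → List (Fin n)), Tri H m U c ∧ GG H g ∧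
    (∀ v, (nb H v).card ≤ 8 * DD + 9) ∧ BB g ≤ m ∧ N ≤ m := by
  obtain ⟨n, m, Γ, W, hm, hW, hgg, hdeg, hj⟩ := exists_base g (BB g + N) (by omega)
  have hBB : 5 ≤ BB g := by unfold BB; omega
  obtain ⟨A0, hA0, hA0c⟩ := Finset.exists_subset_card_eq (s := W) (n := 9 * m) (by omega)
  have h1 : 9 * m ≤ (W \ A0).card := by
    rw [Finset.card_sdiff_of_subset hA0]; omega
  obtain ⟨A1, hA1, hA1c⟩ := Finset.exists_subset_card_eq h1
  have hA1W : A1 ⊆ W := hA1.trans sdiff_subset
  have hd01 : Disjoint A0 A1 := by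
    rw [Finset.disjoint_left]
    intro v hv hv'
    exact (mem_sdiff.1 (hA1 hv')).2 hv
  have h2 : 9 * m ≤ (W \ (A0 ∪ A1)).card := by
    rw [Finset.card_sdiff_of_subset (union_subset hA0 hA1W), card_union_of_disjoint hd01]
    omega
  obtain ⟨A2, hA2, hA2c⟩ := Finset.exists_subset_card_eq h2
  have hA2W : A2 ⊆ W := hA2.trans sdiff_subset
  have hd02 : Disjoint A0 A2 := by
    rw [Finset.disjoint_left]
    intro v hv hv'
    exact (mem_sdiff.1 (hA2 hv')).2 (mem_union_left _ hv)
  have hd12 : Disjoint A1 A2 := by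
    rw [Finset.disjoint_left]
    intro v hv hv'
    exact (mem_sdiff.1 (hA2 hv')).2 (mem_union_right _ hv)
  set U0 : Fin 3 → Finset (Fin n) := ![A0, A1, A2] with hU0
  have hU0W : ∀ i, U0 i ⊆ W := by
    intro i
    fin_cases i
    · exact hA0
    · exact hA1W
    · exact hA2W
  have hU0d : ∀ i j, i ≠ j → Disjoint (U0 i) (U0 j) := by
    intro i j hij
    fin_cases i <;> fin_cases j <;> first | exact absurd rfl hij | skip
    · exact hd01
    · exact hd02
    · exact hd01.symm
    · exact hd12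
    · exact hd02.symm
    · exact hd12.symm
  have hU0c : ∀ i, 9 * m ≤ (U0 i).card := by
    intro i
    fin_cases i
    · exact hA0c.ge
    · exact hA1c.ge
    · exact hA2c.ge
  obtain ⟨U, hUU, hUc, hexp⟩ := clean (Γ := Γ) (m := m) (U := U0)
    (fun i j S T hS hT hd hS' hT' => hj S T (hS.trans (hU0W i)) (hT.trans (hU0W j)) hd hS' hT')
    hU0d hU0c
  have hU6 : ∀ i, 6 * m ≤ (U i).card := by
    intro i
    have h3 := hUc i
    have h4 := hU0c i
    omega
  have hUd : ∀ i j, i ≠ j → Disjoint (U i) (U j) := fun i j hij =>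
    Disjoint.mono (hUU i) (hUU j) (hU0d i j hij)
  obtain ⟨H0, c0, k1, k2, k3, k4, k5, k6⟩ := exists_ring hg hgg hdeg (U 0) (by
    have := pow_le_BB (g := g) (x := 8 * DD + 4) (by omega)
    have := hU6 0
    omega)
  obtain ⟨H1, c1, l1, l2, l3, l4, l5, l6⟩ := exists_ring hg k2 k3 (U 1) (by
    have := pow_le_BB (g := g) (x := 8 * DD + 3 + 4) (by omega)
    have := hU6 1
    omega)
  obtain ⟨H2, c2, m1, m2, m3, m4, m5, m6⟩ := exists_ring hg l2 l3 (U 2) (by
    have := pow_le_BB (g := g) (x := 8 * DD + 3 + 3 + 4) (by omega)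
    have := hU6 2
    omega)
  have hΓH : Γ ≤ H2 := (k1.trans l1).trans m1
  refine ⟨n, m, H2, U, ![c0, c1, c2], ⟨?_, ?_, ?_, ?_, ?_, ?_, ?_, hUd, by omega⟩, m2,
    fun v => by have := m3 v; omega, by omega, by omega⟩
  · intro i S hS hne hSm
    refine lt_of_lt_of_le (hexp i i S hS hne hSm) (card_le_card ?_)
    intro x hx
    simp only [NW, mem_filter] at hx ⊢
    obtain ⟨h3, h4, s, hs, hxs⟩ := hx
    exact ⟨h3, h4, s, hs, hΓH hxs⟩
  · intro i j hij v hv
    have h3 := hexp i j {v} (by simpa using hv) (by simp) (by simp; omega)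
    have h4 : (NW Γ (U j) {v}).Nonempty := by
      rw [← card_pos]; omega
    obtain ⟨w, hw⟩ := h4
    simp only [NW, mem_filter, mem_singleton, exists_eq_left] at hw
    exact ⟨w, hw.1, (hΓH hw.2.2).symm⟩
  · intro i j hij S T hS hT hSm hTm
    obtain ⟨s, hs, t, ht, hst⟩ := hj S T ((hS.trans (hUU i)).trans (hU0W i))
      ((hT.trans (hUU j)).trans (hU0W j)) (Disjoint.mono hS hT (hUd i j hij)) hSm hTm
    exact ⟨s, hs, t, ht, hΓH hst⟩
  · intro i
    fin_cases i
    · exact k4
    · exact l4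
    · exact m4
  · intro i
    fin_cases i
    · exact k5
    · exact l5
    · exact m5
  · intro i
    fin_cases i
    · exact k6.imp (fun a b h => m1 (l1 h))
    · exact l6.imp (fun a b h => m1 h)
    · exact m6
  · intro i
    have := hU6 i
    omega

lemma GG.comap {A V : Type*} {G : SimpleGraph V} {g : ℕ} (h : GG G g) (f : A → V)
    (hf : Function.Injective f) : GG (G.comap f) g := by
  intro x y hxy p
  let φ : (G.comap f).deleteEdges {s(x, y)} →g G.deleteEdges {s(f x, f y)} :=
    { toFun := f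
      map_rel' := by
        intro a b hab
        simp only [deleteEdges_adj, comap_adj, Set.mem_singleton_iff, Sym2.eq_iff] at hab ⊢
        refine ⟨hab.1, ?_⟩
        rintro (⟨h1, h2⟩ | ⟨h1, h2⟩)
        · exact hab.2 (Or.inl ⟨hf h1, hf h2⟩)
        · exact hab.2 (Or.inr ⟨hf h1, hf h2⟩) }
  have := h (f x) (f y) hxy (p.map φ)
  simpa using this

lemma Far.comap {A V : Type*} {G : SimpleGraph V} {L : ℕ} (f : A → V) {x y : A}
    (h : Far G L (f x) (f y)) : Far (G.comap f) L x y := by
  intro p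
  let φ : G.comap f →g G := ⟨f, fun h => h⟩
  have := h (p.map φ)
  simpa using this

theorem exists_blob (g N : ℕ) : ∃ (A : Type) (_ : Fintype A) (G : SimpleGraph A) (q : Fin 3 → A),
    IsBlob G g q ∧ N ≤ Fintype.card A := by
  suffices h : ∃ (A : Type) (_ : Fintype A) (G : SimpleGraph A) (q : Fin 3 → A),
      IsBlob G (g + 2) q ∧ N ≤ Fintype.card A by
    obtain ⟨A, fA, G, q, h1, h2⟩ := h
    refine ⟨A, fA, G, q, ⟨?_, h1.hc, fun i j hij => (h1.far i j hij).mono_L (by omega)⟩, h2⟩
    intro x y hxy p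
    have := h1.gg x y hxy p
    omega
  obtain ⟨n, m, H, U, c, hT, hgg, hdeg, hm, hN⟩ := exists_tri (g + 2) N (by omega)
  set W : Finset (Fin n) := univ.biUnion U with hW
  have hWU : ∀ v, v ∈ W ↔ ∃ i, v ∈ U i := by
    intro v; simp [hW]
  have hc : ∀ a b : {v // v ∈ W}, a ≠ b →
      ∃ l, HL (H.comap (Subtype.val : {v // v ∈ W} → Fin n)) a b l := by
    intro a b hab
    obtain ⟨l, h1, h2, h3, h4, h5⟩ := hT.conn ((hWU a.1).1 a.2) ((hWU b.1).1 b.2)
      (fun h => hab (Subtype.ext h))
    have h2 : ∀ v, v ∈ l ↔ v ∈ W := by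
      intro v
      rw [h2 v, hW]
      simp
    obtain ⟨l', rfl⟩ : ∃ l' : List {v // v ∈ W}, l'.map Subtype.val = l := by
      lift l to List {v // v ∈ W} using (fun v hv => (h2 v).1 hv)
      exact ⟨l, rfl⟩
    refine ⟨l', h1.of_map, ?_, ?_, ?_, ?_⟩
    · intro v
      have := (h2 v.1).2 v.2
      rw [List.mem_map] at this
      obtain ⟨w, hw, hwv⟩ := this
      rwa [Subtype.ext hwv] at hw
    · rw [List.isChain_map] at h3
      exact h3
    · rw [List.head?_map] at h4
      cases hh : l'.head? with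
      | none => rw [hh] at h4; simp at h4
      | some w =>
        rw [hh] at h4
        simp only [Option.map_some, Option.some.injEq] at h4
        rw [Subtype.ext h4]
    · rw [List.getLast?_map] at h5
      cases hh : l'.getLast? with
      | none => rw [hh] at h5; simp at h5
      | some w =>
        rw [hh] at h5
        simp only [Option.map_some, Option.some.injEq] at h5
        rw [Subtype.ext h5]
  have hU0 : 4 * m < (U 0).card := hT.big 0
  have hUW : U 0 ⊆ W := fun v hv => (hWU v).2 ⟨0, hv⟩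
  have hball : ∀ z, 4 * (ball H (g + 2) z).card ≤ m := by
    intro z
    have h1 := card_ball hdeg (g + 2) z
    have h2 := pow_le_BB (g := g + 2) (x := 8 * DD + 9 + 1) (by omega)
    omega
  obtain ⟨q0, hq0⟩ : (U 0).Nonempty := by rw [← card_pos]; omega
  obtain ⟨q1, hq1, hq1'⟩ : ∃ z ∈ U 0, z ∉ ball H (g + 2) q0 := by
    apply exists_mem_outside
    have := hball q0
    omega
  obtain ⟨q2, hq2, hq2'⟩ : ∃ z ∈ U 0, z ∉ ball H (g + 2) q0 ∪ ball H (g + 2) q1 := by
    apply exists_mem_outside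
    have h1 := hball q0
    have h2 := hball q1
    have h3 := card_union_le (ball H (g + 2) q0) (ball H (g + 2) q1)
    omega
  simp only [mem_union, not_or] at hq2'
  refine ⟨{v // v ∈ W}, inferInstance, H.comap Subtype.val,
    ![⟨q0, hUW hq0⟩, ⟨q1, hUW hq1⟩, ⟨q2, hUW hq2⟩], ⟨hgg.comap _ Subtype.val_injective, hc, ?_⟩, ?_⟩
  · have f01 : Far H (g + 2) q0 q1 := far_of_not_mem_ball hq1'
    have f02 : Far H (g + 2) q0 q2 := far_of_not_mem_ball hq2'.1
    have f12 : Far H (g + 2) q1 q2 := far_of_not_mem_ball hq2'.2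
    intro i j hij
    fin_cases i <;> fin_cases j <;> first | exact absurd rfl hij | skip
    · exact Far.comap _ f01
    · exact Far.comap _ f02
    · exact Far.comap _ f01.symm
    · exact Far.comap _ f12
    · exact Far.comap _ f02.symm
    · exact Far.comap _ f12.symm
  · rw [Fintype.card_coe]
    have := card_le_card hUW
    omega

end Run7.h651
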