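import Pool.Agent.Run7.h651.Conn

/-!
Removal of few vertices from the three parts such that small sets expand.
-/

namespace Run7.h651

open SimpleGraph Classical

variable {V : Type*}

/-- the vertices of `W` outside of `S` with a neighbour in `S` -/
noncomputable def NW (Γ : SimpleGraph V) (W S : Finset V) : Finset V :=
  W.filter (fun x => x ∉ S ∧ ∃ s ∈ S, Γ.Adj x s)

/-- the union of a row -/
noncomputable def row (Z : Fin 3 × Fin 3 → Finset V) (i : Fin 3) : Finset V :=
  Finset.univ.biUnion (fun k => Z (i, k))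

lemma mem_row {Z : Fin 3 × Fin 3 → Finset V} {i : Fin 3} {v : V} :
    v ∈ row Z i ↔ ∃ k, v ∈ Z (i, k) := by simp [row]

/-- admissible families -/
def Adm (Γ : SimpleGraph V) (m : ℕ) (U : Fin 3 → Finset V) (Z : Fin 3 × Fin 3 → Finset V) : Prop :=
  ∀ p : Fin 3 × Fin 3, Z p ⊆ U p.1 ∧ (Z p).card ≤ m ∧
    ((U p.2 \ row Z p.2).filter (fun x => ∃ s ∈ Z p, Γ.Adj x s)).card ≤ 2 * (Z p).card

theorem clean [Fintype V] {Γ : SimpleGraph V} {m : ℕ} {U : Fin 3 → Finset V}
    (hj : ∀ i j, ∀ S T : Finset V, S ⊆ U i → T ⊆ U j → Disjoint S T → m ≤ S.card →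
      m ≤ T.card → ∃ s ∈ S, ∃ t ∈ T, Γ.Adj s t)
    (hd : ∀ i j, i ≠ j → Disjoint (U i) (U j)) (hbig : ∀ i, 9 * m ≤ (U i).card) :
    ∃ U' : Fin 3 → Finset V, (∀ i, U' i ⊆ U i) ∧ (∀ i, (U i).card ≤ (U' i).card + 3 * m) ∧
      ∀ i j, ∀ S : Finset V, S ⊆ U' i → S.Nonempty → S.card ≤ m →
        2 * S.card < (NW Γ (U' j) S).card := by
  obtain ⟨Z, hZ, hmax⟩ := Finset.exists_max_image
    (Finset.univ.filter (fun Z : Fin 3 × Fin 3 → Finset V => Adm Γ m U Z))
    (fun Z => ∑ p, (Z p).card) ⟨fun _ => ∅, by simp [Adm]⟩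
  simp only [Finset.mem_filter, Finset.mem_univ, true_and] at hZ hmax
  have hrow : ∀ i, (row Z i).card ≤ 3 * m := by
    intro i
    calc (row Z i).card ≤ ∑ k, (Z (i, k)).card := Finset.card_biUnion_le
      _ ≤ ∑ _k : Fin 3, m := Finset.sum_le_sum (fun k _ => (hZ (i, k)).2.1)
      _ = 3 * m := by simp
  have hrowU : ∀ i, row Z i ⊆ U i := by
    intro i v hv
    obtain ⟨k, hk⟩ := mem_row.1 hv
    exact (hZ (i, k)).1 hk
  refine ⟨fun i => U i \ row Z i, fun i => Finset.sdiff_subset, ?_, ?_⟩
  · intro i
    have h1 := Finset.card_sdiff_of_subset (hrowU i)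
    have h2 := hrow i
    show (U i).card ≤ (U i \ row Z i).card + 3 * m
    omega
  · intro i j S hS hne hSm
    by_contra hcon
    push Not at hcon
    have hSU : S ⊆ U i := hS.trans Finset.sdiff_subset
    have hSrow : Disjoint S (row Z i) := by
      rw [Finset.disjoint_left]
      intro v hv hv'
      exact (Finset.mem_sdiff.1 (hS hv)).2 hv'
    have hSZ : Disjoint (Z (i, j)) S := by
      rw [Finset.disjoint_left]
      intro v hv hv'
      exact Finset.disjoint_left.1 hSrow hv' (mem_row.2 ⟨j, hv⟩)
    set Z' := Function.update Z (i, j) (Z (i, j) ∪ S) with hZ'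
    have hZ'ij : Z' (i, j) = Z (i, j) ∪ S := by simp [hZ']
    have hZ'ne : ∀ p, p ≠ (i, j) → Z' p = Z p := by
      intro p hp
      simp [hZ', hp]
    have hZle : ∀ p, Z p ⊆ Z' p := by
      intro p
      by_cases hp : p = (i, j)
      · subst hp
        rw [hZ'ij]
        exact Finset.subset_union_left
      · rw [hZ'ne p hp]
    have hrowle : ∀ l, row Z l ⊆ row Z' l := by
      intro l v hv
      obtain ⟨k, hk⟩ := mem_row.1 hv
      exact mem_row.2 ⟨k, hZle _ hk⟩
    have hSrow' : S ⊆ row Z' i := by
      intro v hv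
      exact mem_row.2 ⟨j, by rw [hZ'ij]; exact Finset.mem_union_right _ hv⟩
    have hZ'U : ∀ p, Z' p ⊆ U p.1 := by
      intro p
      by_cases hp : p = (i, j)
      · subst hp
        rw [hZ'ij]
        exact Finset.union_subset (hZ _).1 hSU
      · rw [hZ'ne p hp]
        exact (hZ p).1
    have hcardZ' : (Z' (i, j)).card = (Z (i, j)).card + S.card := by
      rw [hZ'ij, Finset.card_union_of_disjoint hSZ]
    have hfil : ((U j \ row Z' j).filter (fun x => ∃ s ∈ Z' (i, j), Γ.Adj x s)).card ≤
        2 * (Z' (i, j)).card := by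
      have h1 : (U j \ row Z' j).filter (fun x => ∃ s ∈ Z' (i, j), Γ.Adj x s) ⊆
          ((U j \ row Z j).filter (fun x => ∃ s ∈ Z (i, j), Γ.Adj x s)) ∪
          NW Γ (U j \ row Z j) S := by
        intro x hx
        simp only [Finset.mem_filter, Finset.mem_sdiff] at hx
        obtain ⟨⟨hxU, hxr⟩, s, hs, hxs⟩ := hx
        have hxr' : x ∉ row Z j := fun h => hxr (hrowle j h)
        rw [hZ'ij, Finset.mem_union] at hs
        rw [Finset.mem_union]
        rcases hs with hs | hs
        · left
          simp only [Finset.mem_filter, Finset.mem_sdiff]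
          exact ⟨⟨hxU, hxr'⟩, s, hs, hxs⟩
        · right
          simp only [NW, Finset.mem_filter, Finset.mem_sdiff]
          refine ⟨⟨hxU, hxr'⟩, ?_, s, hs, hxs⟩
          intro hxS
          by_cases hij : i = j
          · subst hij
            exact hxr (hSrow' hxS)
          · exact Finset.disjoint_left.1 (hd i j hij) (hSU hxS) hxU
      have h2 := (Finset.card_le_card h1).trans (Finset.card_union_le _ _)
      have h3 := (hZ (i, j)).2.2
      simp only at h3
      omega
    by_cases hsmall : (Z' (i, j)).card ≤ m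
    · have hadm : Adm Γ m U Z' := by
        intro p
        by_cases hp : p = (i, j)
        · subst hp
          exact ⟨hZ'U _, hsmall, hfil⟩
        · refine ⟨hZ'U _, ?_, ?_⟩
          · rw [hZ'ne p hp]; exact (hZ p).2.1
          · rw [hZ'ne p hp]
            refine le_trans (Finset.card_le_card ?_) (hZ p).2.2
            intro x hx
            simp only [Finset.mem_filter, Finset.mem_sdiff] at hx ⊢
            exact ⟨⟨hx.1.1, fun h => hx.1.2 (hrowle _ h)⟩, hx.2⟩
      have h1 := hmax Z' hadm
      have h2 : ∑ p, (Z p).card < ∑ p, (Z' p).card := by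
        apply Finset.sum_lt_sum
        · intro p _
          exact Finset.card_le_card (hZle p)
        · refine ⟨(i, j), Finset.mem_univ _, ?_⟩
          rw [hcardZ']
          have := Finset.card_pos.2 hne
          omega
      omega
    · push Not at hsmall
      have hZij := (hZ (i, j)).2.1
      have hrow' : (row Z' j).card ≤ 4 * m := by
        have h1 : row Z' j ⊆ row Z j ∪ S := by
          intro v hv
          obtain ⟨k, hk⟩ := mem_row.1 hv
          by_cases hp : (j, k) = (i, j)
          · rw [hp, hZ'ij] at hk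
            rcases Finset.mem_union.1 hk with hk | hk
            · refine Finset.mem_union_left _ (mem_row.2 ⟨k, ?_⟩)
              rw [hp]; exact hk
            · exact Finset.mem_union_right _ hk
          · rw [hZ'ne _ hp] at hk
            exact Finset.mem_union_left _ (mem_row.2 ⟨k, hk⟩)
        have h2 := (Finset.card_le_card h1).trans (Finset.card_union_le _ _)
        have h3 := hrow j
        omega
      have hrowU' : row Z' j ⊆ U j := by
        intro v hv
        obtain ⟨k, hk⟩ := mem_row.1 hv
        exact hZ'U (j, k) hk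
      set T := (U j \ row Z' j).filter (fun x => ¬ ∃ s ∈ Z' (i, j), Γ.Adj x s) with hT
      have hTc : m ≤ T.card := by
        have h1 := Finset.card_filter_add_card_filter_not (s := U j \ row Z' j)
          (p := fun x => ∃ s ∈ Z' (i, j), Γ.Adj x s)
        have h2 := Finset.card_sdiff_of_subset hrowU'
        have h3 := hbig j
        have h4 : T.card = ((U j \ row Z' j).filter
          (fun x => ¬ ∃ s ∈ Z' (i, j), Γ.Adj x s)).card := rfl
        omega
      have hTU : T ⊆ U j := (Finset.filter_subset _ _).trans Finset.sdiff_subset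
      have hdis : Disjoint (Z' (i, j)) T := by
        rw [Finset.disjoint_left]
        intro v hv hv'
        have h1 := (Finset.mem_sdiff.1 (Finset.mem_filter.1 hv').1)
        by_cases hij : i = j
        · apply h1.2
          rw [mem_row]
          exact ⟨j, by rw [← hij] at hv ⊢; exact hv⟩
        · exact Finset.disjoint_left.1 (hd i j hij) (hZ'U _ hv) h1.1
      obtain ⟨s, hs, t, ht, hst⟩ := hj i j (Z' (i, j)) T (hZ'U _) hTU hdis hsmall.le hTc
      exact (Finset.mem_filter.1 ht).2 ⟨s, hs, hst.symm⟩

end Run7.h651
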