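import Pool.Agent.Run7.h651.GirthBG

/-!
Connected nontraceable detour graphs of every girth.
-/

namespace Run7.h651

open SimpleGraph Plan

/-- a walk from a chain of distinct vertices -/
lemma path_of_list {V : Type*} {G : SimpleGraph V} {l : List V} {v : V} (hnd : l.Nodup)
    (hch : l.IsChain G.Adj) (hh : l.head? = some v) :
    ∃ w, ∃ p : G.Walk v w, p.IsPath ∧ p.support = l := by
  have hne : l ≠ [] := by rintro rfl; simp at hh
  have h1 : l.head hne = v := by
    rw [List.head?_eq_some_head hne] at hh
    simpa using hh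
  subst h1
  refine ⟨l.getLast hne, Walk.ofSupport l hne hch, ?_, Walk.support_ofSupport hne hch⟩
  rw [Walk.isPath_def, Walk.support_ofSupport]
  exact hnd

theorem cnd_core (g N : ℕ) : ∃ (V : Type) (_ : Fintype V) (G : SimpleGraph V),
    N ≤ Fintype.card V ∧ G.Connected ∧
    (∀ v : V, ∃ w, ∃ p : G.Walk v w, p.IsPath ∧ p.length + 3 = Fintype.card V) ∧
    (∀ (u v : V) (p : G.Walk u v), p.IsPath → p.length + 3 ≤ Fintype.card V) ∧
    ¬ G.IsAcyclic ∧ (g : ℕ∞) ≤ G.egirth := by
  classical
  obtain ⟨A, fA, GA, q, hb, hN⟩ := exists_blob (g + 1) (N + 3)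
  have hup : ∀ (u v : VV A) (p : (BG GA q).Walk u v), p.IsPath →
      p.length + 3 ≤ Fintype.card (VV A) := fun u v p hp => upper p hp
  have hcard : N + 3 ≤ Fintype.card (VV A) := by
    rw [Fintype.card_sum, Fintype.card_prod, Fintype.card_fin, Fintype.card_fin]
    omega
  have hbig : 5 ≤ Fintype.card (VV A) := by
    rw [Fintype.card_sum, Fintype.card_prod, Fintype.card_fin, Fintype.card_fin]
    omega
  have hlong : ∀ v : VV A, ∃ w, ∃ p : (BG GA q).Walk v w, p.IsPath ∧
      p.length + 3 = Fintype.card (VV A) := by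
    intro v
    obtain ⟨m, h1, h2, h3, h4⟩ := exists_long hb (by omega) v
    obtain ⟨w, p, hp, hs⟩ := path_of_list h1 h2 h3
    refine ⟨w, p, hp, ?_⟩
    have h5 := hup v w p hp
    have h6 : p.length + 1 = m.length := by rw [← Walk.length_support, hs]
    omega
  refine ⟨VV A, inferInstance, BG GA q, by omega, ?_, hlong, hup, ?_, ?_⟩
  · -- connected
    rw [connected_iff]
    refine ⟨?_, ⟨.inr 0⟩⟩
    intro x y
    obtain ⟨x', p, hp, hpl⟩ := hlong x
    obtain ⟨y', r, hr, hrl⟩ := hlong y
    have hc1 : p.support.toFinset.card = p.length + 1 := by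
      rw [List.toFinset_card_of_nodup hp.support_nodup, Walk.length_support]
    have hc2 : r.support.toFinset.card = r.length + 1 := by
      rw [List.toFinset_card_of_nodup hr.support_nodup, Walk.length_support]
    obtain ⟨z, hz⟩ : (p.support.toFinset ∩ r.support.toFinset).Nonempty := by
      rw [← Finset.card_pos]
      have h1 := Finset.card_union_add_card_inter p.support.toFinset r.support.toFinset
      have h2 := Finset.card_le_univ (p.support.toFinset ∪ r.support.toFinset)
      omega
    rw [Finset.mem_inter, List.mem_toFinset, List.mem_toFinset] at hz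
    exact (p.takeUntil z hz.1).reachable.trans (r.takeUntil z hz.2).reachable.symm
  · -- not acyclic
    intro hac
    let φ : GA →g BG GA q := ⟨fun a => .inl (0, a), fun {a a'} h => Or.inl (Inn.mk 0 a a' h)⟩
    have hφ : Function.Injective φ := by
      intro a a' h
      have : (Sum.inl (0, a) : VV A) = Sum.inl (0, a') := h
      simpa using this
    have hacA : GA.IsAcyclic := hac.comap φ hφ
    have hcA : 3 ≤ Fintype.card A := by omega
    have h01 : q 0 ≠ q 1 := (hb.far 0 1 (by decide)).ne (by omega)
    obtain ⟨l, l1, l2, l3, l4, l5⟩ := hb.hc _ _ h01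
    have hlen : l.length = Fintype.card A := by
      rw [← List.toFinset_card_of_nodup l1, ← Finset.card_univ]
      congr 1
      ext v
      simp [l2 v]
    match l, l1, l2, l3, l4, l5, hlen with
    | [], _, _, _, _, _, hlen => simp at hlen; omega
    | [a], _, _, _, _, _, hlen => simp at hlen; omega
    | a :: b :: t, l1, l2, l3, l4, l5, hlen =>
      rw [List.isChain_cons_cons] at l3
      have hab : GA.Adj a b := l3.1
      obtain ⟨m, m1, m2, m3, m4, m5⟩ := hb.hc a b hab.ne
      obtain ⟨w, p, hp, hs⟩ := path_of_list m1 m3 m4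
      have hw : w = b := by
        have : p.support.getLast? = some w := by
          rw [List.getLast?_eq_getLast_of_ne_nil p.support_ne_nil, Walk.getLast_support]
        rw [hs, m5] at this
        simpa using this.symm
      subst hw
      have hmlen : m.length = Fintype.card A := by
        rw [← List.toFinset_card_of_nodup m1, ← Finset.card_univ]
        congr 1
        ext v
        simp [m2 v]
      have heq := hacA.subsingleton_path a w
      have hp2 : (Walk.cons hab Walk.nil : GA.Walk a w).IsPath := by
        simp [Walk.cons_isPath_iff, hab.ne]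
      have := congrArg (fun r : GA.Path a w => r.1.length)
        (heq.elim ⟨p, hp⟩ ⟨Walk.cons hab Walk.nil, hp2⟩)
      simp only [Walk.length_cons, Walk.length_nil] at this
      have h6 : p.length + 1 = m.length := by rw [← Walk.length_support, hs]
      omega
  · rw [SimpleGraph.le_egirth]
    intro a w hw
    have := BG_cycle hb w hw
    exact_mod_cast (by omega : g ≤ w.length)

theorem cnd (g N : ℕ) : ∃ (n : ℕ) (G : SimpleGraph (Fin n)), N ≤ n ∧ G.Connected ∧
    (¬ ∃ (u v : Fin n) (p : G.Walk u v), p.IsPath ∧ ∀ w, w ∈ p.support) ∧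
    (∀ v : Fin n, ∃ (w : Fin n) (p : G.Walk v w), p.IsPath ∧
      ∀ (a b : Fin n) (q : G.Walk a b), q.IsPath → q.length ≤ p.length) ∧
    ¬ G.IsAcyclic ∧ g ≤ G.girth := by
  classical
  obtain ⟨V, fV, G, h1, h2, h3, h4, h5, h6⟩ := cnd_core g N
  let φ : G ≃g G.overFin rfl := G.overFinIso rfl
  have hup : ∀ (u v : Fin (Fintype.card V)) (p : (G.overFin rfl).Walk u v), p.IsPath →
      p.length + 3 ≤ Fintype.card V := by
    intro u v p hp
    have := h4 _ _ (p.map φ.symm.toHom) (Walk.map_isPath_of_injective φ.symm.injective hp)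
    simpa using this
  refine ⟨Fintype.card V, G.overFin rfl, h1, φ.connected_iff.1 h2, ?_, ?_, ?_, ?_⟩
  · rintro ⟨u, v, p, hp, hall⟩
    have h7 := hup u v p hp
    have h8 : p.support.toFinset = Finset.univ := by
      ext w; simp [hall w]
    have h9 := List.toFinset_card_of_nodup hp.support_nodup
    rw [h8, Finset.card_univ, Fintype.card_fin, Walk.length_support] at h9
    omega
  · intro v
    obtain ⟨w, p, hp, hl⟩ := h3 (φ.symm v)
    have hv : φ (φ.symm v) = v := φ.apply_symm_apply v
    refine ⟨φ w, (p.map φ.toHom).copy hv rfl, ?_, ?_⟩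
    · rw [Walk.isPath_copy]
      exact Walk.map_isPath_of_injective φ.injective hp
    · intro a b q hq
      have := hup a b q hq
      rw [Walk.length_copy, Walk.length_map]
      omega
  · rw [← φ.isAcyclic_iff]
    exact h5
  · have h7 : (g : ℕ∞) ≤ (G.overFin rfl).egirth := by rw [← φ.egirth_eq]; exact h6
    have h8 : ¬ (G.overFin rfl).IsAcyclic := by rw [← φ.isAcyclic_iff]; exact h5
    have h9 : (G.overFin rfl).egirth ≠ ⊤ := fun h => h8 (egirth_eq_top.1 h)
    unfold girth
    have := ENat.toNat_le_toNat h7 h9
    simpa using this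

end Run7.h651
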