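import Pool.Agent.Run7.h651.Posa

/-!
A graph with three parts, each with a Hamiltonian cycle and with expansion, which are joined to
each other, is Hamilton-connected.
-/

namespace Run7.h651

open SimpleGraph Classical

variable {V : Type*}

lemma HP.reverse {H : SimpleGraph V} {U : Finset V} {a s : V} {l : List V} (h : HP H U a s l) :
    HP H U s a l.reverse := by
  obtain ⟨h1, h2, h3, h4, h5⟩ := h
  refine ⟨List.nodup_reverse.2 h1, fun v => by rw [List.mem_reverse]; exact h2 v, ?_, ?_, ?_⟩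
  · rw [List.isChain_reverse]
    exact h3.imp (fun a b hab => hab.symm)
  · rw [List.head?_reverse]; exact h5
  · rw [List.getLast?_reverse]; exact h4

lemma HP.append {H : SimpleGraph V} {U W : Finset V} {a s t b : V} {l l' : List V}
    (h : HP H U a s l) (h' : HP H W t b l') (hd : Disjoint U W) (hst : H.Adj s t) :
    HP H (U ∪ W) a b (l ++ l') := by
  obtain ⟨h1, h2, h3, h4, h5⟩ := h
  obtain ⟨k1, k2, k3, k4, k5⟩ := h'
  refine ⟨?_, ?_, ?_, ?_, ?_⟩
  · rw [List.nodup_append]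
    refine ⟨h1, k1, ?_⟩
    intro x hx y hy hxy
    subst hxy
    exact Finset.disjoint_left.1 hd ((h2 x).1 hx) ((k2 x).1 hy)
  · intro v
    rw [List.mem_append, Finset.mem_union, h2, k2]
  · rw [List.isChain_append]
    refine ⟨h3, k3, ?_⟩
    intro x hx y hy
    rw [h5] at hx
    rw [k4] at hy
    simp only [Option.mem_some_iff] at hx hy
    subst hx hy
    exact hst
  · rw [List.head?_append, h4]; rfl
  · rw [List.getLast?_append, k5]; rfl

/-- three parts -/
structure Tri (H : SimpleGraph V) (m : ℕ) (U : Fin 3 → Finset V) (c : Fin 3 → List V) : Prop where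
  exp : ∀ i, ∀ S : Finset V, S ⊆ U i → S.Nonempty → S.card ≤ m →
    2 * S.card < ((U i).filter (fun x => x ∉ S ∧ ∃ s ∈ S, H.Adj x s)).card
  cross : ∀ i j, i ≠ j → ∀ v ∈ U i, ∃ w ∈ U j, H.Adj v w
  joined : ∀ i j, i ≠ j → ∀ S T : Finset V, S ⊆ U i → T ⊆ U j → m ≤ S.card → m ≤ T.card →
    ∃ s ∈ S, ∃ t ∈ T, H.Adj s t
  nodup : ∀ i, (c i).Nodup
  mem : ∀ i v, v ∈ c i ↔ v ∈ U i
  cl : ∀ i, Cl H.Adj (c i)
  big : ∀ i, 4 * m < (U i).card
  disj : ∀ i j, i ≠ j → Disjoint (U i) (U j)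
  pos : 1 ≤ m

variable {H : SimpleGraph V} {m : ℕ} {U : Fin 3 → Finset V} {c : Fin 3 → List V}

lemma hp_of_decomp {l : List V} {W : Finset V} (hnd : l.Nodup) (hm : ∀ v, v ∈ l ↔ v ∈ W)
    (hcl : Cl H.Adj l) {A B : List V} (he : l = A ++ B) {a s : V}
    (ha : (B ++ A).head? = some a) (hs : (B ++ A).getLast? = some s) :
    HP H W a s (B ++ A) := by
  subst he
  have hp : (B ++ A).Perm (A ++ B) := List.perm_append_comm
  exact ⟨hp.nodup_iff.2 hnd, fun v => hp.mem_iff.trans (hm v), hcl.rotate.1, ha, hs⟩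

lemma Tri.start (h : Tri H m U c) {i : Fin 3} {a : V} (ha : a ∈ U i) :
    ∃ s l, HP H (U i) a s l := by
  obtain ⟨A, B, he⟩ := List.append_of_mem ((h.mem i a).2 ha)
  have hne : (a :: B) ++ A ≠ [] := by simp
  refine ⟨((a :: B) ++ A).getLast hne, _, hp_of_decomp (h.nodup i) (h.mem i) (h.cl i) he ?_ ?_⟩
  · simp
  · exact List.getLast?_eq_getLast_of_ne_nil hne

lemma Tri.ends [Fintype V] (h : Tri H m U c) {i : Fin 3} {a : V} (ha : a ∈ U i) :
    ∃ S : Finset V, S ⊆ U i ∧ m < S.card ∧ ∀ s ∈ S, ∃ l, HP H (U i) a s l := by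
  obtain ⟨s, l, hl⟩ := h.start ha
  exact posa hl (h.exp i)

lemma Tri.few (h : Tri H m U c) {i k : Fin 3} (hik : i ≠ k) {S : Finset V} (hS : S ⊆ U i)
    (hm : m < S.card) : ((U k).filter (fun x => ¬ ∃ s ∈ S, H.Adj s x)).card < m := by
  by_contra hcon
  push Not at hcon
  obtain ⟨s, hs, t, ht, hst⟩ := h.joined i k hik S _ hS (Finset.filter_subset _ _) hm.le hcon
  exact (Finset.mem_filter.1 ht).2 s hs hst

lemma Tri.conn_diff [Fintype V] (h : Tri H m U c) {i j k : Fin 3} (hij : i ≠ j) (hik : i ≠ k)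
    (hjk : j ≠ k) {a b : V} (ha : a ∈ U i) (hb : b ∈ U j) :
    ∃ l, HP H (U i ∪ (U k ∪ U j)) a b l := by
  obtain ⟨S, hSU, hSm, hS⟩ := h.ends ha
  obtain ⟨T, hTU, hTm, hT⟩ := h.ends hb
  have f1 := h.few hik hSU hSm
  have f2 := h.few hjk hTU hTm
  set Q : Finset V := (U k).filter (fun x => ¬ ∃ s ∈ S, H.Adj s x) ∪
    (U k).filter (fun x => ¬ ∃ s ∈ T, H.Adj s x) with hQ
  have hQc : Q.card + 2 ≤ 2 * m := by
    have := Finset.card_union_le ((U k).filter (fun x => ¬ ∃ s ∈ S, H.Adj s x))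
      ((U k).filter (fun x => ¬ ∃ s ∈ T, H.Adj s x))
    rw [← hQ] at this
    omega
  have hlen : (c k).length = (U k).card := by
    rw [← List.toFinset_card_of_nodup (h.nodup k)]
    congr 1
    ext v
    rw [List.mem_toFinset, h.mem]
  obtain ⟨A, B, x, y, he, hx, hy⟩ := exists_good (fun v => v ∈ Q) (c k) (by
    have h1 : (c k).countP (fun v => @decide (v ∈ Q)
        (Classical.propDecidable _)) ≤ Q.card := countP_le (h.nodup k) Q
    have h2 := h.big k
    refine lt_of_le_of_lt (b := 2 * (c k).countP (fun v => @decide (v ∈ Q)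
        (Classical.propDecidable _)) + 1) le_rfl ?_
    rw [hlen]
    omega)
  have hxU : x ∈ U k := (h.mem k x).1 (by rw [he]; simp)
  have hyU : y ∈ U k := (h.mem k y).1 (by rw [he]; simp)
  have hyS : ∃ s ∈ S, H.Adj s y := by
    by_contra hcon
    exact hy (by rw [hQ]; exact Finset.mem_union_left _ (Finset.mem_filter.2 ⟨hyU, hcon⟩))
  have hxT : ∃ t ∈ T, H.Adj t x := by
    by_contra hcon
    exact hx (by rw [hQ]; exact Finset.mem_union_right _ (Finset.mem_filter.2 ⟨hxU, hcon⟩))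
  obtain ⟨s, hs, hsy⟩ := hyS
  obtain ⟨t, ht, htx⟩ := hxT
  obtain ⟨l1, hl1⟩ := hS s hs
  obtain ⟨l3, hl3⟩ := hT t ht
  have hl2 : HP H (U k) y x ((y :: B) ++ (A ++ [x])) :=
    hp_of_decomp (h.nodup k) (h.mem k) (h.cl k) (by rw [he]; simp) (by simp)
      (by rw [List.getLast?_append, List.getLast?_append]; simp)
  have hl23 := hl2.append hl3.reverse (h.disj k j hjk.symm) htx.symm
  refine ⟨_, hl1.append hl23 ?_ hsy⟩
  rw [Finset.disjoint_union_right]
  exact ⟨h.disj i k hik, h.disj i j hij⟩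

lemma Tri.conn_same [Fintype V] (h : Tri H m U c) {i j k : Fin 3} (hij : i ≠ j) (hik : i ≠ k)
    (hjk : j ≠ k) {a b : V} (ha : a ∈ U i) (hb : b ∈ U i) (hab : a ≠ b) :
    ∃ l, HP H (U i ∪ (U k ∪ U j)) a b l := by
  obtain ⟨A, B, he⟩ := List.append_of_mem ((h.mem i a).2 ha)
  have hperm : ((a :: B) ++ A).Perm (c i) := by
    rw [he]
    exact List.perm_append_comm
  have hcl : Cl H.Adj ((a :: B) ++ A) := by
    have := h.cl i
    rw [he] at this
    exact this.rotate
  have hbm : b ∈ a :: (B ++ A) := by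
    have : b ∈ (a :: B) ++ A := hperm.mem_iff.2 ((h.mem i b).2 hb)
    simpa using this
  have hbm' : b ∈ B ++ A := by
    rcases List.mem_cons.1 hbm with h1 | h1
    · exact absurd h1.symm hab
    · exact h1
  obtain ⟨X, Y, hXY⟩ := List.append_of_mem hbm'
  have hnd : (a :: X ++ b :: Y).Nodup := by
    have := hperm.nodup_iff.2 (h.nodup i)
    rw [List.cons_append, hXY] at this
    exact this
  have hmem : ∀ v, v ∈ a :: X ++ b :: Y ↔ v ∈ U i := by
    intro v
    have h1 := hperm.mem_iff (a := v)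
    rw [List.cons_append, hXY] at h1
    exact h1.trans (h.mem i v)
  have hch : (a :: X ++ b :: Y).IsChain H.Adj := by
    have := hcl.1
    rw [List.cons_append, hXY] at this
    exact this
  rw [List.isChain_append] at hch
  have hne1 : a :: X ≠ [] := by simp
  have hne2 : b :: Y ≠ [] := by simp
  have hX : HP H (a :: X).toFinset a ((a :: X).getLast hne1) (a :: X) :=
    ⟨(List.nodup_append.1 hnd).1, fun v => by simp, hch.1, by simp,
      List.getLast?_eq_getLast_of_ne_nil hne1⟩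
  have hY : HP H (b :: Y).toFinset b ((b :: Y).getLast hne2) (b :: Y) :=
    ⟨(List.nodup_append.1 hnd).2.1, fun v => by simp, hch.2.1, by simp,
      List.getLast?_eq_getLast_of_ne_nil hne2⟩
  have hXU : ∀ v ∈ a :: X, v ∈ U i := fun v hv => (hmem v).1 (List.mem_append_left _ hv)
  have hYU : ∀ v ∈ b :: Y, v ∈ U i := fun v hv => (hmem v).1 (List.mem_append_right _ hv)
  obtain ⟨x', hx'U, hx'⟩ := h.cross i k hik _ (hXU _ (List.getLast_mem hne1))
  obtain ⟨y', hy'U, hy'⟩ := h.cross i j hij _ (hYU _ (List.getLast_mem hne2))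
  obtain ⟨S, hSU, hSm, hS⟩ := h.ends hx'U
  obtain ⟨T, hTU, hTm, hT⟩ := h.ends hy'U
  obtain ⟨s, hs, t, ht, hst⟩ := h.joined k j hjk.symm S T hSU hTU hSm.le hTm.le
  obtain ⟨l1, hl1⟩ := hS s hs
  obtain ⟨l3, hl3⟩ := hT t ht
  have hdY : ∀ p, p ≠ i → Disjoint (U p) (b :: Y).toFinset := by
    intro p hp
    refine Disjoint.mono_right ?_ (h.disj p i hp)
    intro v hv
    exact hYU v (by simpa using hv)
  have hdX : ∀ p, p ≠ i → Disjoint (a :: X).toFinset (U p) := by
    intro p hp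
    refine Disjoint.mono_left ?_ (h.disj i p hp.symm)
    intro v hv
    exact hXU v (by simpa using hv)
  have hdXY : Disjoint (a :: X).toFinset (b :: Y).toFinset := by
    rw [Finset.disjoint_left]
    intro v hv hv'
    exact List.disjoint_of_nodup_append hnd (by simpa using hv) (by simpa using hv')
  have e1 := hl3.reverse.append hY.reverse (hdY j hij.symm) hy'.symm
  have e2 := hl1.append e1 (by
    rw [Finset.disjoint_union_right]
    exact ⟨h.disj k j hjk.symm, hdY k hik.symm⟩) hst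
  have e3 := hX.append e2 (by
    rw [Finset.disjoint_union_right, Finset.disjoint_union_right]
    exact ⟨hdX k hik.symm, hdX j hij.symm, hdXY⟩) hx'
  refine ⟨a :: X ++ (l1 ++ (l3.reverse ++ (b :: Y).reverse)), ?_⟩
  convert e3 using 1
  ext v
  have := hmem v
  simp only [Finset.mem_union, List.mem_toFinset]
  rw [← this, List.mem_append]
  tauto

/-- **Hamilton-connectedness.** -/
theorem Tri.conn [Fintype V] (h : Tri H m U c) {a b : V} (ha : ∃ i, a ∈ U i) (hb : ∃ i, b ∈ U i)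
    (hab : a ≠ b) : ∃ l, HP H (Finset.univ.biUnion U) a b l := by
  have hun : ∀ i j k : Fin 3, i ≠ j → i ≠ k → j ≠ k →
      Finset.univ.biUnion U = U i ∪ (U k ∪ U j) := by
    intro i j k hij hik hjk
    ext v
    simp only [Finset.mem_biUnion, Finset.mem_univ, true_and, Finset.mem_union]
    constructor
    · rintro ⟨p, hp⟩
      have : p = i ∨ p = k ∨ p = j := by omega
      rcases this with rfl | rfl | rfl
      · exact Or.inl hp
      · exact Or.inr (Or.inl hp)
      · exact Or.inr (Or.inr hp)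
    · rintro (hp | hp | hp)
      · exact ⟨_, hp⟩
      · exact ⟨_, hp⟩
      · exact ⟨_, hp⟩
  obtain ⟨i, hi⟩ := ha
  obtain ⟨j, hj⟩ := hb
  by_cases hij : i = j
  · subst hij
    obtain ⟨j, k, h1, h2, h3⟩ : ∃ j k : Fin 3, i ≠ j ∧ i ≠ k ∧ j ≠ k := by
      clear hi hj
      revert i
      decide
    rw [hun i j k h1 h2 h3]
    exact h.conn_same h1 h2 h3 hi hj hab
  · obtain ⟨k, h2, h3⟩ : ∃ k : Fin 3, i ≠ k ∧ j ≠ k := by
      clear hi hj
      revert i j
      decide
    rw [hun i j k hij h2 h3]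
    exact h.conn_diff hij h2 h3 hi hj

end Run7.h651
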