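import Mathlib

/-!
Graphs without short cycles: a criterion with distances after the deletion of one edge, and the
behaviour under the addition of an edge.
-/

namespace Run7.h651

open SimpleGraph

variable {V : Type*}

/-- All walks from `x` to `y` have length at least `L`. -/
def Far (G : SimpleGraph V) (L : ℕ) (x y : V) : Prop := ∀ p : G.Walk x y, L ≤ p.length

lemma Far.mono {G H : SimpleGraph V} (h : H ≤ G) {L : ℕ} {x y : V} (hf : Far G L x y) :
    Far H L x y := by
  intro p
  have := hf (p.mapLe h)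
  simpa using this

lemma Far.mono_L {G : SimpleGraph V} {L L' : ℕ} (h : L' ≤ L) {x y : V} (hf : Far G L x y) :
    Far G L' x y := fun p => h.trans (hf p)

lemma Far.symm {G : SimpleGraph V} {L : ℕ} {x y : V} (hf : Far G L x y) : Far G L y x := by
  intro p
  have := hf p.reverse
  simpa using this

lemma Far.not_adj {G : SimpleGraph V} {L : ℕ} {x y : V} (hf : Far G L x y) (hL : 2 ≤ L) :
    ¬ G.Adj x y := by
  intro h
  have := hf (Walk.cons h Walk.nil)
  simp at this
  omega

lemma Far.ne {G : SimpleGraph V} {L : ℕ} {x y : V} (hf : Far G L x y) (hL : 1 ≤ L) :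
    x ≠ y := by
  rintro rfl
  have := hf Walk.nil
  simp at this
  omega

/-- walks in `G ⊔ edge x y` -/
lemma walk_sup_edge {G : SimpleGraph V} {x y a b : V} (p : (G ⊔ edge x y).Walk a b) :
    (∃ q : G.Walk a b, q.length ≤ p.length) ∨
    (∃ (q : G.Walk a x) (r : G.Walk y b), q.length + 1 + r.length ≤ p.length) ∨
    (∃ (q : G.Walk a y) (r : G.Walk x b), q.length + 1 + r.length ≤ p.length) := by
  induction p with
  | nil => exact Or.inl ⟨Walk.nil, by simp⟩
  | @cons u v w h p ih =>
    simp only [sup_adj, edge_adj] at h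
    rcases h with h | ⟨h, hne⟩
    · rcases ih with ⟨q, hq⟩ | ⟨q, r, hq⟩ | ⟨q, r, hq⟩
      · exact Or.inl ⟨Walk.cons h q, by simp; omega⟩
      · exact Or.inr (Or.inl ⟨Walk.cons h q, r, by simp; omega⟩)
      · exact Or.inr (Or.inr ⟨Walk.cons h q, r, by simp; omega⟩)
    · rcases h with ⟨rfl, rfl⟩ | ⟨rfl, rfl⟩
      · rcases ih with ⟨q, hq⟩ | ⟨q, r, hq⟩ | ⟨q, r, hq⟩
        · exact Or.inr (Or.inl ⟨Walk.nil, q, by simp; omega⟩)
        · exact Or.inr (Or.inl ⟨Walk.nil, r, by simp; omega⟩)
        · exact Or.inl ⟨r, by simp; omega⟩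
      · rcases ih with ⟨q, hq⟩ | ⟨q, r, hq⟩ | ⟨q, r, hq⟩
        · exact Or.inr (Or.inr ⟨Walk.nil, q, by simp; omega⟩)
        · exact Or.inl ⟨r, by simp; omega⟩
        · exact Or.inr (Or.inr ⟨Walk.nil, r, by simp; omega⟩)

/-- No cycle shorter than `g`, in terms of the graph with one edge deleted. -/
def GG (G : SimpleGraph V) (g : ℕ) : Prop :=
  ∀ x y, G.Adj x y → ∀ p : (G.deleteEdges {s(x, y)}).Walk x y, g ≤ p.length + 1

lemma GG.mono {G H : SimpleGraph V} (h : H ≤ G) {g : ℕ} (hG : GG G g) : GG H g := by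
  intro x y hxy p
  have h1 : H.deleteEdges {s(x, y)} ≤ G.deleteEdges {s(x, y)} := by
    intro a b hab
    simp only [deleteEdges_adj, Set.mem_singleton_iff] at hab ⊢
    exact ⟨h hab.1, hab.2⟩
  have := hG x y (h hxy) (p.mapLe h1)
  simpa using this

lemma GG.add {G : SimpleGraph V} {g : ℕ} (hG : GG G g) {x y : V} (hf : Far G (g - 1) x y) :
    GG (G ⊔ edge x y) g := by
  intro u v huv p
  by_cases he : s(u, v) = s(x, y)
  · have hle : (G ⊔ edge x y).deleteEdges {s(u, v)} ≤ G := by
      intro a b hab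
      simp only [deleteEdges_adj, Set.mem_singleton_iff, sup_adj, edge_adj] at hab
      rcases hab with ⟨h | ⟨h, _⟩, h2⟩
      · exact h
      · exfalso
        apply h2
        rw [he]
        rcases h with ⟨rfl, rfl⟩ | ⟨rfl, rfl⟩
        · rfl
        · exact Sym2.eq_swap
    have h1 : Far G (g - 1) u v := by
      rw [Sym2.eq_iff] at he
      rcases he with ⟨rfl, rfl⟩ | ⟨rfl, rfl⟩
      · exact hf
      · exact hf.symm
    have := (h1.mono hle) p
    omega
  · have huv' : G.Adj u v := by
      simp only [sup_adj, edge_adj] at huv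
      rcases huv with h | ⟨h, _⟩
      · exact h
      · exfalso
        apply he
        rcases h with ⟨rfl, rfl⟩ | ⟨rfl, rfl⟩
        · rfl
        · exact Sym2.eq_swap
    have hle : (G ⊔ edge x y).deleteEdges {s(u, v)} ≤ (G.deleteEdges {s(u, v)}) ⊔ edge x y := by
      intro a b hab
      simp only [deleteEdges_adj, Set.mem_singleton_iff, sup_adj] at hab ⊢
      rcases hab with ⟨h | h, h2⟩
      · exact Or.inl ⟨h, h2⟩
      · exact Or.inr h
    have hd : G.deleteEdges {s(u, v)} ≤ G := deleteEdges_le _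
    have hlen : (p.mapLe hle).length = p.length := by simp
    rcases walk_sup_edge (p.mapLe hle) with ⟨q, hq⟩ | ⟨q, r, hq⟩ | ⟨q, r, hq⟩
    · have := hG u v huv' q
      omega
    · -- u ⇝ x, y ⇝ v
      have h1 : Far G (g - 1) x y := hf
      have := h1 ((q.mapLe hd).reverse.append (Walk.cons huv' (r.mapLe hd).reverse))
      simp at this
      omega
    · have h1 : Far G (g - 1) y x := hf.symm
      have := h1 ((q.mapLe hd).reverse.append (Walk.cons huv' (r.mapLe hd).reverse))
      simp at this
      omega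

lemma GG.le_cycle {G : SimpleGraph V} {g : ℕ} (hG : GG G g) {v : V} (c : G.Walk v v)
    (hc : c.IsCycle) : g ≤ c.length := by
  classical
  cases c with
  | nil => exact absurd hc (by simp)
  | cons h p =>
    rw [Walk.cons_isCycle_iff] at hc
    obtain ⟨hp, hne⟩ := hc
    have := hG _ _ h ((p.toDeleteEdge _ hne).reverse)
    simp at this
    simpa using this

lemma GG.le_egirth {G : SimpleGraph V} {g : ℕ} (hG : GG G g) : (g : ℕ∞) ≤ G.egirth := by
  rw [SimpleGraph.le_egirth]
  intro a w hw
  exact_mod_cast hG.le_cycle w hw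

/-- closed chain for a relation -/
def Cl (R : V → V → Prop) (l : List V) : Prop :=
  l.IsChain R ∧ ∀ x ∈ l.getLast?, ∀ y ∈ l.head?, R x y

lemma Cl.imp {R S : V → V → Prop} (h : ∀ a b, R a b → S a b) {l : List V} (hl : Cl R l) :
    Cl S l := ⟨hl.1.imp (fun a b => h a b), fun x hx y hy => h _ _ (hl.2 x hx y hy)⟩

lemma Cl.rotate {R : V → V → Prop} {A B : List V} (h : Cl R (A ++ B)) : Cl R (B ++ A) := by
  rcases eq_or_ne A [] with rfl | hA
  · simpa using h
  rcases eq_or_ne B [] with rfl | hB
  · simpa using h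
  obtain ⟨h1, h2⟩ := h
  rw [List.isChain_append] at h1
  refine ⟨?_, ?_⟩
  · rw [List.isChain_append]
    refine ⟨h1.2.1, h1.1, ?_⟩
    intro x hx y hy
    apply h2 x _ y _
    · rw [List.getLast?_append_of_ne_nil _ hB]; exact hx
    · rw [List.head?_append_of_ne_nil _ hA]; exact hy
  · intro x hx y hy
    rw [List.getLast?_append_of_ne_nil _ hA] at hx
    rw [List.head?_append_of_ne_nil _ hB] at hy
    exact h1.2.2 x hx y hy

lemma gg_of_no_closed {G : SimpleGraph V} {g : ℕ}
    (h : ∀ l : List V, l.Nodup → Cl G.Adj l → 3 ≤ l.length → g ≤ l.length) : GG G g := by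
  classical
  intro x y hxy p
  have hd : G.deleteEdges {s(x, y)} ≤ G := deleteEdges_le _
  obtain ⟨q, hq, hlen⟩ : ∃ q : (G.deleteEdges {s(x, y)}).Walk x y, q.IsPath ∧
      q.length ≤ p.length := ⟨p.bypass, p.bypass_isPath, p.length_bypass_le_length⟩
  have h2 : 2 ≤ q.length := by
    cases q with
    | nil => exact absurd hxy (by simp)
    | cons h1 q =>
      cases q with
      | nil => simp at h1
      | cons h2 q => simp
  have := h q.support hq.support_nodup ?_ ?_
  · rw [Walk.length_support] at this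
    omega
  · refine ⟨(q.isChain_adj_support).imp (fun a b hab => hd hab), ?_⟩
    intro a ha b hb
    have e1 : a = y := by
      rw [List.getLast?_eq_getLast_of_ne_nil q.support_ne_nil, Walk.getLast_support] at ha
      simpa using ha.symm
    have e2 : b = x := by
      rw [List.head?_eq_some_head q.support_ne_nil, Walk.head_support] at hb
      simpa using hb.symm
    rw [e1, e2]
    exact hxy.symm
  · rw [Walk.length_support]
    omega

end Run7.h651
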