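import Pool.Agent.Run7.h651.Upper

/-!
The graph has no short cycles.
-/

namespace Run7.h651

open SimpleGraph Plan

lemma walk_split {V : Type*} {G : SimpleGraph V} {a b x y : V} (w : G.Walk a b)
    (he : s(x, y) ∈ w.edges) : ∃ (u v : V) (h : G.Adj u v) (w1 : G.Walk a u) (w2 : G.Walk v b),
      s(u, v) = s(x, y) ∧ w = w1.append (Walk.cons h w2) := by
  induction w with
  | nil => simp at he
  | @cons a' c b' h p ih =>
    rw [Walk.edges_cons, List.mem_cons] at he
    rcases he with he | he
    · exact ⟨a', c, h, Walk.nil, p, he.symm, rfl⟩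
    · obtain ⟨u, v, h', w1, w2, e1, e2⟩ := ih he
      exact ⟨u, v, h', Walk.cons h w1, w2, e1, by rw [e2]; rfl⟩

lemma cycle_through {V : Type*} {G : SimpleGraph V} {a x y : V} (c : G.Walk a a)
    (hc : c.IsCycle) (he : s(x, y) ∈ c.edges) :
    ∃ p : (G.deleteEdges {s(x, y)}).Walk x y, p.length + 1 = c.length := by
  classical
  obtain ⟨u, v, h, w1, w2, e1, e2⟩ := walk_split c he
  have hnd := hc.edges_nodup
  rw [e2, Walk.edges_append, Walk.edges_cons, e1] at hnd
  have h1 : s(x, y) ∉ w1.edges := by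
    intro hh
    exact List.disjoint_of_nodup_append hnd hh (by simp)
  have h2 : s(x, y) ∉ w2.edges := by
    have := (List.nodup_append.1 hnd).2.1
    exact (List.nodup_cons.1 this).1
  have h3 : s(x, y) ∉ (w2.append w1).edges := by
    rw [Walk.edges_append, List.mem_append]
    tauto
  set p := (w2.append w1).toDeleteEdge _ h3 with hp
  have hlen : p.length + 1 = c.length := by
    rw [e2, hp]
    simp
    omega
  rw [Sym2.eq_iff] at e1
  rcases e1 with ⟨rfl, rfl⟩ | ⟨rfl, rfl⟩
  · exact ⟨p.reverse, by simpa using hlen⟩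
  · exact ⟨p, hlen⟩

variable {A : Type} {GA : SimpleGraph A} {q : Fin 3 → A}

/-- a walk that leaves a copy passes another port -/
lemma escape {b : Fin 24} {i : Fin 3} {e : Sym2 (VV A)}
    (he : e = s(loc q ⟨b.val, by omega⟩ i, loc q (ext ⟨b.val, by omega⟩ i).1
      (ext ⟨b.val, by omega⟩ i).2)) {x y : VV A}
    (p : ((BG GA q).deleteEdges {e}).Walk x y) :
    ∀ a : A, x = .inl (b, a) → mac y ≠ ⟨b.val, by omega⟩ →
      ∃ j, j ≠ i ∧ ∃ r : GA.Walk a (q j), r.length < p.length := by
  induction p with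
  | nil =>
    rintro a rfl hy
    exact absurd rfl hy
  | @cons x z y h p ih =>
    rintro a rfl hy
    rw [deleteEdges_adj] at h
    by_cases hm : mac (.inl (b, a) : VV A) = mac z
    · have hin := BG.inn h.1 hm
      cases hin with
      | mk b a a' haa =>
        obtain ⟨j, hj, r, hr⟩ := ih a' rfl hy
        exact ⟨j, hj, Walk.cons haa r, by simpa using hr⟩
    · obtain ⟨j, e1, e2⟩ := BG.cross h.1 hm
      have hmac : mac (.inl (b, a) : VV A) = ⟨b.val, by omega⟩ := rfl
      rw [hmac] at e1 e2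
      have ha : a = q j := by
        unfold loc at e1
        rw [dif_pos (show (⟨b.val, by omega⟩ : Fin 36).val < 24 from b.isLt)] at e1
        simp only [Sum.inl.injEq, Prod.mk.injEq] at e1
        exact e1.2
      refine ⟨j, ?_, ?_⟩
      · rintro rfl
        apply h.2
        rw [Set.mem_singleton_iff, he, e1, e2]
      · subst ha
        exact ⟨Walk.nil, by simp⟩

lemma port_two : ∀ w : Fin 36, 24 ≤ w.val → ∀ p, 24 ≤ (ext w p).1.val → p = 2 := by
  decide +kernel

/-- the graph without the edges at the ports of the copies -/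
def G0 (GA : SimpleGraph A) (q : Fin 3 → A) : SimpleGraph (VV A) where
  Adj x y := Inn GA x y ∨ ((∃ s, x = .inr s) ∧ (∃ s, y = .inr s) ∧ (BG GA q).Adj x y)
  symm := ⟨by
    rintro x y (h | ⟨h1, h2, h3⟩)
    · exact Or.inl h.symm
    · exact Or.inr ⟨h2, h1, h3.symm⟩⟩
  loopless := ⟨by
    rintro x (h | ⟨_, _, h3⟩)
    · cases h with
      | mk b a a' h => exact h.ne rfl
    · exact h3.ne rfl⟩

lemma G0.uniq {s : Fin 12} {y : VV A} (h : (G0 GA q).Adj (.inr s) y) :
    y = loc q (ext ⟨24 + s.val, by omega⟩ 2).1 (ext ⟨24 + s.val, by omega⟩ 2).2 := by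
  rcases h with h | ⟨_, ⟨s', rfl⟩, h3⟩
  · cases h
  · have hne : mac (.inr s : VV A) ≠ mac (.inr s' : VV A) := by
      intro hh
      have hin := BG.inn h3 hh
      cases hin
    obtain ⟨p, e1, e2⟩ := BG.cross h3 hne
    have hmac : mac (.inr s : VV A) = ⟨24 + s.val, by omega⟩ := rfl
    rw [hmac] at e2
    have h4 : mac (.inr s' : VV A) = (ext ⟨24 + s.val, by omega⟩ p).1 := by
      rw [e2, mac_loc]
    have h5 : 24 ≤ (mac (.inr s' : VV A)).val := by
      show 24 ≤ 24 + s'.val
      omega
    rw [h4] at h5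
    have h6 := port_two ⟨24 + s.val, by omega⟩ (by simp) p h5
    rw [h6] at e2
    exact e2

lemma G0_inner {b : Fin 24} {a a' : A} {x y : VV A}
    (p : ((G0 GA q).deleteEdges {s((.inl (b, a) : VV A), .inl (b, a'))}).Walk x y) :
    ∀ c d : A, x = .inl (b, c) → y = .inl (b, d) →
      ∃ r : (GA.deleteEdges {s(a, a')}).Walk c d, r.length = p.length := by
  induction p with
  | nil =>
    rintro c d rfl h
    simp only [Sum.inl.injEq, Prod.mk.injEq, true_and] at h
    subst h
    exact ⟨Walk.nil, rfl⟩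
  | @cons x z y h p ih =>
    rintro c d rfl rfl
    rw [deleteEdges_adj] at h
    rcases h with ⟨h | ⟨⟨s, hs⟩, _⟩, h2⟩
    · cases h with
      | mk b c c' hcc =>
        obtain ⟨r, hr⟩ := ih c' d rfl rfl
        suffices hadj : (GA.deleteEdges {s(a, a')}).Adj c c' from
          ⟨Walk.cons hadj r, by rw [Walk.length_cons, Walk.length_cons, hr]⟩
        rw [deleteEdges_adj]
        refine ⟨hcc, ?_⟩
        intro hh
        apply h2
        rw [Set.mem_singleton_iff, Sym2.eq_iff] at hh ⊢
        rcases hh with ⟨rfl, rfl⟩ | ⟨rfl, rfl⟩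
        · exact Or.inl ⟨rfl, rfl⟩
        · exact Or.inr ⟨rfl, rfl⟩
    · exact absurd hs (by simp)

lemma G0.gg {g : ℕ} (hb : IsBlob GA g q) : GG (G0 GA q) g := by
  intro x y hxy p
  rcases x with ⟨b, a⟩ | s
  · rcases hxy with h | ⟨⟨s, hs⟩, _⟩
    · cases h with
      | mk b a a' haa =>
        obtain ⟨r, hr⟩ := G0_inner p a a' rfl rfl
        rw [← hr]
        exact hb.gg a a' haa r
    · exact absurd hs (by simp)
  · exfalso
    cases p with
    | nil => exact hxy.ne rfl
    | cons h p =>
      rw [deleteEdges_adj] at h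
      apply h.2
      rw [Set.mem_singleton_iff, G0.uniq h.1, ← G0.uniq hxy]

theorem BG_cycle {g : ℕ} (hb : IsBlob GA g q) {v : VV A} (c : (BG GA q).Walk v v)
    (hc : c.IsCycle) : g ≤ c.length := by
  by_cases hA : ∃ (b : Fin 24) (a : A) (y : VV A), s((.inl (b, a) : VV A), y) ∈ c.edges ∧
      mac (.inl (b, a) : VV A) ≠ mac y
  · obtain ⟨b, a, y, h1, h2⟩ := hA
    have hadj : (BG GA q).Adj (.inl (b, a)) y := c.adj_of_mem_edges h1
    obtain ⟨p, hp⟩ := cycle_through c hc h1
    obtain ⟨i, e1, e2⟩ := BG.cross hadj h2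
    have hmac : mac (.inl (b, a) : VV A) = ⟨b.val, by omega⟩ := rfl
    rw [hmac] at e1 e2
    have ha : a = q i := by
      unfold loc at e1
      rw [dif_pos (show (⟨b.val, by omega⟩ : Fin 36).val < 24 from b.isLt)] at e1
      simp only [Sum.inl.injEq, Prod.mk.injEq] at e1
      exact e1.2
    obtain ⟨j, hj, r, hr⟩ := escape (b := b) (i := i) (by rw [← e1, ← e2]) p a rfl
      (by rw [← hmac]; exact fun h => h2 h.symm)
    subst ha
    have := hb.far i j hj.symm r
    omega
  · push Not at hA
    have htr : ∀ e ∈ c.edges, e ∈ (G0 GA q).edgeSet := by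
      intro e he
      induction e using Sym2.ind with
      | _ x y =>
        have hadj : (BG GA q).Adj x y := c.adj_of_mem_edges he
        rw [mem_edgeSet]
        by_cases hm : mac x = mac y
        · exact Or.inl (BG.inn hadj hm)
        · right
          rcases x with ⟨b, a⟩ | s
          · exact absurd (hA b a y he) hm
          · rcases y with ⟨b, a⟩ | s'
            · rw [Sym2.eq_swap] at he
              exact absurd (hA b a _ he).symm hm
            · exact ⟨⟨s, rfl⟩, ⟨s', rfl⟩, hadj⟩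
    have := (G0.gg hb).le_cycle (c.transfer _ htr) (hc.transfer htr)
    simpa using this

end Run7.h651
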