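import Pool.Agent.Run7.h651.Plan

/-!
A piece has no Hamiltonian path between two of its exits.
-/

namespace Run7.h651.Plan

/-- the neighbours in the same piece -/
def adjp (w : Fin 36) : List (Fin 36) :=
  [(ext w 0).1, (ext w 1).1, (ext w 2).1].filter (fun u => pc u = pc w)

/-- one more point in front -/
def step (ps : List (List (Fin 36))) : List (List (Fin 36)) :=
  ps.flatMap fun p => match p with
    | [] => []
    | v :: t => ((adjp v).filter (fun u => u ∉ v :: t)).map (fun u => u :: v :: t)

/-- all paths with last point `s` and `n + 1` points in the piece of `s` -/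
def paths (s : Fin 36) : ℕ → List (List (Fin 36))
  | 0 => [[s]]
  | n + 1 => step (paths s n)

lemma mem_paths (s : Fin 36) : ∀ (n : ℕ) (l : List (Fin 36)), l.length = n + 1 → l.Nodup →
    l.IsChain (fun u v => u ∈ adjp v) → l.getLast? = some s → l ∈ paths s n := by
  intro n
  induction n with
  | zero =>
    intro l h1 _ _ h4
    obtain ⟨a, rfl⟩ := List.length_eq_one_iff.1 h1
    simp only [List.getLast?_singleton, Option.some.injEq] at h4
    subst h4
    simp [paths]
  | succ n ih =>
    intro l h1 h2 h3 h4
    match l, h1, h2, h3, h4 with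
    | u :: v :: t, h1, h2, h3, h4 =>
      rw [List.isChain_cons_cons] at h3
      rw [List.getLast?_cons_cons] at h4
      have hm := ih (v :: t) (by simpa using h1) (List.nodup_cons.1 h2).2 h3.2 h4
      unfold paths step
      rw [List.mem_flatMap]
      refine ⟨v :: t, hm, ?_⟩
      simp only [List.mem_map, List.mem_filter]
      exact ⟨u, ⟨h3.1, by simpa using (List.nodup_cons.1 h2).1⟩, rfl⟩
    | [a], h1, _, _, _ => simp at h1
    | [], h1, _, _, _ => simp at h1

lemma noham_aux : ∀ s : Fin 36, 24 ≤ s.val → ∀ l ∈ paths s 8, ∀ u ∈ l.head?, u.val < 24 := by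
  decide +kernel

theorem noham {l : List (Fin 36)} (h1 : l.length = 9) (h2 : l.Nodup)
    (h3 : l.IsChain (fun u v => u ∈ adjp v)) {s u : Fin 36} (h4 : l.getLast? = some s)
    (h5 : l.head? = some u) (hs : 24 ≤ s.val) (hu : 24 ≤ u.val) : False := by
  have := noham_aux s hs l (mem_paths s 8 l h1 h2 h3 h4) u h5
  omega

end Run7.h651.Plan
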