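import Pool.Agent.Run7.h651.Blob
import Pool.Agent.Run7.h651.NoHam

/-!
The graph obtained from the scheme with 36 points: the points of the six-cycles are replaced by
copies of a Hamilton-connected graph.
-/

namespace Run7.h651

open SimpleGraph Plan

variable {A : Type}

/-- the vertices: 24 copies of `A` and 12 single vertices -/
abbrev VV (A : Type) := (Fin 24 × A) ⊕ Fin 12

/-- the point of the scheme of a vertex -/
def mac : VV A → Fin 36
  | .inl x => ⟨x.1.val, by omega⟩
  | .inr s => ⟨24 + s.val, by omega⟩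

/-- the vertex at the port `p` of the point `w` -/
def loc (q : Fin 3 → A) (w : Fin 36) (p : Fin 3) : VV A :=
  if h : w.val < 24 then .inl (⟨w.val, h⟩, q p) else .inr ⟨w.val - 24, by omega⟩

@[simp] lemma mac_loc (q : Fin 3 → A) (w : Fin 36) (p : Fin 3) : mac (loc q w p) = w := by
  unfold loc
  split_ifs with h
  · simp [mac]
  · apply Fin.ext
    simp only [mac]
    omega

/-- adjacency inside a copy -/
inductive Inn (GA : SimpleGraph A) : VV A → VV A → Prop
  | mk (b : Fin 24) (a a' : A) : GA.Adj a a' → Inn GA (.inl (b, a)) (.inl (b, a'))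

lemma Inn.mac_eq {GA : SimpleGraph A} {x y : VV A} (h : Inn GA x y) : mac x = mac y := by
  cases h; rfl

lemma Inn.symm {GA : SimpleGraph A} {x y : VV A} (h : Inn GA x y) : Inn GA y x := by
  cases h with
  | mk b a a' h => exact Inn.mk b a' a h.symm

/-- the graph -/
def BG (GA : SimpleGraph A) (q : Fin 3 → A) : SimpleGraph (VV A) where
  Adj x y := Inn GA x y ∨ ∃ w p, x = loc q w p ∧ y = loc q (ext w p).1 (ext w p).2
  symm := ⟨by
    rintro x y (h | ⟨w, p, rfl, rfl⟩)
    · exact Or.inl h.symm
    · refine Or.inr ⟨(ext w p).1, (ext w p).2, rfl, ?_⟩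
      rw [ext_ext]⟩
  loopless := ⟨by
    rintro x (h | ⟨w, p, h1, h2⟩)
    · cases h with
      | mk b a a' h => exact h.ne rfl
    · have := congrArg mac (h1.symm.trans h2)
      rw [mac_loc, mac_loc] at this
      exact ext_ne w p this.symm⟩

variable {GA : SimpleGraph A} {q : Fin 3 → A}

lemma BG.inn {x y : VV A} (h : (BG GA q).Adj x y) (hm : mac x = mac y) : Inn GA x y := by
  rcases h with h | ⟨w, p, rfl, rfl⟩
  · exact h
  · rw [mac_loc, mac_loc] at hm
    exact absurd hm.symm (ext_ne w p)

lemma BG.cross {x y : VV A} (h : (BG GA q).Adj x y) (hm : mac x ≠ mac y) :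
    ∃ p, x = loc q (mac x) p ∧ y = loc q (ext (mac x) p).1 (ext (mac x) p).2 := by
  rcases h with h | ⟨w, p, rfl, rfl⟩
  · exact absurd h.mac_eq hm
  · refine ⟨p, ?_, ?_⟩ <;> rw [mac_loc]

/-- Hamiltonian path of the part at one point -/
def Seg (GA : SimpleGraph A) (q : Fin 3 → A) (w : Fin 36) (x y : VV A) : Prop :=
  ∃ l : List (VV A), l.Nodup ∧ (∀ v, v ∈ l ↔ mac v = w) ∧ l.IsChain (BG GA q).Adj ∧
    l.head? = some x ∧ l.getLast? = some y

lemma seg_blob {g : ℕ} (hb : IsBlob GA g q) (b : Fin 24) {a a' : A} (h : a ≠ a') :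
    Seg GA q ⟨b.val, by omega⟩ (.inl (b, a)) (.inl (b, a')) := by
  obtain ⟨l, h1, h2, h3, h4, h5⟩ := hb.hc a a' h
  refine ⟨l.map (fun x => .inl (b, x)), ?_, ?_, ?_, ?_, ?_⟩
  · refine List.Nodup.map ?_ h1
    intro x y hxy
    simpa using hxy
  · intro v
    rw [List.mem_map]
    constructor
    · rintro ⟨x, _, rfl⟩
      rfl
    · intro hv
      rcases v with ⟨b', x⟩ | s
      · refine ⟨x, h2 x, ?_⟩
        simp only [mac, Fin.mk.injEq] at hv
        have : b' = b := Fin.ext hv
        rw [this]
      · simp only [mac, Fin.mk.injEq] at hv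
        omega
  · rw [List.isChain_map]
    exact h3.imp (fun x y hxy => Or.inl (Inn.mk b x y hxy))
  · rw [List.head?_map, h4]; rfl
  · rw [List.getLast?_map, h5]; rfl

lemma seg_single (s : Fin 12) : Seg GA q ⟨24 + s.val, by omega⟩ (.inr s) (.inr s) := by
  refine ⟨[.inr s], by simp, ?_, by simp, rfl, rfl⟩
  intro v
  rcases v with ⟨b', x⟩ | s'
  · simp only [List.mem_singleton, reduceCtorEq, mac, Fin.mk.injEq, false_iff]
    omega
  · simp only [List.mem_singleton, Sum.inr.injEq, mac, Fin.mk.injEq]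
    constructor
    · rintro rfl; rfl
    · intro h; apply Fin.ext; omega

lemma seg_loc {g : ℕ} (hb : IsBlob GA g q) (hg : 1 ≤ g) {w : Fin 36} {p p' : Fin 3}
    (h : w.val < 24 → p ≠ p') : Seg GA q w (loc q w p) (loc q w p') := by
  by_cases hw : w.val < 24
  · have h1 := seg_blob hb ⟨w.val, hw⟩ ((hb.far p p' (h hw)).ne hg)
    unfold loc
    rw [dif_pos hw, dif_pos hw]
    exact h1
  · have h1 := seg_single (GA := GA) (q := q) ⟨w.val - 24, by omega⟩
    unfold loc
    rw [dif_neg hw, dif_neg hw]
    have : (⟨24 + (w.val - 24), by omega⟩ : Fin 36) = w := by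
      apply Fin.ext
      simp only
      omega
    simp only [this] at h1
    exact h1

lemma lift {g : ℕ} (hb : IsBlob GA g q) (hg : 1 ≤ g) : ∀ (l : List En) (s0 : En) (x0 : VV A),
    ((s0 :: l).map (fun s => s.1)).Nodup →
    (s0 :: l).IsChain (fun s t => ext s.1 s.2.2 = (t.1, t.2.1)) →
    (∀ s ∈ l, s.1.val < 24 → s.2.1 ≠ s.2.2) → Seg GA q s0.1 x0 (loc q s0.1 s0.2.2) →
    ∃ m : List (VV A), m.Nodup ∧ (∀ v, v ∈ m ↔ mac v ∈ (s0 :: l).map (fun s => s.1)) ∧
      m.IsChain (BG GA q).Adj ∧ m.head? = some x0 := by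
  intro l
  induction l with
  | nil =>
    intro s0 x0 _ _ _ h4
    obtain ⟨m, h1, h2, h3, h5, _⟩ := h4
    exact ⟨m, h1, fun v => by rw [h2]; simp, h3, h5⟩
  | cons s1 l ih =>
    intro s0 x0 h1 h2 h3 h4
    rw [List.isChain_cons_cons] at h2
    rw [List.map_cons, List.nodup_cons] at h1
    obtain ⟨m, k1, k2, k3, k4⟩ := ih s1 (loc q s1.1 s1.2.1) h1.2 h2.2
      (fun s hs => h3 s (List.mem_cons_of_mem _ hs))
      (seg_loc hb hg (h3 s1 (by simp)))
    obtain ⟨m0, j1, j2, j3, j4, j5⟩ := h4
    refine ⟨m0 ++ m, ?_, ?_, ?_, ?_⟩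
    · rw [List.nodup_append]
      refine ⟨j1, k1, ?_⟩
      intro x hx y hy hxy
      subst hxy
      rw [j2] at hx
      rw [k2, hx] at hy
      exact h1.1 hy
    · intro v
      rw [List.mem_append, j2, k2, List.map_cons (l := s1 :: l), List.mem_cons]
    · rw [List.isChain_append]
      refine ⟨j3, k3, ?_⟩
      intro x hx y hy
      rw [j5] at hx
      rw [k4] at hy
      simp only [Option.mem_some_iff] at hx hy
      subst hx hy
      refine Or.inr ⟨s0.1, s0.2.2, rfl, ?_⟩
      rw [h2.1]
    · rw [List.head?_append, j4]; rfl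

/-- from every vertex a path through all vertices but two -/
lemma exists_long [Fintype A] {g : ℕ} (hb : IsBlob GA g q) (hg : 1 ≤ g) (v : VV A) :
    ∃ m : List (VV A), m.Nodup ∧ m.IsChain (BG GA q).Adj ∧ m.head? = some v ∧
      Fintype.card (VV A) ≤ m.length + 2 := by
  classical
  -- counting
  have key : ∀ (pl : List En) (m : List (VV A)), Good pl → m.Nodup →
      (∀ v, v ∈ m ↔ mac v ∈ pl.map (fun s => s.1)) → Fintype.card (VV A) ≤ m.length + 2 := by
    intro pl m hpl hm hmem
    obtain ⟨g1, _, _, g4, g5⟩ := hpl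
    set R : Finset (Fin 36) := Finset.univ \ (pl.map (fun s => s.1)).toFinset with hR
    have hRc : R.card = 2 := by
      rw [hR, Finset.card_sdiff_of_subset (Finset.subset_univ _),
        List.toFinset_card_of_nodup g1, List.length_map, g5]
      simp
    have h1 : (Finset.univ \ m.toFinset).card ≤ R.card := by
      apply Finset.card_le_card_of_injOn mac
      · intro v hv
        simp only [Finset.coe_sdiff, Finset.coe_univ, Set.mem_diff, Set.mem_univ, true_and,
          List.coe_toFinset, Set.mem_setOf_eq, hmem] at hv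
        simp only [hR, Finset.coe_sdiff, Finset.coe_univ, Set.mem_diff, Set.mem_univ, true_and,
          List.coe_toFinset, Set.mem_setOf_eq]
        exact hv
      · intro x hx y hy hxy
        simp only [Finset.coe_sdiff, Finset.coe_univ, Set.mem_diff, Set.mem_univ, true_and,
          List.coe_toFinset, Set.mem_setOf_eq, hmem] at hx hy
        rcases x with ⟨b, x⟩ | s
        · exact absurd (g4 ⟨b.val, by omega⟩ b.isLt) hx
        · rcases y with ⟨b', y⟩ | s'
          · exact absurd (g4 ⟨b'.val, by omega⟩ b'.isLt) hy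
          · simp only [mac, Fin.mk.injEq] at hxy
            congr 1
            apply Fin.ext
            omega
    have h2 : (Finset.univ \ m.toFinset).card = Fintype.card (VV A) - m.length := by
      rw [Finset.card_sdiff_of_subset (Finset.subset_univ _), List.toFinset_card_of_nodup hm,
        Finset.card_univ]
    omega
  have fin : ∀ (pl : List En) (s0 : En), Good pl → pl.head? = some s0 →
      Seg GA q s0.1 v (loc q s0.1 s0.2.2) → ∃ m : List (VV A), m.Nodup ∧
      m.IsChain (BG GA q).Adj ∧ m.head? = some v ∧ Fintype.card (VV A) ≤ m.length + 2 := by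
    intro pl s0 hpl hh hs
    cases pl with
    | nil => simp at hh
    | cons s1 l =>
      simp only [List.head?_cons, Option.some.injEq] at hh
      subst hh
      obtain ⟨m, h1, h2, h3, h4⟩ := lift hb hg l s1 v hpl.1 hpl.2.1
        (fun s hs => hpl.2.2.1 s (List.mem_cons_of_mem _ hs)) hs
      exact ⟨m, h1, h3, h4, key _ m hpl h1 h2⟩
  rcases v with ⟨b, x⟩ | s
  · by_cases hx : x = q 0
    · -- leave by the port 1
      obtain ⟨g1, g2⟩ := planC_good ⟨b.val, by omega⟩ b.isLt true
      refine fin _ _ g1 g2 ?_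
      have h01 : x ≠ q 1 := by
        rw [hx]
        exact (hb.far 0 1 (by decide)).ne hg
      have := seg_blob hb b h01
      simp only [if_true]
      unfold loc
      rw [dif_pos (show (⟨b.val, by omega⟩ : Fin 36).val < 24 from b.isLt)]
      exact this
    · obtain ⟨g1, g2⟩ := planC_good ⟨b.val, by omega⟩ b.isLt false
      refine fin _ _ g1 g2 ?_
      have := seg_blob hb b hx
      simp only [Bool.false_eq_true, if_false]
      unfold loc
      rw [dif_pos (show (⟨b.val, by omega⟩ : Fin 36).val < 24 from b.isLt)]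
      exact this
  · obtain ⟨g1, g2⟩ := planE_good ⟨24 + s.val, by omega⟩ (by simp)
    refine fin _ _ g1 g2 ?_
    have := seg_single (GA := GA) (q := q) s
    unfold loc
    rw [dif_neg (show ¬ (⟨24 + s.val, by omega⟩ : Fin 36).val < 24 by simp)]
    have h2 : (⟨(⟨24 + s.val, by omega⟩ : Fin 36).val - 24, by omega⟩ : Fin 12) = s := by
      apply Fin.ext
      simp
    rw [h2]
    exact this

end Run7.h651
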