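import Mathlib

/-!
The cubic scheme with 36 points: four pieces, each of them the Petersen graph without one vertex.
Points `6 k + r` (`r < 6`) are the points of the six-cycle of the piece `k`, points `24 + 3 k + i`
(`i < 3`) its three exits.
-/

namespace Run7.h651.Plan

/-- the point with number `x` -/
def P (x : ℕ) : Fin 36 := ⟨x % 36, Nat.mod_lt _ (by norm_num)⟩

/-- the port with number `x` -/
def Q (x : ℕ) : Fin 3 := ⟨x % 3, Nat.mod_lt _ (by norm_num)⟩

/-- the other end of the edge at the port `p` of the point `w` -/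
def ext (w : Fin 36) (p : Fin 3) : Fin 36 × Fin 3 :=
  if w.val < 24 then
    let k := w.val / 6
    let r := w.val % 6
    if p.val = 0 then (P (6 * k + (r + 1) % 6), 1)
    else if p.val = 1 then (P (6 * k + (r + 5) % 6), 0)
    else (P (24 + 3 * k + r % 3), Q (r / 3))
  else
    let k := (w.val - 24) / 3
    let i := (w.val - 24) % 3
    if p.val = 0 then (P (6 * k + i), 2)
    else if p.val = 1 then (P (6 * k + i + 3), 2)
    else (P (24 + 3 * (k ^^^ (i + 1)) + i), 2)

/-- the piece of a point -/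
def pc (w : Fin 36) : ℕ := if w.val < 24 then w.val / 6 else (w.val - 24) / 3

lemma ext_ext : ∀ w p, ext (ext w p).1 (ext w p).2 = (w, p) := by decide +kernel

lemma ext_ne : ∀ w p, (ext w p).1 ≠ w := by decide +kernel

/-- exits are joined to the other pieces by the last port only -/
lemma pc_ext : ∀ w p, pc (ext w p).1 ≠ pc w → 24 ≤ w.val ∧ p = 2 ∧ 24 ≤ (ext w p).1.val := by
  decide +kernel

lemma ext_inj : ∀ w p p', (ext w p).1 = (ext w p').1 → p = p' := by decide +kernel

/-- entries of a plan: point, port of entry, port of exit -/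
abbrev En := Fin 36 × Fin 3 × Fin 3

/-- the point of the cycle of the piece `k` -/
def cc (k r a b : ℕ) : En := (P (6 * k + r % 6), Q a, Q b)

/-- the port of the exit at the point `r` of the cycle -/
def hp (r : ℕ) : ℕ := (r % 6) / 3

/-- the exit of the piece `k` -/
def ee (k i a b : ℕ) : En := (P (24 + 3 * k + i % 3), Q a, Q b)

/-- the whole piece, from `r` to the exit `r`, clockwise -/
def fullR (k r : ℕ) : List En :=
  [cc k r 1 0, cc k (r + 1) 1 2, ee k (r + 1) (hp (r + 1)) (hp (r + 4)), cc k (r + 4) 2 0,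
   cc k (r + 5) 1 2, ee k (r + 2) (hp (r + 5)) (hp (r + 2)), cc k (r + 2) 2 0, cc k (r + 3) 1 2,
   ee k r (hp (r + 3)) 2]

/-- the whole piece, from `r` to the exit `r`, anticlockwise -/
def fullL (k r : ℕ) : List En :=
  [cc k r 0 1, cc k (r + 5) 0 2, ee k (r + 2) (hp (r + 5)) (hp (r + 2)), cc k (r + 2) 2 1,
   cc k (r + 1) 0 2, ee k (r + 1) (hp (r + 1)) (hp (r + 4)), cc k (r + 4) 2 1, cc k (r + 3) 0 2,
   ee k r (hp (r + 3)) 2]

/-- backwards -/
def rev (l : List En) : List En := (l.map (fun s => (s.1, s.2.2, s.2.1))).reverse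

/-- through the piece `k`, from the exit `a` to the exit `b` -/
def pass (k a b : ℕ) : List En :=
  if b % 3 = (a + 1) % 3 then
    [ee k a 2 (hp a), cc k a 2 1, cc k (a + 5) 0 1, cc k (a + 4) 0 1, cc k (a + 3) 0 1,
     cc k (a + 2) 0 1, cc k (a + 1) 0 2, ee k b (hp (a + 1)) 2]
  else
    [ee k a 2 (hp a), cc k a 2 0, cc k (a + 1) 1 0, cc k (a + 2) 1 0, cc k (a + 3) 1 0,
     cc k (a + 4) 1 0, cc k (a + 5) 1 2, ee k b (hp (a + 5)) 2]

/-- after the exit `i` of the piece `k`: two pieces and the whole last piece -/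
def tail (k i : ℕ) : List En :=
  pass (k ^^^ (i + 1)) i ((i + 1) % 3) ++
  pass (k ^^^ (i + 1) ^^^ ((i + 1) % 3 + 1)) ((i + 1) % 3) i ++
  rev (fullR (k ^^^ ((i + 1) % 3 + 1)) i)

/-- plan of a path from the point `w`, leaving it by the port `0` or `1` -/
def planC (w : Fin 36) (d : Bool) : List En :=
  (if d then fullL (w.val / 6) (w.val % 6) else fullR (w.val / 6) (w.val % 6)) ++
    tail (w.val / 6) (w.val % 6 % 3)

/-- plan of a path from an exit -/
def planE (w : Fin 36) : List En :=
  let k := (w.val - 24) / 3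
  let i := (w.val - 24) % 3
  let b := (i + 1) % 3
  let c := (i + 2) % 3
  ee k i 0 2 :: (pass (k ^^^ (i + 1)) i b ++ pass (k ^^^ (c + 1)) b c ++ pass k c b ++
    rev (fullR (k ^^^ (b + 1)) b))

/-- the conditions on a plan -/
def Good (l : List En) : Prop :=
  (l.map (fun s => s.1)).Nodup ∧ l.IsChain (fun s t => ext s.1 s.2.2 = (t.1, t.2.1)) ∧
    (∀ s ∈ l, s.1.val < 24 → s.2.1 ≠ s.2.2) ∧ (∀ w : Fin 36, w.val < 24 → w ∈ l.map (fun s => s.1)) ∧
    l.length = 34

instance : DecidablePred Good := fun l => by unfold Good; infer_instance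

lemma planC_good : ∀ w : Fin 36, w.val < 24 → ∀ d, Good (planC w d) ∧
    (planC w d).head? = some (w, if d then 0 else 1, if d then 1 else 0) := by
  decide +kernel

lemma planE_good : ∀ w : Fin 36, 24 ≤ w.val → Good (planE w) ∧
    (planE w).head? = some (w, 0, 2) := by
  decide +kernel

end Run7.h651.Plan
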