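import Pool.Agent.Run7.h651.Ring

/-!
Pósa rotations of a Hamiltonian path with a fixed first vertex.
-/

namespace Run7.h651

open SimpleGraph Classical

variable {V : Type*}

/-- the list avoids the pair `x, t` -/
def Av (x t : V) (l : List V) : Prop := l.IsChain (fun u v => s(u, v) ≠ s(x, t))

/-- rotations -/
inductive Rot (H : SimpleGraph V) (l0 : List V) : List V → Prop
  | refl : Rot H l0 l0
  | step (A : List V) (x : V) (B : List V) : Rot H l0 (A ++ x :: B) → B ≠ [] →
      (∀ s ∈ B.getLast?, H.Adj x s) → Rot H l0 (A ++ x :: B.reverse)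

lemma Rot.perm {H : SimpleGraph V} {l0 l : List V} (h : Rot H l0 l) : l.Perm l0 := by
  induction h with
  | refl => exact List.Perm.refl _
  | step A x B _ _ _ ih =>
    refine List.Perm.trans ?_ ih
    exact List.Perm.append_left _ (List.Perm.cons _ (List.reverse_perm _))

lemma Rot.head {H : SimpleGraph V} {l0 l : List V} (h : Rot H l0 l) : l.head? = l0.head? := by
  induction h with
  | refl => rfl
  | step A x B _ _ _ ih =>
    rw [← ih]
    cases A <;> simp

lemma Rot.chain {H : SimpleGraph V} {l0 l : List V} (h : Rot H l0 l)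
    (h0 : l0.IsChain H.Adj) : l.IsChain H.Adj := by
  induction h with
  | refl => exact h0
  | step A x B _ hB hs ih =>
    rw [List.isChain_append] at ih ⊢
    refine ⟨ih.1, ?_, ?_⟩
    · rw [List.isChain_cons] at ih ⊢
      refine ⟨?_, ?_⟩
      · intro y hy
        rw [List.head?_reverse] at hy
        exact hs y hy
      · rw [List.isChain_reverse]
        exact ih.2.1.2.imp (fun a b hab => hab.symm)
    · intro u hu v hv
      exact ih.2.2 u hu v (by simpa using hv)

lemma Av.of_not_mem {x t : V} {l : List V} (h : x ∉ l) : Av x t l := by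
  have h1 : l.IsChain (fun _ _ => True) := by
    induction l with
    | nil => simp
    | cons a l ih =>
      rw [List.isChain_cons]
      exact ⟨fun _ _ => trivial, ih (fun hh => h (List.mem_cons_of_mem _ hh))⟩
  refine List.IsChain.imp_of_mem_imp ?_ h1
  intro u v hu hv _ he
  rw [Sym2.eq_iff] at he
  rcases he with ⟨rfl, _⟩ | ⟨_, rfl⟩
  · exact h hu
  · exact h hv

/-- the ends of the rotated paths -/
def IsEnd (H : SimpleGraph V) (l0 : List V) (s : V) : Prop :=
  ∃ l, Rot H l0 l ∧ l.getLast? = some s

lemma Rot.av {H : SimpleGraph V} {l0 l : List V} (h : Rot H l0 l) {y z : V}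
    (hy : ¬ IsEnd H l0 y) (hz : ¬ IsEnd H l0 z) (hav : Av y z l) : Av y z l0 := by
  induction h with
  | refl => exact hav
  | step A x B hr hB hs ih =>
    apply ih
    unfold Av at hav ⊢
    rw [List.isChain_append] at hav ⊢
    refine ⟨hav.1, ?_, ?_⟩
    · rw [List.isChain_cons] at hav ⊢
      refine ⟨?_, ?_⟩
      · intro w hw he
        have hw' : IsEnd H l0 w := by
          refine ⟨_, Rot.step A x B hr hB hs, ?_⟩
          rw [List.getLast?_append, List.getLast?_cons, List.getLast?_reverse, hw]
          simp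
        rw [Sym2.eq_iff] at he
        rcases he with ⟨_, rfl⟩ | ⟨_, rfl⟩
        · exact hz hw'
        · exact hy hw'
      · have h2 := hav.2.1.2
        rw [List.isChain_reverse] at h2
        exact h2.imp (fun a b hab he => hab (by rw [← he]; exact Sym2.eq_swap))
    · intro u hu v hv
      exact hav.2.2 u hu v (by simpa using hv)

lemma last_of_not_av {x y z : V} {A B : List V} (hnd : (A ++ x :: y :: B).Nodup)
    (hyz : y ≠ z) (h : ¬ Av x z (A ++ x :: y :: B)) : A.getLast? = some z := by
  by_contra hcon
  apply h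
  unfold Av
  have hxA : x ∉ A := by
    intro hx
    have := List.disjoint_of_nodup_append hnd hx
    simp at this
  have hxB : x ∉ y :: B := by
    have := (List.nodup_append.1 hnd).2.1
    exact (List.nodup_cons.1 this).1
  rw [List.isChain_append, List.isChain_cons_cons]
  refine ⟨Av.of_not_mem hxA, ⟨?_, Av.of_not_mem hxB⟩, ?_⟩
  · intro he
    rw [Sym2.eq_iff] at he
    rcases he with ⟨_, h1⟩ | ⟨h1, h2⟩
    · exact hyz h1
    · apply hxB
      rw [h2]
      simp
  · intro u hu v hv he
    have hv' : v = x := by simpa using hv.symm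
    subst hv'
    rw [Sym2.eq_iff] at he
    rcases he with ⟨h1, _⟩ | ⟨h1, _⟩
    · apply hxA
      rw [← h1]
      exact List.mem_of_mem_getLast? hu
    · apply hcon
      rw [← h1]
      exact hu

lemma not_av_of_adj {x y : V} (A B : List V) : ¬ Av x y (A ++ x :: y :: B) := by
  intro h
  unfold Av at h
  rw [List.isChain_append, List.isChain_cons_cons] at h
  exact h.2.1.1 rfl

lemma not_av_symm {x y : V} {l : List V} (h : ¬ Av x y l) : ¬ Av y x l := by
  intro h'
  apply h
  unfold Av at h' ⊢
  exact h'.imp (fun a b hab he => hab (by rw [he]; exact Sym2.eq_swap))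

/-- Pósa's lemma -/
lemma posa_aux {H : SimpleGraph V} {l0 : List V} (hnd : l0.Nodup)
    {x s : V} (hx : x ∈ l0) (hs : IsEnd H l0 s) (hxs : H.Adj x s) (hxe : ¬ IsEnd H l0 x) :
    ∃ t, IsEnd H l0 t ∧ ¬ Av x t l0 := by
  by_contra hcon
  push Not at hcon
  obtain ⟨l, hl, hls⟩ := hs
  have hxl : x ∈ l := hl.perm.mem_iff.2 hx
  have hlnd : l.Nodup := hl.perm.nodup_iff.2 hnd
  obtain ⟨A, B, rfl⟩ := List.append_of_mem hxl
  cases B with
  | nil =>
    apply hxe
    refine ⟨_, hl, ?_⟩
    simp
  | cons y B =>
    have hls' : (y :: B).getLast? = some s := by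
      rw [List.getLast?_append, List.getLast?_cons_cons] at hls
      cases hh : (y :: B).getLast? with
      | none => simp at hh
      | some w =>
        rw [hh] at hls
        simpa using hls
    have hy : IsEnd H l0 y := by
      refine ⟨_, Rot.step A x (y :: B) hl (by simp) ?_, ?_⟩
      · intro w hw
        rw [hls'] at hw
        simp only [Option.mem_some_iff] at hw
        subst hw
        exact hxs
      · rw [List.getLast?_append, List.getLast?_cons, List.reverse_cons,
          List.getLast?_append]
        simp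
    -- successor of x in l0
    obtain ⟨A0, B0, h0⟩ := List.append_of_mem hx
    cases B0 with
    | nil =>
      apply hxe
      refine ⟨l0, Rot.refl, ?_⟩
      rw [h0]; simp
    | cons z B0 =>
      have hz1 : ¬ Av x z l0 := by rw [h0]; exact not_av_of_adj _ _
      have hz2 : ¬ IsEnd H l0 z := fun hh => hz1 (hcon z hh)
      have hyz : y ≠ z := by rintro rfl; exact hz2 hy
      have hz3 : ¬ Av x z (A ++ x :: y :: B) := fun hh => hz1 (hl.av hxe hz2 hh)
      have hA := last_of_not_av hlnd hyz hz3
      rcases List.eq_nil_or_concat A0 with rfl | ⟨A1, w, rfl⟩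
      · have h1 := hl.head
        rw [h0] at h1
        cases A with
        | nil => simp at hA
        | cons a A =>
          simp at h1
          subst h1
          simp at hlnd
      · simp only [List.concat_eq_append] at h0
        have hw1 : ¬ Av x w l0 := by
          apply not_av_symm
          rw [h0]
          have := not_av_of_adj (x := w) (y := x) A1 (z :: B0)
          simpa using this
        have hw2 : ¬ IsEnd H l0 w := fun hh => hw1 (hcon w hh)
        have hyw : y ≠ w := by rintro rfl; exact hw2 hy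
        have hw3 : ¬ Av x w (A ++ x :: y :: B) := fun hh => hw1 (hl.av hxe hw2 hh)
        have hA' := last_of_not_av hlnd hyw hw3
        rw [hA] at hA'
        simp only [Option.some.injEq] at hA'
        subst hA'
        rw [h0] at hnd
        have := List.disjoint_of_nodup_append hnd (a := z) (by simp)
        simp at this

/-- Hamiltonian path of the subgraph induced by `U` -/
def HP (H : SimpleGraph V) (U : Finset V) (a s : V) (l : List V) : Prop :=
  l.Nodup ∧ (∀ v, v ∈ l ↔ v ∈ U) ∧ l.IsChain H.Adj ∧ l.head? = some a ∧ l.getLast? = some s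

lemma formPerm_chain {l : List V} (hl : l.Nodup) :
    l.IsChain (fun u v => l.formPerm u = v) := by
  rw [List.isChain_iff_getElem]
  intro i hi
  exact List.formPerm_apply_lt_getElem l hl i hi

theorem posa [Fintype V] {H : SimpleGraph V} {U : Finset V} {a s0 : V} {l0 : List V} {m : ℕ}
    (h : HP H U a s0 l0)
    (hexp : ∀ S : Finset V, S ⊆ U → S.Nonempty → S.card ≤ m →
      2 * S.card < (U.filter (fun x => x ∉ S ∧ ∃ s ∈ S, H.Adj x s)).card) :
    ∃ S : Finset V, S ⊆ U ∧ m < S.card ∧ ∀ s ∈ S, ∃ l, HP H U a s l := by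
  obtain ⟨hnd, hmem, hch, hhd, hlast⟩ := h
  set S : Finset V := Finset.univ.filter (IsEnd H l0) with hS
  have hSmem : ∀ s, s ∈ S ↔ IsEnd H l0 s := by intro s; simp [hS]
  have hHP : ∀ s ∈ S, ∃ l, HP H U a s l := by
    intro s hs
    obtain ⟨l, hl, hls⟩ := (hSmem s).1 hs
    exact ⟨l, hl.perm.nodup_iff.2 hnd, fun v => (hl.perm.mem_iff).trans (hmem v),
      hl.chain hch, hl.head.trans hhd, hls⟩
  have hSU : S ⊆ U := by
    intro s hs
    obtain ⟨l, hl⟩ := hHP s hs
    exact (hl.2.1 s).1 (List.mem_of_getLast? hl.2.2.2.2)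
  refine ⟨S, hSU, ?_, hHP⟩
  by_contra hcon
  push Not at hcon
  have hne : S.Nonempty := ⟨s0, (hSmem s0).2 ⟨l0, Rot.refl, hlast⟩⟩
  have h1 := hexp S hSU hne hcon
  set σ := l0.formPerm with hσ
  have h2 : U.filter (fun x => x ∉ S ∧ ∃ s ∈ S, H.Adj x s) ⊆
      S.image σ ∪ S.image σ.symm := by
    intro x hx
    simp only [Finset.mem_filter] at hx
    obtain ⟨hxU, hxS, s, hs, hxs⟩ := hx
    obtain ⟨t, ht, hav⟩ := posa_aux (H := H) hnd ((hmem x).2 hxU) ((hSmem s).1 hs) hxs
      (fun hh => hxS ((hSmem x).2 hh))
    have h3 : σ x = t ∨ σ t = x := by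
      by_contra h4
      push Not at h4
      apply hav
      unfold Av
      refine (formPerm_chain hnd).imp ?_
      intro u v huv he
      rw [Sym2.eq_iff] at he
      rcases he with ⟨rfl, rfl⟩ | ⟨rfl, rfl⟩
      · exact h4.1 huv
      · exact h4.2 huv
    rw [Finset.mem_union]
    rcases h3 with h3 | h3
    · right
      rw [Finset.mem_image]
      exact ⟨t, (hSmem t).2 ht, by rw [← h3]; simp⟩
    · left
      rw [Finset.mem_image]
      exact ⟨t, (hSmem t).2 ht, h3⟩
  have h3 := Finset.card_le_card h2
  have h4 := Finset.card_union_le (S.image σ) (S.image σ.symm)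
  have h5 : (S.image σ).card ≤ S.card := Finset.card_image_le
  have h6 : (S.image σ.symm).card ≤ S.card := Finset.card_image_le
  omega

end Run7.h651
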