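import Pool.Agent.Run7.h651.Ring

/-!
Counting: graphs of bounded average degree with few short cycles and an edge between any two
large sets.
-/

namespace Run7.h651

open SimpleGraph Classical Finset

lemma card_constraint {E C : Type*} [Fintype E] [Fintype C] (F : Finset E) (S : Finset C)
    (A : Finset (E → C)) (hA : ∀ ω, ω ∈ A ↔ ∀ e ∈ F, ω e ∈ S) :
    A.card * Fintype.card C ^ F.card =
      S.card ^ F.card * Fintype.card C ^ Fintype.card E := by
  have h1 : A = Fintype.piFinset (fun e => if e ∈ F then S else univ) := by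
    ext ω
    simp only [hA, Fintype.mem_piFinset]
    constructor
    · intro h e
      by_cases he : e ∈ F
      · simp [he, h e he]
      · simp [he]
    · intro h e he
      have := h e
      simpa [he] using this
  rw [h1, Fintype.card_piFinset]
  have h2 : ∏ e : E, (if e ∈ F then S else univ).card =
      S.card ^ F.card * Fintype.card C ^ (Fintype.card E - F.card) := by
    have : ∀ e : E, (if e ∈ F then S else univ).card = if e ∈ F then S.card else Fintype.card C := by
      intro e
      split_ifs <;> simp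
    simp_rw [this]
    rw [Finset.prod_ite, Finset.prod_const, Finset.prod_const]
    congr 2
    · congr 1; ext e; simp
    · rw [← Finset.card_univ, ← Finset.card_sdiff_of_subset (subset_univ F)]
      congr 1
      ext e; simp
  rw [h2, mul_assoc, ← pow_add, Nat.sub_add_cancel (Finset.card_le_univ F)]

variable {n K : ℕ}

/-- the graph of a function -/
def RG (ω : Sym2 (Fin n) → Fin (K + 1)) : SimpleGraph (Fin n) where
  Adj u v := u ≠ v ∧ ω s(u, v) = 0
  symm := ⟨by
    intro u v h
    exact ⟨h.1.symm, by rw [Sym2.eq_swap]; exact h.2⟩⟩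
  loopless := ⟨fun u h => h.1 rfl⟩

/-- closed injective tuples -/
def CT (G : SimpleGraph (Fin n)) (j : ℕ) (f : Fin (j + 3) → Fin n) : Prop :=
  Function.Injective f ∧ ∀ i, G.Adj (f i) (f (i + 1))

lemma edges_inj {j : ℕ} {f : Fin (j + 3) → Fin n} (hf : Function.Injective f) :
    Function.Injective (fun i => s(f i, f (i + 1))) := by
  intro i i' h
  simp only [Sym2.eq_iff] at h
  rcases h with ⟨h, _⟩ | ⟨h1, h2⟩
  · exact hf h
  · exfalso
    have e1 := hf h1
    have e2 := hf h2
    rw [e1, add_assoc] at e2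
    have e3 : (1 + 1 : Fin (j + 3)) = 0 := by
      have : i' + (1 + 1) = i' + 0 := by rw [e2, add_zero]
      exact add_left_cancel this
    have e4 := congrArg Fin.val e3
    simp only [Fin.add_def, Fin.val_one, Fin.val_zero] at e4
    norm_num at e4
    rw [Nat.mod_eq_of_lt (by omega)] at e4
    omega

lemma count_ct (j : ℕ) (f : Fin (j + 3) → Fin n) :
    ((univ : Finset (Sym2 (Fin n) → Fin (K + 1))).filter (fun ω => CT (RG ω) j f)).card *
      (K + 1) ^ (j + 3) ≤ Fintype.card (Sym2 (Fin n) → Fin (K + 1)) := by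
  by_cases hf : Function.Injective f
  · set F : Finset (Sym2 (Fin n)) := univ.image (fun i => s(f i, f (i + 1))) with hF
    have hFc : F.card = j + 3 := by
      rw [hF, card_image_of_injective _ (edges_inj hf)]
      simp
    have h1 := card_constraint (C := Fin (K + 1)) F {0} (univ.filter (fun ω => ∀ e ∈ F,
      ω e ∈ ({0} : Finset (Fin (K + 1))))) (fun ω => by simp)
    rw [hFc, Fintype.card_fin] at h1
    have h2 : (univ : Finset (Sym2 (Fin n) → Fin (K + 1))).filter (fun ω => CT (RG ω) j f) ⊆
        univ.filter (fun ω => ∀ e ∈ F, ω e ∈ ({0} : Finset (Fin (K + 1)))) := by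
      intro ω hω
      simp only [mem_filter, mem_univ, true_and] at hω ⊢
      intro e he
      rw [hF, mem_image] at he
      obtain ⟨i, _, rfl⟩ := he
      simpa using (hω.2 i).2
    calc _ ≤ ((univ : Finset (Sym2 (Fin n) → Fin (K + 1))).filter
          (fun ω => ∀ e ∈ F, ω e ∈ ({0} : Finset (Fin (K + 1))))).card * (K + 1) ^ (j + 3) := by
            gcongr
      _ = _ := by
          rw [h1]
          simp
  · have : (univ : Finset (Sym2 (Fin n) → Fin (K + 1))).filter (fun ω => CT (RG ω) j f) = ∅ := by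
      ext ω
      simp only [mem_filter, mem_univ, true_and, notMem_empty, iff_false]
      intro h
      exact hf h.1
    rw [this]
    simp

lemma count_edge {u v : Fin n} (huv : u ≠ v) :
    ((univ : Finset (Sym2 (Fin n) → Fin (K + 1))).filter (fun ω => (RG ω).Adj u v)).card *
      (K + 1) ≤ Fintype.card (Sym2 (Fin n) → Fin (K + 1)) := by
  have h1 := card_constraint (C := Fin (K + 1)) ({s(u, v)} : Finset (Sym2 (Fin n))) {0}
    (univ.filter (fun ω => ∀ e ∈ ({s(u, v)} : Finset (Sym2 (Fin n))),
      ω e ∈ ({0} : Finset (Fin (K + 1))))) (fun ω => by simp)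
  simp only [card_singleton, pow_one, Fintype.card_fin, one_mul] at h1
  have h2 : (univ : Finset (Sym2 (Fin n) → Fin (K + 1))).filter (fun ω => (RG ω).Adj u v) ⊆
      univ.filter (fun ω => ∀ e ∈ ({s(u, v)} : Finset (Sym2 (Fin n))),
        ω e ∈ ({0} : Finset (Fin (K + 1)))) := by
    intro ω hω
    simp only [mem_filter, mem_univ, true_and] at hω ⊢
    intro e he
    rw [mem_singleton] at he
    subst he
    simpa using hω.2
  calc _ ≤ _ := Nat.mul_le_mul_right _ (card_le_card h2)
    _ = _ := by rw [h1]; simp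

/-- no edge between two sets -/
def Hole (G : SimpleGraph (Fin n)) (S T : Finset (Fin n)) : Prop :=
  Disjoint S T ∧ ∀ s ∈ S, ∀ t ∈ T, ¬ G.Adj s t

lemma count_hole {m : ℕ} {S T : Finset (Fin n)} (hS : S.card = m) (hT : T.card = m) :
    ((univ : Finset (Sym2 (Fin n) → Fin (K + 1))).filter (fun ω => Hole (RG ω) S T)).card *
      (K + 1) ^ (m * m) ≤ K ^ (m * m) * Fintype.card (Sym2 (Fin n) → Fin (K + 1)) := by
  by_cases hd : Disjoint S T
  · set F : Finset (Sym2 (Fin n)) := (S ×ˢ T).image (fun p => s(p.1, p.2)) with hF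
    have hFc : F.card = m * m := by
      rw [hF, card_image_of_injOn, card_product, hS, hT]
      intro p hp q hq hpq
      simp only [coe_product, Set.mem_prod, mem_coe] at hp hq
      simp only [Sym2.eq_iff] at hpq
      rcases hpq with ⟨h1, h2⟩ | ⟨h1, h2⟩
      · exact Prod.ext h1 h2
      · exfalso
        exact disjoint_left.1 hd hp.1 (h1 ▸ hq.2)
    have h1 := card_constraint (C := Fin (K + 1)) F (univ.erase 0)
      (univ.filter (fun ω => ∀ e ∈ F, ω e ∈ (univ.erase 0 : Finset (Fin (K + 1)))))
      (fun ω => by simp)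
    rw [hFc, Fintype.card_fin, card_erase_of_mem (mem_univ _), card_univ, Fintype.card_fin,
      Nat.add_sub_cancel] at h1
    have h2 : (univ : Finset (Sym2 (Fin n) → Fin (K + 1))).filter (fun ω => Hole (RG ω) S T) ⊆
        univ.filter (fun ω => ∀ e ∈ F, ω e ∈ (univ.erase 0 : Finset (Fin (K + 1)))) := by
      intro ω hω
      simp only [mem_filter, mem_univ, true_and] at hω ⊢
      intro e he
      rw [hF, mem_image] at he
      obtain ⟨p, hp, rfl⟩ := he
      rw [mem_product] at hp
      simp only [mem_erase, mem_univ, and_true]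
      intro h0
      refine hω.2 p.1 hp.1 p.2 hp.2 ⟨?_, h0⟩
      rintro h3
      exact disjoint_left.1 hd hp.1 (h3 ▸ hp.2)
    calc _ ≤ ((univ : Finset (Sym2 (Fin n) → Fin (K + 1))).filter
          (fun ω => ∀ e ∈ F, ω e ∈ (univ.erase 0 : Finset (Fin (K + 1))))).card *
            (K + 1) ^ (m * m) := by gcongr
      _ = _ := by
          rw [h1]
          simp
  · have : (univ : Finset (Sym2 (Fin n) → Fin (K + 1))).filter (fun ω => Hole (RG ω) S T) = ∅ := by
      ext ω
      simp only [mem_filter, mem_univ, true_and, notMem_empty, iff_false]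
      intro h
      exact hd h.1
    rw [this]
    simp

lemma two_pow_le (K : ℕ) (a : ℕ) : 2 ^ a * K ^ ((K + 1) * a) ≤ (K + 1) ^ ((K + 1) * a) := by
  have h : 2 * K ^ (K + 1) ≤ (K + 1) ^ (K + 1) := by
    have := one_add_mul_le_pow (R := ℤ) (a := 1) (by norm_num) K
    -- Bernoulli in the form (K+1)^(K+1) ≥ K^(K+1) + (K+1) K^K
    have h2 : K ^ (K + 1) + (K + 1) * K ^ K ≤ (K + 1) ^ (K + 1) := by
      rw [add_pow]
      rw [Finset.sum_range_succ, Finset.sum_range_succ]
      simp
      nlinarith [Nat.zero_le (∑ x ∈ Finset.range K, K ^ x * ((K + 1).choose x))]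
    nlinarith [Nat.zero_le (K ^ K), pow_succ K K]
  calc 2 ^ a * K ^ ((K + 1) * a) = (2 * K ^ (K + 1)) ^ a := by
        rw [mul_pow, ← pow_mul]
    _ ≤ ((K + 1) ^ (K + 1)) ^ a := Nat.pow_le_pow_left h a
    _ = (K + 1) ^ ((K + 1) * a) := by rw [← pow_mul]

end Run7.h651
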