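import Pool.Agent.Run7.h651.Girth

/-!
A Hamiltonian cycle on a large set of vertices can be added to a graph of bounded degree
without short cycles, such that no short cycle arises.
-/

namespace Run7.h651

open SimpleGraph Classical

variable {V : Type*} [Fintype V]

set_option linter.unusedSectionVars false

/-- the neighbours -/
noncomputable def nb (H : SimpleGraph V) (v : V) : Finset V := Finset.univ.filter (H.Adj v)

@[simp] lemma mem_nb {H : SimpleGraph V} {v w : V} : w ∈ nb H v ↔ H.Adj v w := by simp [nb]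

/-- vertices reached by walks of length less than `r` -/
noncomputable def ball (H : SimpleGraph V) (r : ℕ) (z : V) : Finset V :=
  Finset.univ.filter (fun y => ∃ p : H.Walk z y, p.length < r)

lemma mem_ball {H : SimpleGraph V} {r : ℕ} {z y : V} :
    y ∈ ball H r z ↔ ∃ p : H.Walk z y, p.length < r := by simp [ball]

lemma far_of_not_mem_ball {H : SimpleGraph V} {r : ℕ} {z y : V} (h : y ∉ ball H r z) :
    Far H r z y := by
  intro p
  by_contra hp
  exact h (mem_ball.2 ⟨p, by omega⟩)

lemma card_ball {H : SimpleGraph V} {E : ℕ} (hE : ∀ v, (nb H v).card ≤ E) (r : ℕ) :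
    ∀ z, (ball H r z).card ≤ (E + 1) ^ r := by
  induction r with
  | zero =>
    intro z
    have : ball H 0 z = ∅ := by
      ext y; simp [mem_ball]
    simp [this]
  | succ r ih =>
    intro z
    have h1 : ball H (r + 1) z ⊆ {z} ∪ (nb H z).biUnion (fun y => ball H r y) := by
      intro y hy
      obtain ⟨p, hp⟩ := mem_ball.1 hy
      cases p with
      | nil => simp
      | @cons _ w _ h p =>
        refine Finset.mem_union_right _ (Finset.mem_biUnion.2 ⟨w, by simpa using h, ?_⟩)
        refine mem_ball.2 ⟨p, ?_⟩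
        simp at hp
        omega
    calc (ball H (r + 1) z).card ≤ ({z} ∪ (nb H z).biUnion (fun y => ball H r y)).card :=
          Finset.card_le_card h1
      _ ≤ 1 + ((nb H z).biUnion (fun y => ball H r y)).card := by
          refine (Finset.card_union_le _ _).trans ?_
          simp
      _ ≤ 1 + (nb H z).card * (E + 1) ^ r := by
          gcongr
          exact Finset.card_biUnion_le_card_mul _ _ _ (fun y _ => ih y)
      _ ≤ (E + 1) ^ r + E * (E + 1) ^ r := by
          gcongr
          · exact Nat.one_le_pow _ _ (by omega)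
          · exact hE z
      _ = (E + 1) ^ (r + 1) := by ring

lemma nb_sup_edge (H : SimpleGraph V) (a b v : V) :
    (nb (H ⊔ edge a b) v).card ≤ (nb H v).card + 1 := by
  by_cases hv : v = a
  · have : nb (H ⊔ edge a b) v ⊆ insert b (nb H v) := by
      intro w hw
      simp only [mem_nb, sup_adj, edge_adj, Finset.mem_insert] at hw ⊢
      rcases hw with h | ⟨⟨h1, h2⟩ | ⟨h1, h2⟩, h3⟩
      · exact Or.inr h
      · exact Or.inl h2
      · exfalso; exact h3 (by rw [hv, ← h2])
    exact (Finset.card_le_card this).trans (Finset.card_insert_le _ _)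
  · have : nb (H ⊔ edge a b) v ⊆ insert a (nb H v) := by
      intro w hw
      simp only [mem_nb, sup_adj, edge_adj, Finset.mem_insert] at hw ⊢
      rcases hw with h | ⟨⟨h1, h2⟩ | ⟨h1, h2⟩, h3⟩
      · exact Or.inr h
      · exact absurd h1 hv
      · exact Or.inl h2
    exact (Finset.card_le_card this).trans (Finset.card_insert_le _ _)

lemma nb_sup_edge_of_ne (H : SimpleGraph V) {a b v : V} (ha : v ≠ a) (hb : v ≠ b) :
    nb (H ⊔ edge a b) v = nb H v := by
  ext w
  simp only [mem_nb, sup_adj, edge_adj]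
  constructor
  · rintro (h | ⟨⟨h1, h2⟩ | ⟨h1, h2⟩, h3⟩)
    · exact h
    · exact absurd h1 ha
    · exact absurd h1 hb
  · exact Or.inl

/-- state of the growing path -/
structure PS (Γ H : SimpleGraph V) (g Δ : ℕ) (y : V) (t : List V) : Prop where
  le : Γ ≤ H
  gg : GG H g
  out : ∀ v, v ∉ y :: t → ∀ w, H.Adj v w → Γ.Adj v w
  deg : ∀ v, (nb H v).card ≤ Δ + 2
  hd : (nb H y).card ≤ Δ + 1
  nodup : (y :: t).Nodup
  chain : (y :: t).IsChain (fun x y => H.Adj x y ∧ ¬ Γ.Adj x y)
  far : ∀ x ∈ (y :: t).getLast?, Far H (min g t.length) y x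

lemma adj_of_out {Γ H : SimpleGraph V} {v : V} (h : ∀ w, H.Adj v w → Γ.Adj v w) :
    (nb H v).card ≤ (nb Γ v).card := by
  apply Finset.card_le_card
  intro w hw
  simp only [mem_nb] at hw ⊢
  exact h w hw

lemma PS.extend {Γ H : SimpleGraph V} {g Δ : ℕ} {y : V} {t : List V} (hg : 2 ≤ g)
    (hΔ : ∀ v, (nb Γ v).card ≤ Δ) (h : PS Γ H g Δ y t) {z : V} (hz : z ∉ y :: t)
    (h1 : Far H g z y) (h2 : ∀ x ∈ (y :: t).getLast?, Far H g z x) :
    PS Γ (H ⊔ edge z y) g Δ z (y :: t) := by
  have hzdeg : (nb H z).card ≤ Δ := (adj_of_out (h.out z hz)).trans (hΔ z)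
  refine ⟨h.le.trans le_sup_left, h.gg.add (h1.mono_L (by omega)), ?_, ?_, ?_, ?_, ?_, ?_⟩
  · intro v hv w hvw
    have hvz : v ≠ z := by rintro rfl; simp at hv
    have hvy : v ≠ y := by rintro rfl; simp at hv
    have hv' : v ∉ y :: t := by
      intro hh; exact hv (List.mem_cons_of_mem _ hh)
    have : w ∈ nb (H ⊔ edge z y) v := by simpa using hvw
    rw [nb_sup_edge_of_ne H hvz hvy] at this
    exact h.out v hv' w (by simpa using this)
  · intro v
    by_cases hvz : v = z
    · subst hvz
      have := nb_sup_edge H v y v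
      omega
    by_cases hvy : v = y
    · subst hvy
      have := nb_sup_edge H z v v
      have := h.hd
      omega
    rw [nb_sup_edge_of_ne H hvz hvy]
    exact h.deg v
  · have := nb_sup_edge H z y z
    omega
  · rw [List.nodup_cons]
    exact ⟨hz, h.nodup⟩
  · rw [List.isChain_cons_cons]
    refine ⟨⟨?_, ?_⟩, ?_⟩
    · simp only [sup_adj, edge_adj]
      right
      refine ⟨by simp, ?_⟩
      rintro rfl
      simp at hz
    · intro hadj
      exact h1.not_adj hg (h.le hadj)
    · refine h.chain.imp ?_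
      intro a b hab
      exact ⟨Or.inl hab.1, hab.2⟩
  · intro x hx
    have hx' : x ∈ (y :: t).getLast? := by
      rw [List.getLast?_cons_cons] at hx
      exact hx
    intro p
    have hf := h.far x hx'
    rcases walk_sup_edge p with ⟨q, hq⟩ | ⟨q, r, hq⟩ | ⟨q, r, hq⟩
    · have := h2 x hx' q
      have := min_le_left g (y :: t).length
      omega
    · have := hf r
      have h3 : min g (y :: t).length ≤ min g t.length + 1 := by
        simp only [List.length_cons]
        omega
      omega
    · have := h1 q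
      have := min_le_left g (y :: t).length
      omega

lemma exists_mem_outside {U S : Finset V} (h : S.card < U.card) : ∃ z ∈ U, z ∉ S := by
  by_contra hcon
  push Not at hcon
  exact absurd (Finset.card_le_card (fun z hz => hcon z hz)) (by omega)

lemma exists_path {Γ : SimpleGraph V} {g Δ : ℕ} (hg : 2 ≤ g) (hΓ : GG Γ g)
    (hΔ : ∀ v, (nb Γ v).card ≤ Δ) (U : Finset V) (r : ℕ)
    (hU : r + 2 + 2 * (Δ + 3) ^ g ≤ U.card) :
    ∃ H y t, PS Γ H g Δ y t ∧ t.length = r ∧ ∀ v ∈ y :: t, v ∈ U := by
  induction r with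
  | zero =>
    obtain ⟨y, hy⟩ : U.Nonempty := by
      rw [← Finset.card_pos]; omega
    refine ⟨Γ, y, [], ⟨le_rfl, hΓ, fun v _ w h => h, fun v => (hΔ v).trans (by omega),
      (hΔ y).trans (by omega), by simp, by simp, ?_⟩, rfl, by simpa using hy⟩
    intro x _ p
    simp
  | succ r ih =>
    obtain ⟨H, y, t, hps, hlen, hmem⟩ := ih (by omega)
    obtain ⟨x, hx⟩ : ∃ x, (y :: t).getLast? = some x :=
      ⟨_, List.getLast?_eq_getLast_of_ne_nil (by simp)⟩
    have hb : ∀ z, (ball H g z).card ≤ (Δ + 3) ^ g :=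
      card_ball (H := H) (E := Δ + 2) hps.deg g
    obtain ⟨z, hzU, hz⟩ : ∃ z ∈ U, z ∉ (y :: t).toFinset ∪ ball H g y ∪ ball H g x := by
      apply exists_mem_outside
      have h1 := Finset.card_union_le ((y :: t).toFinset ∪ ball H g y) (ball H g x)
      have h2 := Finset.card_union_le (y :: t).toFinset (ball H g y)
      have h3 := hb y
      have h4 := hb x
      have h5 := (y :: t).toFinset_card_le
      simp only [List.length_cons] at h5
      omega
    simp only [Finset.mem_union, not_or, List.mem_toFinset] at hz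
    refine ⟨H ⊔ edge z y, z, y :: t, hps.extend hg hΔ hz.1.1
      (far_of_not_mem_ball hz.1.2).symm ?_, by simp [hlen], ?_⟩
    · intro x' hx'
      rw [hx] at hx'
      simp only [Option.mem_some_iff] at hx'
      subst hx'
      exact (far_of_not_mem_ball hz.2).symm
    · intro v hv
      rcases List.mem_cons.1 hv with rfl | hv
      · exact hzU
      · exact hmem v hv

/-- state of the growing cycle -/
structure CS (Γ H : SimpleGraph V) (g E : ℕ) (l : List V) : Prop where
  le : Γ ≤ H
  gg : GG H g
  out : ∀ v, v ∉ l → ∀ w, H.Adj v w → Γ.Adj v w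
  deg : ∀ v, (nb H v).card ≤ E
  nodup : l.Nodup
  cl : Cl (fun x y => H.Adj x y ∧ ¬ Γ.Adj x y) l

lemma PS.close {Γ H : SimpleGraph V} {g Δ : ℕ} {y : V} {t : List V} (hg : 2 ≤ g)
    (h : PS Γ H g Δ y t) (ht : g ≤ t.length) : ∃ H', CS Γ H' g (Δ + 3) (y :: t) := by
  obtain ⟨x, hx⟩ : ∃ x, (y :: t).getLast? = some x :=
    ⟨_, List.getLast?_eq_getLast_of_ne_nil (by simp)⟩
  have hf : Far H g y x := by
    have := h.far x hx
    rwa [min_eq_left ht] at this
  have hyx : y ≠ x := hf.ne (by omega)
  have hxmem : x ∈ y :: t := List.mem_of_mem_getLast? hx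
  refine ⟨H ⊔ edge y x, h.le.trans le_sup_left, h.gg.add (hf.mono_L (by omega)), ?_, ?_,
    h.nodup, ?_, ?_⟩
  · intro v hv w hvw
    have hvy : v ≠ y := by rintro rfl; simp at hv
    have hvx : v ≠ x := by rintro rfl; exact hv hxmem
    have : w ∈ nb (H ⊔ edge y x) v := by simpa using hvw
    rw [nb_sup_edge_of_ne H hvy hvx] at this
    exact h.out v hv w (by simpa using this)
  · intro v
    have := nb_sup_edge H y x v
    have := h.deg v
    omega
  · refine h.chain.imp ?_
    intro a b hab
    exact ⟨Or.inl hab.1, hab.2⟩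
  · intro a ha b hb
    rw [hx] at ha
    simp only [Option.mem_some_iff, List.head?_cons] at ha hb
    subst ha hb
    refine ⟨?_, ?_⟩
    · simp only [sup_adj, edge_adj]
      right
      exact ⟨by simp, hyx.symm⟩
    · intro hadj
      exact hf.symm.not_adj hg (h.le hadj)

lemma exists_good (P : V → Prop) : ∀ l : List V,
    2 * l.countP (fun v => decide (P v)) + 1 < l.length →
    ∃ A B a b, l = A ++ a :: b :: B ∧ ¬ P a ∧ ¬ P b
  | [], h => by simp at h
  | [x], h => by simp at h
  | x :: y :: t, h => by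
    by_cases hx : P x
    · obtain ⟨A, B, a, b, he, ha, hb⟩ := exists_good P (y :: t) (by
        simp only [List.length_cons, List.countP_cons, hx, decide_true, if_true] at h ⊢
        omega)
      exact ⟨x :: A, B, a, b, by rw [he]; rfl, ha, hb⟩
    · by_cases hy : P y
      · obtain ⟨A, B, a, b, he, ha, hb⟩ := exists_good P t (by
          simp only [List.length_cons, List.countP_cons, hx, hy, decide_true, if_true,
            decide_false] at h ⊢
          simp at h
          omega)
        exact ⟨x :: y :: A, B, a, b, by rw [he]; rfl, ha, hb⟩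
      · exact ⟨[], t, x, y, rfl, hx, hy⟩

lemma countP_le {l : List V} (hl : l.Nodup) (S : Finset V) :
    l.countP (fun v => @decide (v ∈ S) (Classical.propDecidable _)) ≤ S.card := by
  rw [List.countP_eq_length_filter]
  have h1 : (l.filter (fun v => @decide (v ∈ S) (Classical.propDecidable _))).toFinset ⊆ S := by
    intro v hv
    rw [List.mem_toFinset, List.mem_filter] at hv
    exact @of_decide_eq_true _ (Classical.propDecidable _) hv.2
  calc (l.filter (fun v => @decide (v ∈ S) (Classical.propDecidable _))).length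
      = (l.filter (fun v => @decide (v ∈ S) (Classical.propDecidable _))).toFinset.card := by
        rw [List.toFinset_card_of_nodup (hl.filter _)]
    _ ≤ S.card := Finset.card_le_card h1

lemma CS.insert {Γ H : SimpleGraph V} {g E Δ : ℕ} {l : List V} (hg : 2 ≤ g) (hE : Δ + 2 ≤ E)
    (hΔ : ∀ v, (nb Γ v).card ≤ Δ) (h : CS Γ H g E l) (hl : 2 * (E + 1) ^ g + 1 < l.length)
    {z : V} (hz : z ∉ l) : ∃ H' l', CS Γ H' g E l' ∧ (∀ v, v ∈ l' ↔ v = z ∨ v ∈ l) ∧
      l'.length = l.length + 1 := by
  obtain ⟨A, B, a, b, he, ha, hb⟩ := exists_good (fun v => v ∈ ball H g z) l (by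
    have h1 : l.countP (fun v => @decide (v ∈ ball H g z)
        (Classical.propDecidable _)) ≤ (ball H g z).card := countP_le h.nodup (ball H g z)
    have h2 := card_ball h.deg g z
    refine lt_of_le_of_lt (b := 2 * l.countP (fun v => @decide (v ∈ ball H g z)
        (Classical.propDecidable _)) + 1) le_rfl ?_
    omega)
  have hfa := far_of_not_mem_ball ha
  have hfb := far_of_not_mem_ball hb
  have hl3 : 3 ≤ l.length := by
    have : 1 ≤ (E + 1) ^ g := Nat.one_le_pow _ _ (by omega)
    omega
  -- the rotated list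
  have hcl : Cl (fun x y => H.Adj x y ∧ ¬ Γ.Adj x y) (b :: (B ++ A ++ [a])) := by
    have h1 : l = (A ++ [a]) ++ (b :: B) := by rw [he]; simp
    have h2 := h.cl
    rw [h1] at h2
    have := h2.rotate
    simpa using this
  have hperm : (b :: (B ++ A ++ [a])).Perm l := by
    have h1 : l = (A ++ [a]) ++ (b :: B) := by rw [he]; simp
    rw [h1]
    have : b :: (B ++ A ++ [a]) = (b :: B) ++ (A ++ [a]) := by simp
    rw [this]
    exact List.perm_append_comm
  have hnd : (b :: (B ++ A ++ [a])).Nodup := hperm.nodup_iff.2 h.nodup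
  have hmem : ∀ v, v ∈ b :: (B ++ A ++ [a]) ↔ v ∈ l := fun v => hperm.mem_iff
  obtain ⟨m, T, hT⟩ : ∃ m T, B ++ A = m :: T := by
    cases hBA : B ++ A with
    | nil =>
      exfalso
      have := hperm.length_eq
      rw [hBA] at this
      simp at this
      omega
    | cons m T => exact ⟨m, T, rfl⟩
  rw [hT] at hcl hnd hmem hperm
  have hza : z ≠ a := hfa.ne (by omega)
  have hzb : z ≠ b := hfb.ne (by omega)
  have hab : H.Adj a b ∧ ¬ Γ.Adj a b := by
    apply hcl.2 a _ b (by simp)
    rw [List.getLast?_cons, List.getLast?_append]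
    simp
  have hbnot : b ∉ (m :: T ++ [a]) := (List.nodup_cons.1 hnd).1
  have hma : m ≠ a := by
    rintro rfl
    have := (List.nodup_cons.1 hnd).2
    simp at this
  have hzl : z ∉ b :: (m :: T ++ [a]) := by rw [hmem]; exact hz
  set H0 := H.deleteEdges {s(a, b)} with hH0
  have hH0le : H0 ≤ H := deleteEdges_le _
  have hba' : H.Adj b a := hab.1.symm
  set H1 := H0 ⊔ edge z b with hH1
  set H2 := H1 ⊔ edge a z with hH2
  have hΓ0 : Γ ≤ H0 := by
    intro u v huv
    rw [hH0, deleteEdges_adj]
    refine ⟨h.le huv, ?_⟩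
    intro hs
    rw [Set.mem_singleton_iff, Sym2.eq_iff] at hs
    rcases hs with ⟨rfl, rfl⟩ | ⟨rfl, rfl⟩
    · exact hab.2 huv
    · exact hab.2 huv.symm
  have hzdeg : (nb H z).card ≤ Δ := (adj_of_out (h.out z hz)).trans (hΔ z)
  refine ⟨H2, z :: b :: (m :: T ++ [a]), ⟨?_, ?_, ?_, ?_, ?_, ?_⟩, ?_, ?_⟩
  · exact (hΓ0.trans le_sup_left).trans le_sup_left
  · -- girth
    have g0 : GG H0 g := h.gg.mono hH0le
    have g1 : GG H1 g := g0.add ((hfb.mono hH0le).mono_L (by omega))
    refine g1.add ?_
    intro p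
    rcases walk_sup_edge p with ⟨q, hq⟩ | ⟨q, r, hq⟩ | ⟨q, r, hq⟩
    · have := (hfa.symm.mono hH0le) q
      omega
    · have := (hfa.symm.mono hH0le) q
      omega
    · have := h.gg a b hab.1 q
      omega
  · intro v hv w hvw
    have hvz : v ≠ z := by rintro rfl; simp at hv
    have hvl : v ∉ b :: (m :: T ++ [a]) := fun hh => hv (List.mem_cons_of_mem _ hh)
    have hvb : v ≠ b := by rintro rfl; simp at hvl
    have hva : v ≠ a := by rintro rfl; simp at hvl
    have h1 : w ∈ nb H2 v := by simpa using hvw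
    rw [hH2, nb_sup_edge_of_ne H1 hva hvz, hH1, nb_sup_edge_of_ne H0 hvz hvb] at h1
    exact h.out v (by rw [← hmem]; exact hvl) w (hH0le (by simpa using h1))
  · intro v
    have h0 : nb H0 v ⊆ nb H v := by
      intro w hw
      simp only [mem_nb] at hw ⊢
      exact hH0le hw
    by_cases hvz : v = z
    · subst hvz
      have e1 := nb_sup_edge H1 a v v
      have e2 := nb_sup_edge H0 v b v
      have e3 := Finset.card_le_card h0
      rw [← hH2] at e1
      rw [← hH1] at e2
      omega
    by_cases hvb : v = b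
    · subst hvb
      have hva : v ≠ a := hab.1.ne'
      have e0 : nb H0 v ⊆ (nb H v).erase a := by
        intro w hw
        simp only [mem_nb, hH0, deleteEdges_adj, Finset.mem_erase, Set.mem_singleton_iff] at hw ⊢
        refine ⟨?_, hw.1⟩
        rintro rfl
        exact hw.2 Sym2.eq_swap
      have e1 := nb_sup_edge H0 z v v
      rw [← hH1] at e1
      have e2 : nb H2 v = nb H1 v := nb_sup_edge_of_ne H1 hva hvz
      have e3 := Finset.card_le_card e0
      rw [Finset.card_erase_of_mem (by simpa using hba')] at e3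
      have e4 : 0 < (nb H v).card := Finset.card_pos.2 ⟨a, by simpa using hba'⟩
      have e5 := h.deg v
      rw [e2]
      omega
    by_cases hva : v = a
    · subst hva
      have e0 : nb H0 v ⊆ (nb H v).erase b := by
        intro w hw
        simp only [mem_nb, hH0, deleteEdges_adj, Finset.mem_erase, Set.mem_singleton_iff] at hw ⊢
        refine ⟨?_, hw.1⟩
        rintro rfl
        exact hw.2 rfl
      have e1 := nb_sup_edge H1 v z v
      rw [← hH2] at e1
      have e2 : nb H1 v = nb H0 v := nb_sup_edge_of_ne H0 hvz hvb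
      have e3 := Finset.card_le_card e0
      rw [Finset.card_erase_of_mem (by simpa using hab.1)] at e3
      have e4 : 0 < (nb H v).card := Finset.card_pos.2 ⟨b, by simpa using hab.1⟩
      have e5 := h.deg v
      rw [e2] at e1
      omega
    rw [hH2, nb_sup_edge_of_ne H1 hva hvz, hH1, nb_sup_edge_of_ne H0 hvz hvb]
    exact (Finset.card_le_card h0).trans (h.deg v)
  · rw [List.nodup_cons]
    exact ⟨hzl, hnd⟩
  · refine ⟨?_, ?_⟩
    · rw [List.isChain_cons_cons, List.cons_append, List.isChain_cons_cons]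
      have h1 := hcl.1
      rw [List.cons_append, List.isChain_cons_cons] at h1
      refine ⟨⟨?_, ?_⟩, ⟨?_, h1.1.2⟩, ?_⟩
      · left; right
        simp only [edge_adj]
        exact ⟨by simp, hzb⟩
      · intro hadj
        exact hfb.not_adj hg (h.le hadj)
      · left; left
        rw [hH0, deleteEdges_adj]
        refine ⟨h1.1.1, ?_⟩
        intro hs
        rw [Set.mem_singleton_iff, Sym2.eq_iff] at hs
        rcases hs with ⟨rfl, rfl⟩ | ⟨_, hs⟩
        · exact hab.1.ne rfl
        · exact hma hs
      · refine List.IsChain.imp_of_mem_imp ?_ h1.2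
        intro u v hu hv huv
        refine ⟨?_, huv.2⟩
        left; left
        rw [hH0, deleteEdges_adj]
        refine ⟨huv.1, ?_⟩
        intro hs
        rw [Set.mem_singleton_iff, Sym2.eq_iff] at hs
        rcases hs with ⟨_, rfl⟩ | ⟨rfl, _⟩
        · exact hbnot hv
        · exact hbnot hu
    · intro x hx y hy
      have ex : x = a := by
        rw [List.getLast?_cons, List.getLast?_cons, List.getLast?_append] at hx
        simpa using hx.symm
      have ey : y = z := by simpa using hy.symm
      subst ex ey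
      refine ⟨?_, ?_⟩
      · right
        simp only [edge_adj]
        exact ⟨by simp, hza.symm⟩
      · intro hadj
        exact hfa.symm.not_adj hg (h.le hadj)
  · intro v
    rw [List.mem_cons, hmem]
  · have := hperm.length_eq
    simp only [List.length_cons] at this ⊢
    omega

theorem exists_ring {Γ : SimpleGraph V} {g Δ : ℕ} (hg : 2 ≤ g) (hΓ : GG Γ g)
    (hΔ : ∀ v, (nb Γ v).card ≤ Δ) (U : Finset V)
    (hU : 4 * (Δ + 4) ^ g + g + 5 ≤ U.card) :
    ∃ H : SimpleGraph V, ∃ l : List V, Γ ≤ H ∧ GG H g ∧ (∀ v, (nb H v).card ≤ Δ + 3) ∧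
      l.Nodup ∧ (∀ v, v ∈ l ↔ v ∈ U) ∧ Cl H.Adj l := by
  -- the cycle grows
  have key : ∀ k : ℕ, ∀ (H : SimpleGraph V) (l : List V), CS Γ H g (Δ + 3) l →
      (∀ v ∈ l, v ∈ U) → 2 * (Δ + 4) ^ g + 1 < l.length → U.card = l.length + k →
      ∃ H' l', CS Γ H' g (Δ + 3) l' ∧ (∀ v, v ∈ l' ↔ v ∈ U) := by
    intro k
    induction k with
    | zero =>
      intro H l h1 h2 _ h4
      refine ⟨H, l, h1, fun v => ⟨h2 v, fun hv => ?_⟩⟩
      have hsub : l.toFinset ⊆ U := fun v hv => h2 v (by simpa using hv)
      have : l.toFinset = U := Finset.eq_of_subset_of_card_le hsub (by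
        rw [List.toFinset_card_of_nodup h1.nodup]; omega)
      rw [← this] at hv
      simpa using hv
    | succ k ih =>
      intro H l h1 h2 h3 h4
      obtain ⟨z, hzU, hz⟩ : ∃ z ∈ U, z ∉ l.toFinset := by
        apply exists_mem_outside
        have := l.toFinset_card_le
        omega
      obtain ⟨H', l', c1, c2, c3⟩ := h1.insert hg (by omega) hΔ (by simpa using h3)
        (z := z) (by simpa using hz)
      refine ih H' l' c1 ?_ (by omega) (by omega)
      intro v hv
      rcases (c2 v).1 hv with rfl | hv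
      · exact hzU
      · exact h2 v hv
  have hpow : (Δ + 3) ^ g ≤ (Δ + 4) ^ g := Nat.pow_le_pow_left (by omega) g
  obtain ⟨H, y, t, hps, hlen, hmem⟩ := exists_path hg hΓ hΔ U (2 * (Δ + 4) ^ g + g + 1)
    (by omega)
  obtain ⟨H', hcs⟩ := hps.close hg (by omega)
  have hle : (y :: t).length ≤ U.card := by
    rw [← List.toFinset_card_of_nodup hps.nodup]
    exact Finset.card_le_card (fun v hv => hmem v (by simpa using hv))
  obtain ⟨k, hk⟩ := Nat.exists_eq_add_of_le hle
  obtain ⟨H2, l', c1, c2⟩ := key k H' (y :: t) hcs hmem (by simp; omega) hk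
  exact ⟨H2, l', c1.le, c1.gg, c1.deg, c1.nodup, c2, c1.cl.imp (fun a b h => h.1)⟩

end Run7.h651
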