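import Pool.Agent.Run7.h651.Graph

/-!
Every path misses at least two vertices.
-/

namespace Run7.h651

open SimpleGraph Plan

lemma ivt {P : ℕ → Prop} {a b : ℕ} (hab : a < b) (ha : ¬ P a) (hb : P b) :
    ∃ k, a ≤ k ∧ k < b ∧ ¬ P k ∧ P (k + 1) := by
  classical
  induction b with
  | zero => omega
  | succ b ih =>
    by_cases hPb : P b
    · rcases Nat.lt_or_ge a b with h | h
      · obtain ⟨k, h1, h2, h3, h4⟩ := ih h hPb
        exact ⟨k, h1, by omega, h3, h4⟩
      · have : a = b := by omega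
        subst this
        exact absurd hPb ha
    · exact ⟨b, by omega, by omega, hPb, hb⟩

/-- No return to a set with three edges to the outside. -/
lemma nr {V : Type*} {u : ℕ → V} {N : ℕ} (hinj : ∀ i j, i ≤ N → j ≤ N → u i = u j → i = j)
    {X : V → Prop} {xe ye : Fin 3 → V}
    (hX : ∀ i, i < N → X (u i) → ¬ X (u (i + 1)) → ∃ p, u i = xe p ∧ u (i + 1) = ye p)
    (hX' : ∀ i, i < N → ¬ X (u i) → X (u (i + 1)) → ∃ p, u (i + 1) = xe p ∧ u i = ye p)
    (h0 : ¬ X (u 0)) (hN : ¬ X (u N)) {i j : ℕ} (hi : X (u i)) (hi' : ¬ X (u (i + 1)))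
    (hij : i < j) (hjN : j ≤ N) (hj : X (u j)) : False := by
  have hi0 : 0 < i := by
    rcases Nat.eq_zero_or_pos i with rfl | h
    · exact absurd hi h0
    · exact h
  have hjN' : j < N := by
    rcases Nat.lt_or_ge j N with h | h
    · exact h
    · have : j = N := by omega
      subst this
      exact absurd hj hN
  have hij' : i + 1 < j := by
    rcases Nat.lt_or_ge (i + 1) j with h | h
    · exact h
    · have : j = i + 1 := by omega
      subst this
      exact absurd hj hi'
  obtain ⟨k1, a1, a2, a3, a4⟩ := ivt (P := fun n => X (u n)) hi0 h0 hi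
  obtain ⟨k3, b1, b2, b3, b4⟩ := ivt (P := fun n => X (u n)) hij' hi' hj
  obtain ⟨k4, c1, c2, c3, c4⟩ := ivt (P := fun n => ¬ X (u n)) hjN' (not_not.2 hj) hN
  simp only [not_not] at c3
  obtain ⟨p1, e1, f1⟩ := hX' k1 (by omega) a3 a4
  obtain ⟨p2, e2, f2⟩ := hX i (by omega) hi hi'
  obtain ⟨p3, e3, f3⟩ := hX' k3 (by omega) b3 b4
  obtain ⟨p4, e4, f4⟩ := hX k4 (by omega) c3 c4
  have d12 : p1 ≠ p2 := by
    rintro rfl
    have := hinj _ _ (by omega) (by omega) (e1.trans e2.symm)
    have := hinj _ _ (by omega) (by omega) (f1.trans f2.symm)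
    omega
  have d13 : p1 ≠ p3 := by
    rintro rfl
    have := hinj _ _ (by omega) (by omega) (e1.trans e3.symm)
    omega
  have d14 : p1 ≠ p4 := by
    rintro rfl
    have := hinj _ _ (by omega) (by omega) (e1.trans e4.symm)
    have := hinj _ _ (by omega) (by omega) (f1.trans f4.symm)
    omega
  have d23 : p2 ≠ p3 := by
    rintro rfl
    have := hinj _ _ (by omega) (by omega) (e2.trans e3.symm)
    omega
  have d24 : p2 ≠ p4 := by
    rintro rfl
    have := hinj _ _ (by omega) (by omega) (e2.trans e4.symm)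
    omega
  have d34 : p3 ≠ p4 := by
    rintro rfl
    have := hinj _ _ (by omega) (by omega) (e3.trans e4.symm)
    have := hinj _ _ (by omega) (by omega) (f3.trans f4.symm)
    omega
  omega

/-- contraction of the parts -/
lemma contract {V W : Type*} {u : ℕ → V} {f : V → W} : ∀ (d a : ℕ),
    (∀ i, a ≤ i → i < a + d → f (u i) ≠ f (u (i + 1)) →
      ∀ j, i < j → j ≤ a + d → f (u j) ≠ f (u i)) →
    ∃ L : List W, L.Nodup ∧ (∀ w, w ∈ L ↔ ∃ j, a ≤ j ∧ j ≤ a + d ∧ f (u j) = w) ∧
      L.head? = some (f (u a)) ∧ L.getLast? = some (f (u (a + d))) ∧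
      L.IsChain (fun w w' => ∃ i, a ≤ i ∧ i < a + d ∧ f (u i) = w ∧ f (u (i + 1)) = w' ∧
        w ≠ w') := by
  intro d
  induction d with
  | zero =>
    intro a _
    refine ⟨[f (u a)], by simp, ?_, rfl, rfl, by simp⟩
    intro w
    simp only [List.mem_singleton, add_zero]
    constructor
    · rintro rfl
      exact ⟨a, le_rfl, le_rfl, rfl⟩
    · rintro ⟨j, h1, h2, h3⟩
      have : j = a := by omega
      rw [← h3, this]
  | succ d ih =>
    intro a hnr
    obtain ⟨L, h1, h2, h3, h4, h5⟩ := ih (a + 1) (fun i hi hi' hne j hj hj' =>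
      hnr i (by omega) (by omega) hne j hj (by omega))
    have had : a + 1 + d = a + (d + 1) := by omega
    rw [had] at h4
    have h5' : L.IsChain (fun w w' => ∃ i, a ≤ i ∧ i < a + (d + 1) ∧ f (u i) = w ∧
        f (u (i + 1)) = w' ∧ w ≠ w') := by
      refine h5.imp ?_
      rintro w w' ⟨i, k1, k2, k3⟩
      exact ⟨i, by omega, by omega, k3⟩
    by_cases he : f (u a) = f (u (a + 1))
    · refine ⟨L, h1, ?_, by rw [h3, he], h4, h5'⟩
      intro w
      rw [h2]
      constructor
      · rintro ⟨j, k1, k2, k3⟩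
        exact ⟨j, by omega, by omega, k3⟩
      · rintro ⟨j, k1, k2, k3⟩
        rcases Nat.lt_or_ge a j with h | h
        · exact ⟨j, by omega, by omega, k3⟩
        · have : j = a := by omega
          subst this
          exact ⟨j + 1, by omega, by omega, he ▸ k3⟩
    · refine ⟨f (u a) :: L, ?_, ?_, rfl, ?_, ?_⟩
      · rw [List.nodup_cons]
        refine ⟨?_, h1⟩
        intro hm
        obtain ⟨j, k1, k2, k3⟩ := (h2 _).1 hm
        exact hnr a le_rfl (by omega) he j (by omega) (by omega) k3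
      · intro w
        rw [List.mem_cons, h2]
        constructor
        · rintro (rfl | ⟨j, k1, k2, k3⟩)
          · exact ⟨a, le_rfl, by omega, rfl⟩
          · exact ⟨j, by omega, by omega, k3⟩
        · rintro ⟨j, k1, k2, k3⟩
          rcases Nat.lt_or_ge a j with h | h
          · exact Or.inr ⟨j, by omega, by omega, k3⟩
          · have : j = a := by omega
            subst this
            exact Or.inl k3.symm
      · cases L with
        | nil => simp at h3
        | cons w L => rw [List.getLast?_cons_cons]; exact h4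
      · rw [List.isChain_cons]
        refine ⟨?_, h5'⟩
        intro w hw
        rw [h3] at hw
        simp only [Option.mem_some_iff] at hw
        subst hw
        exact ⟨a, le_rfl, by omega, rfl, rfl, he⟩

lemma card_piece : ∀ k < 4, ((Finset.univ : Finset (Fin 36)).filter (fun w => pc w = k)).card = 9 := by
  decide +kernel

lemma exits : ∀ w : Fin 36, ∀ k < 4, 24 ≤ w.val → pc w = k →
    ∃ i : Fin 3, w = ⟨(24 + 3 * k + i.val) % 36, Nat.mod_lt _ (by norm_num)⟩ := by
  decide +kernel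

variable {A : Type} {GA : SimpleGraph A} {q : Fin 3 → A}

lemma piece_missed {u : ℕ → VV A} {N : ℕ} (hinj : ∀ i j, i ≤ N → j ≤ N → u i = u j → i = j)
    (hadj : ∀ i, i < N → (BG GA q).Adj (u i) (u (i + 1))) {k : ℕ} (hk : k < 4)
    (h0 : pc (mac (u 0)) ≠ k) (hN : pc (mac (u N)) ≠ k) :
    ∃ v : VV A, pc (mac v) = k ∧ ∀ i, i ≤ N → u i ≠ v := by
  classical
  by_contra hcon
  push Not at hcon
  -- no return to the parts
  have hfib : ∀ w : Fin 36, pc w = k → ∀ i j, i < j → j ≤ N → mac (u i) = w →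
      mac (u (i + 1)) ≠ w → mac (u j) = w → False := by
    intro w hw i j hij hjN h1 h2 h3
    refine nr (X := fun v => mac v = w) (xe := loc q w)
      (ye := fun p => loc q (ext w p).1 (ext w p).2) hinj ?_ ?_ ?_ ?_ h1 h2 hij hjN h3
    · intro i hi a1 a2
      obtain ⟨p, e1, e2⟩ := BG.cross (hadj i hi) (by rw [a1]; exact fun h => a2 h.symm)
      rw [a1] at e1 e2
      exact ⟨p, e1, e2⟩
    · intro i hi a1 a2
      obtain ⟨p, e1, e2⟩ := BG.cross (hadj i hi).symm (by rw [a2]; exact fun h => a1 h.symm)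
      rw [a2] at e1 e2
      exact ⟨p, e1, e2⟩
    · rintro h; exact h0 (by rw [h]; exact hw)
    · rintro h; exact hN (by rw [h]; exact hw)
  have hcr : ∀ i, i < N → pc (mac (u i)) = k → pc (mac (u (i + 1))) ≠ k →
      ∃ p : Fin 3, u i = loc q ⟨(24 + 3 * k + p.val) % 36, Nat.mod_lt _ (by norm_num)⟩ 2 ∧
        u (i + 1) = loc q (ext ⟨(24 + 3 * k + p.val) % 36, Nat.mod_lt _ (by norm_num)⟩ 2).1
          (ext ⟨(24 + 3 * k + p.val) % 36, Nat.mod_lt _ (by norm_num)⟩ 2).2 ∧
        24 ≤ (mac (u i)).val := by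
    intro i hi a1 a2
    obtain ⟨p, e1, e2⟩ := BG.cross (hadj i hi) (fun h => a2 (by rw [← h]; exact a1))
    have hm : mac (u (i + 1)) = (ext (mac (u i)) p).1 := by rw [e2, mac_loc]
    rw [hm] at a2
    obtain ⟨b1, b2, _⟩ := pc_ext (mac (u i)) p (by rw [a1]; exact a2)
    obtain ⟨j, hj⟩ := exits (mac (u i)) k hk b1 a1
    subst b2
    refine ⟨j, ?_, ?_, b1⟩
    · rw [← hj]; exact e1
    · rw [← hj]; exact e2
  have hcr' : ∀ i, i < N → pc (mac (u i)) ≠ k → pc (mac (u (i + 1))) = k →
      ∃ p : Fin 3, u (i + 1) = loc q ⟨(24 + 3 * k + p.val) % 36, Nat.mod_lt _ (by norm_num)⟩ 2 ∧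
        u i = loc q (ext ⟨(24 + 3 * k + p.val) % 36, Nat.mod_lt _ (by norm_num)⟩ 2).1
          (ext ⟨(24 + 3 * k + p.val) % 36, Nat.mod_lt _ (by norm_num)⟩ 2).2 ∧
        24 ≤ (mac (u (i + 1))).val := by
    intro i hi a1 a2
    obtain ⟨p, e1, e2⟩ := BG.cross (hadj i hi).symm (fun h => a1 (by rw [← h]; exact a2))
    have hm : mac (u i) = (ext (mac (u (i + 1))) p).1 := by
      conv_lhs => rw [e2, mac_loc]
    rw [hm] at a1
    obtain ⟨b1, b2, _⟩ := pc_ext (mac (u (i + 1))) p (by rw [a2]; exact a1)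
    obtain ⟨j, hj⟩ := exits (mac (u (i + 1))) k hk b1 a2
    subst b2
    refine ⟨j, ?_, ?_, b1⟩
    · rw [← hj]; exact e1
    · rw [← hj]; exact e2
  -- the interval of the piece
  obtain ⟨v0, hv0⟩ : ∃ v : VV A, pc (mac v) = k := by
    obtain ⟨w, hw⟩ : ∃ w : Fin 36, pc w = k := by
      have := card_piece k hk
      have h9 : 0 < ((Finset.univ : Finset (Fin 36)).filter (fun w => pc w = k)).card := by omega
      obtain ⟨w, hw⟩ := Finset.card_pos.1 h9
      exact ⟨w, (Finset.mem_filter.1 hw).2⟩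
    exact ⟨loc q w 0, by rw [mac_loc]; exact hw⟩
  obtain ⟨i0, hi0N, hi0⟩ := hcon v0 hv0
  set S : Finset ℕ := (Finset.range (N + 1)).filter (fun i => pc (mac (u i)) = k) with hS
  have hSmem : ∀ i, i ∈ S ↔ i ≤ N ∧ pc (mac (u i)) = k := by
    intro i
    simp [hS, Nat.lt_succ_iff]
  have hSne : S.Nonempty := ⟨i0, (hSmem i0).2 ⟨hi0N, by rw [hi0]; exact hv0⟩⟩
  obtain ⟨a, ha⟩ : ∃ a, a = S.min' hSne := ⟨_, rfl⟩
  obtain ⟨b, hb⟩ : ∃ b, b = S.max' hSne := ⟨_, rfl⟩
  have haS := (hSmem a).1 (by rw [ha]; exact S.min'_mem hSne)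
  have hbS := (hSmem b).1 (by rw [hb]; exact S.max'_mem hSne)
  have hmin : ∀ i, i ≤ N → pc (mac (u i)) = k → a ≤ i ∧ i ≤ b := by
    intro i h1 h2
    rw [ha, hb]
    exact ⟨S.min'_le i ((hSmem i).2 ⟨h1, h2⟩), S.le_max' i ((hSmem i).2 ⟨h1, h2⟩)⟩
  have hab : a ≤ b := (hmin a haS.1 haS.2).2
  have ha0 : 0 < a := by
    rcases Nat.eq_zero_or_pos a with h | h
    · exact absurd (h ▸ haS.2) h0
    · exact h
  have hbN : b < N := by
    rcases Nat.lt_or_ge b N with h | h
    · exact h
    · have : b = N := by omega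
      exact absurd (this ▸ hbS.2) hN
  have hint : ∀ i, a ≤ i → i ≤ b → pc (mac (u i)) = k := by
    intro i h1 h2
    by_contra hi
    have hai : a < i := by
      rcases Nat.lt_or_ge a i with h | h
      · exact h
      · have : i = a := by omega
        exact absurd (this ▸ haS.2) hi
    obtain ⟨j, j1, j2, j3, j4⟩ := ivt (P := fun n => ¬ pc (mac (u n)) = k) hai
      (not_not.2 haS.2) hi
    simp only [not_not] at j3
    refine nr (X := fun v => pc (mac v) = k)
      (xe := fun p => loc q ⟨(24 + 3 * k + p.val) % 36, Nat.mod_lt _ (by norm_num)⟩ 2)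
      (ye := fun p => loc q (ext ⟨(24 + 3 * k + p.val) % 36, Nat.mod_lt _ (by norm_num)⟩ 2).1
          (ext ⟨(24 + 3 * k + p.val) % 36, Nat.mod_lt _ (by norm_num)⟩ 2).2)
      hinj ?_ ?_ h0 hN j3 j4 (j := b) ?_ hbN.le hbS.2
    · intro i hi b1 b2
      obtain ⟨p, e1, e2, _⟩ := hcr i hi b1 b2
      exact ⟨p, e1, e2⟩
    · intro i hi b1 b2
      obtain ⟨p, e1, e2, _⟩ := hcr' i hi b1 b2
      exact ⟨p, e1, e2⟩
    · rcases Nat.lt_or_ge j b with h | h
      · exact h
      · have : j = b := by omega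
        subst this
        omega
  obtain ⟨d, hd⟩ := Nat.exists_eq_add_of_le hab
  obtain ⟨L, l1, l2, l3, l4, l5⟩ := contract (u := u) (f := mac) d a (by
    intro i h1 h2 h3 j h4 h5 h6
    exact hfib (mac (u i)) (hint i h1 (by omega)) i j h4 (by omega) rfl (fun h => h3 h.symm) h6)
  rw [← hd] at l2 l4 l5
  -- all nine points
  have hL : L.toFinset = (Finset.univ : Finset (Fin 36)).filter (fun w => pc w = k) := by
    ext w
    rw [List.mem_toFinset, l2, Finset.mem_filter]
    constructor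
    · rintro ⟨j, j1, j2, j3⟩
      refine ⟨Finset.mem_univ _, ?_⟩
      rw [← j3]
      exact hint j j1 j2
    · rintro ⟨_, hw⟩
      obtain ⟨j, j1, j2⟩ := hcon (loc q w 0) (by rw [mac_loc]; exact hw)
      have j3 : mac (u j) = w := by rw [j2, mac_loc]
      obtain ⟨j4, j5⟩ := hmin j j1 (by rw [j3]; exact hw)
      exact ⟨j, j4, j5, j3⟩
  have hlen : L.length = 9 := by
    rw [← List.toFinset_card_of_nodup l1, hL]
    exact card_piece k hk
  refine noham hlen l1 ?_ l4 l3 ?_ ?_
  · refine l5.imp ?_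
    rintro w w' ⟨i, i1, i2, i3, i4, i5⟩
    have e1 : pc w = k := by rw [← i3]; exact hint i i1 (by omega)
    have e2 : pc w' = k := by rw [← i4]; exact hint (i + 1) (by omega) (by omega)
    obtain ⟨p, _, e4⟩ := BG.cross (hadj i (by omega)) (by rw [i3, i4]; exact i5)
    have e5 : w' = (ext w p).1 := by
      rw [← i4, e4, mac_loc, i3]
    have e6 : (ext w' (ext w p).2).1 = w := by
      rw [e5, ext_ext]
    unfold adjp
    rw [List.mem_filter]
    refine ⟨?_, by simp [e1, e2]⟩
    have : ∀ p' : Fin 3, (ext w' p').1 = w → w ∈ [(ext w' 0).1, (ext w' 1).1, (ext w' 2).1] := by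
      intro p' h
      fin_cases p'
      · simp only at h; simp [← h]
      · simp only at h; simp [← h]
      · simp only at h; simp [← h]
    exact this _ e6
  · -- the last point
    obtain ⟨p, _, _, e⟩ := hcr b hbN hbS.2 (by
      intro h
      have := (hmin (b + 1) (by omega) h).2
      omega)
    exact e
  · obtain ⟨a', rfl⟩ : ∃ a', a = a' + 1 := ⟨a - 1, by omega⟩
    obtain ⟨p, _, _, e⟩ := hcr' a' (by omega) (by
      intro h
      have := (hmin a' (by omega) h).1
      omega) haS.2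
    exact e

lemma pc_lt : ∀ w : Fin 36, pc w < 4 := by decide +kernel

/-- Every path misses at least two vertices. -/
theorem upper [Fintype A] {x y : VV A} (p : (BG GA q).Walk x y) (hp : p.IsPath) :
    p.length + 1 + 2 ≤ Fintype.card (VV A) := by
  classical
  set N := p.length with hN
  set u : ℕ → VV A := p.getVert with hu
  have hinj : ∀ i j, i ≤ N → j ≤ N → u i = u j → i = j := by
    intro i j hi hj h
    exact hp.getVert_injOn (by simpa using hi) (by simpa using hj) h
  have hadj : ∀ i, i < N → (BG GA q).Adj (u i) (u (i + 1)) := fun i hi =>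
    p.adj_getVert_succ hi
  obtain ⟨k1, k2, h12, hk1, hk2, h1, h2, h3, h4⟩ : ∃ k1 k2, k1 ≠ k2 ∧ k1 < 4 ∧ k2 < 4 ∧
      pc (mac (u 0)) ≠ k1 ∧ pc (mac (u N)) ≠ k1 ∧ pc (mac (u 0)) ≠ k2 ∧ pc (mac (u N)) ≠ k2 := by
    have e1 := pc_lt (mac (u 0))
    have e2 := pc_lt (mac (u N))
    generalize pc (mac (u 0)) = a at *
    generalize pc (mac (u N)) = b at *
    interval_cases a <;> interval_cases b <;>
      first
      | exact ⟨2, 3, by omega⟩
      | exact ⟨0, 1, by omega⟩
      | exact ⟨0, 2, by omega⟩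
      | exact ⟨0, 3, by omega⟩
      | exact ⟨1, 2, by omega⟩
      | exact ⟨1, 3, by omega⟩
  obtain ⟨v1, a1, b1⟩ := piece_missed hinj hadj hk1 h1 h2
  obtain ⟨v2, a2, b2⟩ := piece_missed hinj hadj hk2 h3 h4
  have hv : v1 ≠ v2 := by
    rintro rfl
    exact h12 (a1.symm.trans a2)
  have hc : ((Finset.range (N + 1)).image u ∪ {v1, v2}).card = N + 1 + 2 := by
    rw [Finset.card_union_of_disjoint, Finset.card_image_of_injOn, Finset.card_range,
      Finset.card_pair hv]
    · intro i hi j hj h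
      simp only [Finset.coe_range, Set.mem_Iio] at hi hj
      exact hinj i j (by omega) (by omega) h
    · rw [Finset.disjoint_left]
      intro v hv1 hv2
      rw [Finset.mem_image] at hv1
      obtain ⟨i, hi, rfl⟩ := hv1
      rw [Finset.mem_range] at hi
      simp only [Finset.mem_insert, Finset.mem_singleton] at hv2
      rcases hv2 with h | h
      · exact b1 i (by omega) h
      · exact b2 i (by omega) h
  rw [← hc]
  exact Finset.card_le_univ _

end Run7.h651
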